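import Pool.Agent.Lib.P26f563.Small

/-!
# Cohomology of singular cochains relative to a subcomplex
-/

open Finsupp

namespace STop

section grading

variable {X Y : Type*} [TopologicalSpace X] [TopologicalSpace Y]

/-- Projection to chains of simplices with `m` vertices. -/
noncomputable def prv (m : ℕ) : SC X →ₗ[F2] SC X :=
  open Classical in lin fun σ => if σ.nv = m then single σ 1 else 0

theorem prv_single (m : ℕ) (σ : Sing X) :
    prv m (single σ 1) = open Classical in if σ.nv = m then single σ 1 else 0 := by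
  rw [prv, lin_single]

theorem prv_single_of_eq {m : ℕ} {σ : Sing X} (h : σ.nv = m) :
    prv m (single σ 1) = single σ 1 := by
  rw [prv_single, if_pos h]

theorem prv_single_of_ne {m : ℕ} {σ : Sing X} (h : σ.nv ≠ m) :
    prv m (single σ 1) = 0 := by
  rw [prv_single, if_neg h]

/-- Chains with `m` vertices. -/
def Deg (X : Type*) [TopologicalSpace X] (m : ℕ) : Submodule F2 (SC X) :=
  supp fun σ => σ.nv = m

theorem prv_of_mem {m : ℕ} {x : SC X} (h : x ∈ Deg X m) : prv m x = x := by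
  refine supp_ext (prv m) LinearMap.id ?_ h
  intro σ hσ
  exact prv_single_of_eq hσ

theorem prv_of_mem_ne {m n : ℕ} {x : SC X} (h : x ∈ Deg X m) (hmn : m ≠ n) : prv n x = 0 := by
  refine supp_ext (prv n) 0 ?_ h
  intro σ hσ
  exact prv_single_of_ne (by rw [hσ]; exact hmn)

theorem prv_mem (m : ℕ) (x : SC X) : prv m x ∈ Deg X m := by
  refine supp_induction (Deg X m) (prv m) ?_ (CIn_univ x)
  intro σ _
  by_cases h : σ.nv = m
  · rw [prv_single_of_eq h]; exact single_mem_supp (P := fun σ : Sing X => σ.nv = m) h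
  · rw [prv_single_of_ne h]; exact Submodule.zero_mem _

theorem realL_mem_Deg (σ : Sing X) {m : ℕ} {x : LC (Fin σ.nv)}
    (hx : x ∈ supp fun l : List (Fin σ.nv) => l.length = m) : realL σ x ∈ Deg X m := by
  refine supp_induction (Deg X m) (realL σ) ?_ hx
  intro l hl
  rw [realL_single]
  exact single_mem_supp (P := fun σ : Sing X => σ.nv = m) hl

theorem bd1_len' {T : Type*} (l : List T) {m : ℕ} (h : l.length = m + 1) :
    bd1 l ∈ supp fun q : List T => q.length = m := by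
  cases l with
  | nil => simp at h
  | cons a l =>
    have := bd1_len a l
    rw [List.length_cons] at h
    have h' : l.length = m := by omega
    rwa [h'] at this

theorem bdS_single_mem {σ : Sing X} {m : ℕ} (h : σ.nv = m + 1) :
    bdS (single σ 1) ∈ Deg X m := by
  rw [bdS_single]
  apply realL_mem_Deg
  rw [univ, bd_single]
  exact bd1_len' _ (by simp [h])

theorem bdS_single_zero {σ : Sing X} (h : σ.nv = 0) : bdS (single σ 1) = 0 := by
  rw [bdS_single, univ, bd_single]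
  have : List.finRange σ.nv = [] := by
    apply List.length_eq_zero_iff.1
    simp [h]
  rw [this, bd1_nil, map_zero]

theorem bdS_mem_Deg {m : ℕ} {x : SC X} (h : x ∈ Deg X (m + 1)) : bdS x ∈ Deg X m :=
  supp_induction (Deg X m) bdS (fun _ hσ => bdS_single_mem hσ) h

theorem bdS_Deg_zero {x : SC X} (h : x ∈ Deg X 0) : bdS x = 0 :=
  supp_ext bdS 0 (fun _ hσ => bdS_single_zero hσ) h

theorem bdS_prv (m : ℕ) (x : SC X) : bdS (prv (m + 1) x) = prv m (bdS x) := by
  have : (bdS ∘ₗ prv (m + 1) : SC X →ₗ[F2] SC X) = prv m ∘ₗ bdS := by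
    apply lin_ext; intro σ
    simp only [LinearMap.comp_apply]
    by_cases h : σ.nv = m + 1
    · rw [prv_single_of_eq h, prv_of_mem (bdS_single_mem h)]
    · rw [prv_single_of_ne h, map_zero]
      rcases Nat.eq_zero_or_pos σ.nv with h0 | h0
      · rw [bdS_single_zero h0, map_zero]
      · obtain ⟨k, hk⟩ : ∃ k, σ.nv = k + 1 := ⟨σ.nv - 1, by omega⟩
        rw [prv_of_mem_ne (bdS_single_mem hk) (by omega)]
  exact congrArg (fun g => g x) this

theorem push_prv (f : C(X, Y)) (m : ℕ) (x : SC X) : push f (prv m x) = prv m (push f x) := by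
  have : (push f ∘ₗ prv m) = prv m ∘ₗ push f := by
    apply lin_ext; intro σ
    simp only [LinearMap.comp_apply, push_single]
    by_cases h : σ.nv = m
    · rw [prv_single_of_eq h, push_single, prv_single_of_eq (σ := σ.push f) h]
    · rw [prv_single_of_ne h, prv_single_of_ne (σ := σ.push f) h, map_zero]
  exact congrArg (fun g => g x) this

theorem prv_mem_supp {P : Sing X → Prop} {x : SC X} (h : x ∈ supp P) (m : ℕ) :
    prv m x ∈ supp P := by
  refine supp_induction (supp P) (prv m) ?_ h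
  intro σ hσ
  by_cases h : σ.nv = m
  · rw [prv_single_of_eq h]; exact single_mem_supp hσ
  · rw [prv_single_of_ne h]; exact Submodule.zero_mem _

/-- A functional is determined by its values on homogeneous parts. -/
theorem eq_zero_of_prv {c : Module.Dual F2 (SC X)} (h : ∀ m x, c (prv m x) = 0) : c = 0 := by
  apply lin_ext
  intro σ
  have := h σ.nv (single σ 1)
  rw [prv_single_of_eq rfl] at this
  rw [this]; rfl

theorem apply_eq_prv {c : Module.Dual F2 (SC X)} {m : ℕ} (h : ∀ k, k ≠ m → ∀ x, c (prv k x) = 0)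
    (x : SC X) : c x = c (prv m x) := by
  have : c = c ∘ₗ prv m := by
    apply lin_ext
    intro σ
    rw [LinearMap.comp_apply]
    by_cases hm : σ.nv = m
    · rw [prv_single_of_eq hm]
    · rw [prv_single_of_ne hm, map_zero]
      have := h σ.nv hm (single σ 1)
      rwa [prv_single_of_eq rfl] at this
  exact congrArg (fun g => g x) this

end grading

/-- Admissible submodules: graded subcomplexes containing the empty simplices. -/
structure Adm {X : Type*} [TopologicalSpace X] (N : Submodule F2 (SC X)) : Prop where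
  bd : ∀ x ∈ N, bdS x ∈ N
  gr : ∀ (m : ℕ) (x : SC X), x ∈ N → prv m x ∈ N
  e0 : Deg X 0 ≤ N

theorem Adm.sup {X : Type*} [TopologicalSpace X] {N N' : Submodule F2 (SC X)} (h : Adm N)
    (h' : (∀ x ∈ N', bdS x ∈ N') ∧ ∀ (m : ℕ) (x : SC X), x ∈ N' → prv m x ∈ N') :
    Adm (N' ⊔ N) where
  bd x hx := by
    obtain ⟨a, ha, b, hb, rfl⟩ := Submodule.mem_sup.1 hx
    rw [map_add]
    exact Submodule.add_mem_sup (h'.1 a ha) (h.bd b hb)
  gr m x hx := by
    obtain ⟨a, ha, b, hb, rfl⟩ := Submodule.mem_sup.1 hx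
    rw [map_add]
    exact Submodule.add_mem_sup (h'.2 m a ha) (h.gr m b hb)
  e0 := h.e0.trans le_sup_right

/-- Linear algebra: existence of functionals. -/
theorem exists_functional {V W : Type*} [AddCommGroup V] [Module F2 V] [AddCommGroup W]
    [Module F2 W] (N : Submodule F2 V) (f : W →ₗ[F2] V) (φ : W →ₗ[F2] F2)
    (h : ∀ w, f w ∈ N → φ w = 0) : ∃ c : V →ₗ[F2] F2, (∀ v ∈ N, c v = 0) ∧ ∀ w, c (f w) = φ w := by
  have h1 : φ ∈ (LinearMap.ker (N.mkQ ∘ₗ f)).dualAnnihilator := by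
    rw [Submodule.mem_dualAnnihilator]
    intro w hw
    apply h
    rw [LinearMap.mem_ker, LinearMap.comp_apply] at hw
    rwa [Submodule.mkQ_apply, Submodule.Quotient.mk_eq_zero] at hw
  rw [← LinearMap.range_dualMap_eq_dualAnnihilator_ker] at h1
  obtain ⟨ψ, hψ⟩ := h1
  refine ⟨ψ ∘ₗ N.mkQ, ?_, ?_⟩
  · intro v hv
    rw [LinearMap.comp_apply, Submodule.mkQ_apply, (Submodule.Quotient.mk_eq_zero N).2 hv,
      map_zero]
  · intro w
    exact congrArg (fun g => g w) hψ

section coh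

variable {X Y Z : Type*} [TopologicalSpace X] [TopologicalSpace Y] [TopologicalSpace Z]

/-- Coboundary. -/
noncomputable def del : Module.Dual F2 (SC X) →ₗ[F2] Module.Dual F2 (SC X) := bdS.dualMap

theorem del_apply (c : Module.Dual F2 (SC X)) (x : SC X) : del c x = c (bdS x) := rfl

theorem del_del (c : Module.Dual F2 (SC X)) : del (del c) = 0 := by
  ext σ
  simp only [LinearMap.comp_apply, del_apply, bdS_bdS, map_zero]
  rfl

/-- Cochains of degree `n` vanishing on `N`. -/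
def Cn (n : ℤ) (N : Submodule F2 (SC X)) : Submodule F2 (Module.Dual F2 (SC X)) where
  carrier := {c | (∀ x ∈ N, c x = 0) ∧ ∀ m : ℕ, (m : ℤ) ≠ n + 1 → ∀ x, c (prv m x) = 0}
  add_mem' := by
    rintro c d ⟨hc1, hc2⟩ ⟨hd1, hd2⟩
    refine ⟨fun x hx => ?_, fun m hm x => ?_⟩
    · rw [LinearMap.add_apply, hc1 x hx, hd1 x hx, add_zero]
    · rw [LinearMap.add_apply, hc2 m hm x, hd2 m hm x, add_zero]
  zero_mem' := ⟨fun _ _ => rfl, fun _ _ _ => rfl⟩
  smul_mem' := by
    rintro a c ⟨hc1, hc2⟩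
    refine ⟨fun x hx => ?_, fun m hm x => ?_⟩
    · rw [LinearMap.smul_apply, hc1 x hx, smul_zero]
    · rw [LinearMap.smul_apply, hc2 m hm x, smul_zero]

theorem mem_Cn {n : ℤ} {N : Submodule F2 (SC X)} {c : Module.Dual F2 (SC X)} :
    c ∈ Cn n N ↔ (∀ x ∈ N, c x = 0) ∧ ∀ m : ℕ, (m : ℤ) ≠ n + 1 → ∀ x, c (prv m x) = 0 := Iff.rfl

theorem Cn_anti {n : ℤ} {N N' : Submodule F2 (SC X)} (h : N ≤ N') : Cn n N' ≤ Cn n N :=
  fun _ hc => ⟨fun x hx => hc.1 x (h hx), hc.2⟩

theorem Cn_neg {n : ℤ} (hn : n < 0) {N : Submodule F2 (SC X)} (hN : Adm N)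
    {c : Module.Dual F2 (SC X)} (hc : c ∈ Cn n N) : c = 0 := by
  apply eq_zero_of_prv
  intro m x
  by_cases hm : (m : ℤ) = n + 1
  · have hm0 : m = 0 := by omega
    subst hm0
    exact hc.1 _ (hN.e0 (prv_mem 0 x))
  · exact hc.2 m hm x

theorem Cn_apply {k : ℕ} {N : Submodule F2 (SC X)} {c : Module.Dual F2 (SC X)}
    (hc : c ∈ Cn (k : ℤ) N) (x : SC X) : c x = c (prv (k + 1) x) := by
  apply apply_eq_prv
  intro m hm x
  exact hc.2 m (by omega) x

theorem del_mem_Cn {n : ℤ} {N : Submodule F2 (SC X)} (hN : Adm N) {c : Module.Dual F2 (SC X)}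
    (hc : c ∈ Cn n N) : del c ∈ Cn (n + 1) N := by
  refine ⟨fun x hx => hc.1 _ (hN.bd x hx), fun m hm x => ?_⟩
  rw [del_apply]
  rcases Nat.eq_zero_or_pos m with h0 | h0
  · subst h0
    rw [bdS_Deg_zero (prv_mem 0 x), map_zero]
  · obtain ⟨k, rfl⟩ : ∃ k, m = k + 1 := ⟨m - 1, by omega⟩
    rw [bdS_prv]
    exact hc.2 k (by push_cast at hm; omega) _

/-- Cocycles. -/
noncomputable def Zn (n : ℤ) (N : Submodule F2 (SC X)) : Submodule F2 (Module.Dual F2 (SC X)) :=
  Cn n N ⊓ LinearMap.ker del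

theorem mem_Zn {n : ℤ} {N : Submodule F2 (SC X)} {c : Module.Dual F2 (SC X)} :
    c ∈ Zn n N ↔ c ∈ Cn n N ∧ del c = 0 := by
  simp [Zn]

/-- Coboundaries. -/
noncomputable def Bn (n : ℤ) (N : Submodule F2 (SC X)) : Submodule F2 (Module.Dual F2 (SC X)) :=
  (Cn (n - 1) N).map del

theorem mem_Bn {n : ℤ} {N : Submodule F2 (SC X)} {c : Module.Dual F2 (SC X)} :
    c ∈ Bn n N ↔ ∃ b ∈ Cn (n - 1) N, del b = c := by
  simp [Bn]

/-- Coboundaries among the cocycles. -/
noncomputable def BZ (n : ℤ) (N : Submodule F2 (SC X)) : Submodule F2 ↥(Zn n N) :=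
  (Bn n N).comap (Zn n N).subtype

theorem mem_BZ {n : ℤ} {N : Submodule F2 (SC X)} {c : ↥(Zn n N)} :
    c ∈ BZ n N ↔ (c : Module.Dual F2 (SC X)) ∈ Bn n N := Iff.rfl

/-- Cohomology in degree `n` of the cochains vanishing on `N`. -/
abbrev Hn (n : ℤ) (N : Submodule F2 (SC X)) : Type _ := ↥(Zn n N) ⧸ BZ n N

/-- The class of a cocycle. -/
noncomputable def cls {n : ℤ} {N : Submodule F2 (SC X)} (c : Module.Dual F2 (SC X))
    (h : c ∈ Zn n N) : Hn n N := Submodule.Quotient.mk ⟨c, h⟩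

theorem cls_eq_iff {n : ℤ} {N : Submodule F2 (SC X)} {c d : Module.Dual F2 (SC X)}
    {hc : c ∈ Zn n N} {hd : d ∈ Zn n N} : cls c hc = cls d hd ↔ c + d ∈ Bn n N := by
  unfold cls
  rw [Submodule.Quotient.eq, mem_BZ]
  change c - d ∈ Bn n N ↔ _
  rw [sub_eq_add_neg, neg_eq_self']

theorem cls_eq_zero_iff {n : ℤ} {N : Submodule F2 (SC X)} {c : Module.Dual F2 (SC X)}
    {hc : c ∈ Zn n N} : cls c hc = 0 ↔ c ∈ Bn n N := by
  unfold cls
  rw [Submodule.Quotient.mk_eq_zero, mem_BZ]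

theorem exists_cls {n : ℤ} {N : Submodule F2 (SC X)} (a : Hn n N) :
    ∃ c, ∃ h : c ∈ Zn n N, cls c h = a := by
  obtain ⟨⟨c, h⟩, rfl⟩ := Submodule.Quotient.mk_surjective _ a
  exact ⟨c, h, rfl⟩

theorem cls_add {n : ℤ} {N : Submodule F2 (SC X)} {c d : Module.Dual F2 (SC X)}
    (hc : c ∈ Zn n N) (hd : d ∈ Zn n N) :
    cls c hc + cls d hd = cls (c + d) (Submodule.add_mem _ hc hd) := rfl

/-- A linear map between the groups `Hn` induced by a linear map on cochains. -/
noncomputable def Hmap {n m : ℤ} {N : Submodule F2 (SC X)} {N' : Submodule F2 (SC Y)}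
    (T : Module.Dual F2 (SC X) →ₗ[F2] Module.Dual F2 (SC Y))
    (hZ : ∀ c ∈ Zn n N, T c ∈ Zn m N') (hB : ∀ c ∈ Bn n N, T c ∈ Bn m N') :
    Hn n N →ₗ[F2] Hn m N' :=
  Submodule.mapQ _ _ ((T.domRestrict (Zn n N)).codRestrict (Zn m N') fun c => hZ c.1 c.2) (by
    intro c hc
    rw [Submodule.mem_comap, mem_BZ]
    rw [mem_BZ] at hc
    exact hB _ hc)

theorem Hmap_cls {n m : ℤ} {N : Submodule F2 (SC X)} {N' : Submodule F2 (SC Y)}
    (T : Module.Dual F2 (SC X) →ₗ[F2] Module.Dual F2 (SC Y))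
    (hZ : ∀ c ∈ Zn n N, T c ∈ Zn m N') (hB : ∀ c ∈ Bn n N, T c ∈ Bn m N')
    (c : Module.Dual F2 (SC X)) (h : c ∈ Zn n N) :
    Hmap T hZ hB (cls c h) = cls (T c) (hZ c h) := rfl

/-- Graded chain maps. -/
structure GrMap (f : SC X →ₗ[F2] SC Y) : Prop where
  bd : ∀ x, f (bdS x) = bdS (f x)
  gr : ∀ (m : ℕ) (x : SC X), f (prv m x) = prv m (f x)

theorem grMap_push (f : C(X, Y)) : GrMap (push f) where
  bd x := push_bdS f x
  gr m x := push_prv f m x

theorem grMap_id : GrMap (LinearMap.id : SC X →ₗ[F2] SC X) where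
  bd _ := rfl
  gr _ _ := rfl

variable {N : Submodule F2 (SC X)} {N' : Submodule F2 (SC Y)}

theorem GrMap.dual_Cn {f : SC X →ₗ[F2] SC Y} (hf : GrMap f) (hN : ∀ x ∈ N, f x ∈ N') {n : ℤ}
    {c : Module.Dual F2 (SC Y)} (hc : c ∈ Cn n N') : f.dualMap c ∈ Cn n N := by
  refine ⟨fun x hx => hc.1 _ (hN x hx), fun m hm x => ?_⟩
  rw [LinearMap.dualMap_apply, hf.gr]
  exact hc.2 m hm _

theorem GrMap.dual_del {f : SC X →ₗ[F2] SC Y} (hf : GrMap f) (c : Module.Dual F2 (SC Y)) :
    f.dualMap (del c) = del (f.dualMap c) := by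
  apply LinearMap.ext
  intro x
  rw [LinearMap.dualMap_apply, del_apply, del_apply, LinearMap.dualMap_apply, hf.bd]

theorem GrMap.dual_Zn {f : SC X →ₗ[F2] SC Y} (hf : GrMap f) (hN : ∀ x ∈ N, f x ∈ N') {n : ℤ}
    {c : Module.Dual F2 (SC Y)} (hc : c ∈ Zn n N') : f.dualMap c ∈ Zn n N := by
  rw [mem_Zn] at hc ⊢
  exact ⟨hf.dual_Cn hN hc.1, by rw [← hf.dual_del, hc.2, map_zero]⟩

theorem GrMap.dual_Bn {f : SC X →ₗ[F2] SC Y} (hf : GrMap f) (hN : ∀ x ∈ N, f x ∈ N') {n : ℤ}
    {c : Module.Dual F2 (SC Y)} (hc : c ∈ Bn n N') : f.dualMap c ∈ Bn n N := by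
  rw [mem_Bn] at hc ⊢
  obtain ⟨b, hb, rfl⟩ := hc
  exact ⟨_, hf.dual_Cn hN hb, (hf.dual_del b).symm⟩

/-- The map induced in cohomology. -/
noncomputable def pullH (n : ℤ) (f : SC X →ₗ[F2] SC Y) (hf : GrMap f)
    (hN : ∀ x ∈ N, f x ∈ N') : Hn n N' →ₗ[F2] Hn n N :=
  Hmap f.dualMap (fun _ hc => hf.dual_Zn hN hc) (fun _ hc => hf.dual_Bn hN hc)

theorem pullH_cls (n : ℤ) (f : SC X →ₗ[F2] SC Y) (hf : GrMap f)
    (hN : ∀ x ∈ N, f x ∈ N') (c : Module.Dual F2 (SC Y)) (h : c ∈ Zn n N') :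
    pullH n f hf hN (cls c h) = cls (f.dualMap c) (hf.dual_Zn hN h) := rfl

/-- Homotopic chain maps induce the same map. -/
theorem pullH_homotopy (n : ℤ) {f g : SC X →ₗ[F2] SC Y} (hf : GrMap f) (hg : GrMap g)
    (hfN : ∀ x ∈ N, f x ∈ N') (hgN : ∀ x ∈ N, g x ∈ N') (D : SC X →ₗ[F2] SC Y)
    (hD : ∀ x, bdS (D x) + D (bdS x) = f x + g x) (hDN : ∀ x ∈ N, D x ∈ N')
    (hDg : ∀ (m : ℕ) (x : SC X), prv (m + 1) (D x) = D (prv m x)) :
    pullH n f hf hfN = pullH n g hg hgN := by
  apply LinearMap.ext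
  intro a
  obtain ⟨c, hc, rfl⟩ := exists_cls a
  rw [pullH_cls, pullH_cls, cls_eq_iff, mem_Bn]
  rw [mem_Zn] at hc
  refine ⟨D.dualMap c, ⟨fun x hx => hc.1.1 _ (hDN x hx), fun m hm x => ?_⟩, ?_⟩
  · rw [LinearMap.dualMap_apply, ← hDg]
    exact hc.1.2 (m + 1) (by push_cast; omega) _
  · apply LinearMap.ext
    intro x
    rw [del_apply, LinearMap.dualMap_apply, LinearMap.add_apply, LinearMap.dualMap_apply,
      LinearMap.dualMap_apply, ← map_add, ← hD, map_add]
    have : c (bdS (D x)) = 0 := by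
      rw [← del_apply, hc.2]; rfl
    rw [this, zero_add]

theorem pullH_comp (n : ℤ) {N'' : Submodule F2 (SC Z)} {f : SC X →ₗ[F2] SC Y}
    {g : SC Y →ₗ[F2] SC Z} (hf : GrMap f) (hg : GrMap g) (hgf : GrMap (g ∘ₗ f))
    (hfN : ∀ x ∈ N, f x ∈ N') (hgN : ∀ x ∈ N', g x ∈ N'') (hgfN : ∀ x ∈ N, (g ∘ₗ f) x ∈ N'')
    (a : Hn n N'') : pullH n (g ∘ₗ f) hgf hgfN a = pullH n f hf hfN (pullH n g hg hgN a) := by
  obtain ⟨c, hc, rfl⟩ := exists_cls a
  rfl

/-- **Comparison, relative version** (excision): `V'/N' → V/N` injective and quasi-surjective. -/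
theorem pullH_bijective (n : ℤ) {f : SC X →ₗ[F2] SC Y} (hf : GrMap f) (hN : Adm N)
    (hN' : Adm N') (h1 : ∀ x ∈ N, f x ∈ N') (h2 : ∀ x, f x ∈ N' → x ∈ N)
    (h3 : ∀ y, (∃ x, bdS y + f x ∈ N') → ∃ e x, y + bdS e + f x ∈ N') :
    Function.Bijective (pullH n f hf h1) := by
  rcases lt_or_ge n 0 with hn | hn
  · -- trivial in negative degrees
    constructor
    · intro a b _
      obtain ⟨c, hc, rfl⟩ := exists_cls a
      obtain ⟨d, hd, rfl⟩ := exists_cls b
      have h1 := Cn_neg hn hN' (mem_Zn.1 hc).1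
      have h2 := Cn_neg hn hN' (mem_Zn.1 hd).1
      subst h1; subst h2; rfl
    · intro a
      obtain ⟨c, hc, rfl⟩ := exists_cls a
      have h1 := Cn_neg hn hN (mem_Zn.1 hc).1
      subst h1
      exact ⟨0, map_zero _⟩
  obtain ⟨k, rfl⟩ := Int.eq_ofNat_of_zero_le hn
  constructor
  · -- injectivity
    rw [injective_iff_map_eq_zero]
    intro a ha
    obtain ⟨c, hc, rfl⟩ := exists_cls a
    rw [pullH_cls, cls_eq_zero_iff, mem_Bn] at ha
    obtain ⟨b', hb', hbc⟩ := ha
    rw [cls_eq_zero_iff, mem_Bn]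
    rw [mem_Zn] at hc
    obtain ⟨b, hb1, hb2⟩ := exists_functional
      (N' ⊔ (supp fun σ : Sing Y => σ.nv ≠ k)) bdS c (by
        intro y hy
        rw [Cn_apply hc.1]
        set y1 := prv (k + 1) y with hy1
        have hy2 : bdS y1 ∈ N' := by
          rw [hy1, bdS_prv]
          obtain ⟨u, hu, v, hv, huv⟩ := Submodule.mem_sup.1 hy
          rw [← huv, map_add]
          have : prv k v = 0 := by
            refine supp_ext (prv k) 0 ?_ hv
            intro σ hσ
            exact prv_single_of_ne hσ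
          rw [this, add_zero]
          exact hN'.gr k u hu
        obtain ⟨e, x, hex⟩ := h3 y1 ⟨0, by rwa [map_zero, add_zero]⟩
        have e1 : c (y1 + bdS e + f x) = 0 := hc.1.1 _ hex
        have e2 : c (bdS e) = 0 := by rw [← del_apply, hc.2]; rfl
        rw [map_add, map_add, e2, add_zero] at e1
        have e3 : c (f x) = b' (bdS x) := by
          have := congrArg (fun g => g x) hbc
          exact this.symm
        have e4 : bdS x ∈ N := by
          apply h2
          rw [hf.bd]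
          have h5 := hN'.bd _ hex
          rw [map_add, map_add, bdS_bdS, add_zero] at h5
          have := Submodule.add_mem _ h5 hy2
          rwa [add_comm (bdS y1), add_assoc, add_self_eq_zero', add_zero] at this
        rw [e3, hb'.1 _ e4, add_zero] at e1
        exact e1)
    refine ⟨b, ⟨fun x hx => hb1 x (Submodule.mem_sup_left hx), fun m hm x => ?_⟩, ?_⟩
    · apply hb1
      apply Submodule.mem_sup_right
      refine supp_mono ?_ (prv_mem m x)
      intro σ hσ
      rw [hσ]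
      omega
    · apply LinearMap.ext
      intro x
      exact hb2 x
  · -- surjectivity
    intro a
    obtain ⟨c', hc', rfl⟩ := exists_cls a
    rw [mem_Zn] at hc'
    obtain ⟨c, hc1, hc2⟩ := exists_functional
      ((N' ⊔ LinearMap.range (bdS : SC Y →ₗ[F2] SC Y)) ⊔
        (supp fun σ : Sing Y => σ.nv ≠ k + 1)) f c' (by
        intro x hx
        obtain ⟨u, hu, v, hv, huv⟩ := Submodule.mem_sup.1 hx
        obtain ⟨u1, hu1, u2, ⟨y, hy⟩, hu12⟩ := Submodule.mem_sup.1 hu
        rw [Cn_apply hc'.1]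
        have hv0 : prv (k + 1) v = 0 := by
          refine supp_ext (prv (k + 1)) 0 ?_ hv
          intro σ hσ
          exact prv_single_of_ne hσ
        have e1 : f (prv (k + 1) x) = prv (k + 1) u1 + bdS (prv (k + 2) y) := by
          rw [hf.gr, ← huv, ← hu12, ← hy, map_add, map_add, hv0, add_zero, bdS_prv]
        obtain ⟨e, x1, hex⟩ := h3 (prv (k + 2) y) ⟨prv (k + 1) x, by
          rw [e1, add_comm (prv (k + 1) u1), ← add_assoc, add_self_eq_zero', zero_add]
          exact hN'.gr _ _ hu1⟩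
        have e2 := hN'.bd _ hex
        rw [map_add, map_add, bdS_bdS, add_zero, ← hf.bd] at e2
        have e3 : f (prv (k + 1) x + bdS x1) ∈ N' := by
          rw [map_add, e1, add_assoc]
          exact Submodule.add_mem _ (hN'.gr _ _ hu1) e2
        have e4 := hc'.1.1 _ (h2 _ e3)
        have e5 : c' (bdS x1) = 0 := by rw [← del_apply, hc'.2]; rfl
        rwa [map_add, e5, add_zero] at e4)
    have hcC : c ∈ Cn (k : ℤ) N' := by
      refine ⟨fun x hx => hc1 x (Submodule.mem_sup_left (Submodule.mem_sup_left hx)),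
        fun m hm x => ?_⟩
      apply hc1
      apply Submodule.mem_sup_right
      refine supp_mono ?_ (prv_mem m x)
      intro σ hσ
      rw [hσ]
      omega
    have hcZ : c ∈ Zn (k : ℤ) N' := by
      rw [mem_Zn]
      refine ⟨hcC, ?_⟩
      apply LinearMap.ext
      intro x
      rw [del_apply]
      exact hc1 _ (Submodule.mem_sup_left (Submodule.mem_sup_right ⟨x, rfl⟩))
    refine ⟨cls c hcZ, ?_⟩
    rw [pullH_cls]
    congr 1
    apply LinearMap.ext
    intro x
    exact hc2 x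

/-- **Comparison of two submodules** `N ≤ N''` with acyclic quotient. -/
theorem restrict_bijective (n : ℤ) {N N'' : Submodule F2 (SC X)} (hN : Adm N)
    (hN'' : Adm N'') (hle : N ≤ N'')
    (hac : ∀ y ∈ N'', bdS y ∈ N → ∃ e ∈ N'', y + bdS e ∈ N) :
    Function.Bijective (pullH n (LinearMap.id : SC X →ₗ[F2] SC X) grMap_id
      (N := N) (N' := N'') hle) := by
  rcases lt_or_ge n 0 with hn | hn
  · constructor
    · intro a b _
      obtain ⟨c, hc, rfl⟩ := exists_cls a
      obtain ⟨d, hd, rfl⟩ := exists_cls b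
      have h1 := Cn_neg hn hN'' (mem_Zn.1 hc).1
      have h2 := Cn_neg hn hN'' (mem_Zn.1 hd).1
      subst h1; subst h2; rfl
    · intro a
      obtain ⟨c, hc, rfl⟩ := exists_cls a
      have h1 := Cn_neg hn hN (mem_Zn.1 hc).1
      subst h1
      exact ⟨0, map_zero _⟩
  obtain ⟨k, rfl⟩ := Int.eq_ofNat_of_zero_le hn
  -- general extension step
  have step : ∀ (j : ℕ) (z : Module.Dual F2 (SC X)) (_ : z ∈ Cn (j : ℤ) N)
      (_ : ∀ y ∈ N'', z (bdS y) = 0),
      ∃ b ∈ Cn ((j : ℤ) - 1) N, ∀ y ∈ N'', z y = b (bdS y) := by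
    intro j z hz hz2
    obtain ⟨b, hb1, hb2⟩ := exists_functional (W := ↥N'')
      (N ⊔ (supp fun σ : Sing X => σ.nv ≠ j)) (bdS ∘ₗ N''.subtype) (z ∘ₗ N''.subtype) (by
        rintro ⟨y, hy⟩ hyN
        change bdS y ∈ _ at hyN
        change z y = 0
        rw [Cn_apply hz]
        have hy2 : bdS (prv (j + 1) y) ∈ N := by
          rw [bdS_prv]
          obtain ⟨u, hu, v, hv, huv⟩ := Submodule.mem_sup.1 hyN
          rw [← huv, map_add]
          have : prv j v = 0 := by
            refine supp_ext (prv j) 0 ?_ hv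
            intro σ hσ
            exact prv_single_of_ne hσ
          rw [this, add_zero]
          exact hN.gr j u hu
        obtain ⟨e, he, hye⟩ := hac _ (hN''.gr (j + 1) y hy) hy2
        have e1 := hz.1 _ hye
        rwa [map_add, hz2 e he, add_zero] at e1)
    refine ⟨b, ⟨fun x hx => hb1 x (Submodule.mem_sup_left hx), fun m hm x => ?_⟩, ?_⟩
    · apply hb1
      apply Submodule.mem_sup_right
      refine supp_mono ?_ (prv_mem m x)
      intro σ hσ
      rw [hσ]
      omega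
    · intro y hy
      exact (hb2 ⟨y, hy⟩).symm
  constructor
  · rw [injective_iff_map_eq_zero]
    intro a ha
    obtain ⟨z, hz, rfl⟩ := exists_cls a
    rw [pullH_cls, cls_eq_zero_iff, mem_Bn] at ha
    obtain ⟨b, hb, hbz⟩ := ha
    rw [cls_eq_zero_iff, mem_Bn]
    rw [mem_Zn] at hz
    have hbz' : ∀ y, b (bdS y) = z y := fun y => congrArg (fun g => g y) hbz
    rcases Nat.eq_zero_or_pos k with h0 | h0
    · subst h0
      have : b = 0 := Cn_neg (by norm_num) hN hb
      refine ⟨0, Submodule.zero_mem _, ?_⟩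
      rw [map_zero]
      rw [this, map_zero] at hbz
      exact hbz
    · obtain ⟨j, rfl⟩ : ∃ j, k = j + 1 := ⟨k - 1, by omega⟩
      have hb' : b ∈ Cn (j : ℤ) N := by
        have : ((j + 1 : ℕ) : ℤ) - 1 = j := by push_cast; ring
        rwa [this] at hb
      obtain ⟨a, ha, hab⟩ := step j b hb' (fun y hy => by rw [hbz', hz.1.1 y hy])
      refine ⟨b + del a, ⟨?_, ?_⟩, ?_⟩
      · intro y hy
        rw [LinearMap.add_apply, del_apply, hab y hy, F2.add_self]
      · intro m hm x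
        rw [LinearMap.add_apply, hb.2 m hm x, zero_add]
        have h2 := del_mem_Cn hN ha
        apply h2.2 m
        intro h; apply hm; rw [h]; push_cast; ring
      · rw [map_add, del_del, add_zero, hbz]
        rfl
  · intro a
    obtain ⟨z, hz, rfl⟩ := exists_cls a
    have hz' := hz
    rw [mem_Zn] at hz'
    obtain ⟨b, hb, hzb⟩ := step k z hz'.1 (fun y _ => by rw [← del_apply, hz'.2]; rfl)
    have hmem : z + del b ∈ Zn (k : ℤ) N'' := by
      rw [mem_Zn]
      refine ⟨⟨?_, ?_⟩, by rw [map_add, hz'.2, del_del, add_zero]⟩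
      · intro y hy
        rw [LinearMap.add_apply, del_apply, hzb y hy, F2.add_self]
      · intro m hm x
        rw [LinearMap.add_apply, hz'.1.2 m hm x, zero_add]
        have h2 := del_mem_Cn hN hb
        apply h2.2 m
        intro h; apply hm; rw [h]; ring
    refine ⟨cls _ hmem, ?_⟩
    rw [pullH_cls, cls_eq_iff, mem_Bn]
    refine ⟨b, hb, ?_⟩
    change del b = (z + del b) + z
    rw [add_comm z, add_assoc, add_self_eq_zero', add_zero]

end coh

end STop
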