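import Pool.Agent.Lib.P26f563.Coh

/-!
# Cup products of functionals on list chains and singular chains
-/

open Finsupp

namespace STop

section lists

variable {T T' : Type*}

/-- The cup product on lists: the sum over all splittings of the list at a shared vertex. -/
noncomputable def cup1 (c d : LC T →ₗ[F2] F2) : List T → F2
  | [] => 0
  | (a :: l) => c (single [a] 1) * d (single (a :: l) 1) + cup1 (c ∘ₗ cone a) d l

@[simp] theorem cup1_nil (c d : LC T →ₗ[F2] F2) : cup1 c d [] = 0 := rfl

theorem cup1_cons (c d : LC T →ₗ[F2] F2) (a : T) (l : List T) :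
    cup1 c d (a :: l) = c (single [a] 1) * d (single (a :: l) 1) + cup1 (c ∘ₗ cone a) d l := rfl

/-- The cup product of functionals. -/
noncomputable def cup (c d : LC T →ₗ[F2] F2) : LC T →ₗ[F2] F2 := lin (cup1 c d)

@[simp] theorem cup_single (c d : LC T →ₗ[F2] F2) (l : List T) :
    cup c d (single l 1) = cup1 c d l := lin_single _ _

theorem cup_cone (c d : LC T →ₗ[F2] F2) (a : T) (x : LC T) :
    cup c d (cone a x) = c (single [a] 1) * d (cone a x) + cup (c ∘ₗ cone a) d x := by
  have : (cup c d ∘ₗ cone a) =
      (c (single [a] 1)) • (d ∘ₗ cone a) + cup (c ∘ₗ cone a) d := by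
    apply lin_ext; intro l
    simp only [LinearMap.comp_apply, cone_single, LinearMap.add_apply, LinearMap.smul_apply,
      cup_single, smul_eq_mul]
    rw [cup1_cons]
  exact congrArg (fun g => g x) this

theorem cup1_add_left (c c' d : LC T →ₗ[F2] F2) (l : List T) :
    cup1 (c + c') d l = cup1 c d l + cup1 c' d l := by
  induction l generalizing c c' with
  | nil => simp
  | cons a l ih =>
    rw [cup1_cons, cup1_cons, cup1_cons, LinearMap.add_comp, ih, LinearMap.add_apply]
    ring

theorem cup1_add_right (c d d' : LC T →ₗ[F2] F2) (l : List T) :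
    cup1 c (d + d') l = cup1 c d l + cup1 c d' l := by
  induction l generalizing c with
  | nil => simp
  | cons a l ih =>
    rw [cup1_cons, cup1_cons, cup1_cons, ih, LinearMap.add_apply]
    ring

theorem cup1_smul_left (s : F2) (c d : LC T →ₗ[F2] F2) (l : List T) :
    cup1 (s • c) d l = s * cup1 c d l := by
  induction l generalizing c with
  | nil => simp
  | cons a l ih =>
    rw [cup1_cons, cup1_cons, LinearMap.smul_comp, ih, LinearMap.smul_apply, smul_eq_mul]
    ring

theorem cup_add_left (c c' d : LC T →ₗ[F2] F2) : cup (c + c') d = cup c d + cup c' d := by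
  apply lin_ext; intro l
  rw [LinearMap.add_apply, cup_single, cup_single, cup_single, cup1_add_left]

theorem cup_add_right (c d d' : LC T →ₗ[F2] F2) : cup c (d + d') = cup c d + cup c d' := by
  apply lin_ext; intro l
  rw [LinearMap.add_apply, cup_single, cup_single, cup_single, cup1_add_right]

theorem cup_smul_left (s : F2) (c d : LC T →ₗ[F2] F2) : cup (s • c) d = s • cup c d := by
  apply lin_ext; intro l
  rw [LinearMap.smul_apply, cup_single, cup_single, cup1_smul_left, smul_eq_mul]

theorem cup_zero_left (d : LC T →ₗ[F2] F2) : cup 0 d = 0 := by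
  have := cup_smul_left 0 0 d
  rwa [zero_smul, zero_smul] at this

theorem cup1_zero_left (d : LC T →ₗ[F2] F2) (l : List T) : cup1 0 d l = 0 := by
  rw [← cup_single, cup_zero_left]; rfl

/-- Leibniz formula, with the correction coming from the empty list. -/
theorem cup_bd (c d : LC T →ₗ[F2] F2) (x : LC T) :
    cup c d (bd x) = cup (c ∘ₗ bd) d x + cup c (d ∘ₗ bd) x + c (single [] 1) * d x +
      d (single [] 1) * c x := by
  have key : ∀ (l : List T) (c : LC T →ₗ[F2] F2), cup c d (bd1 l) =
      cup1 (c ∘ₗ bd) d l + cup1 c (d ∘ₗ bd) l + c (single [] 1) * d (single l 1) +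
      d (single [] 1) * c (single l 1) := by
    intro l
    induction l with
    | nil =>
      intro c
      rw [bd1_nil, map_zero, cup1_nil, cup1_nil, zero_add, zero_add, mul_comm,
        F2.add_self]
    | cons a l ih =>
      intro c
      have h1 : (c ∘ₗ bd) ∘ₗ cone a = c + (c ∘ₗ cone a) ∘ₗ bd := by
        apply lin_ext; intro q
        simp only [LinearMap.comp_apply, LinearMap.add_apply]
        rw [bd_cone, map_add]
      rw [bd1_cons, map_add, cup_cone, cup_single, ih, cup1_cons, cup1_cons, h1, cup1_add_left]
      simp only [LinearMap.comp_apply, bd_single, bd1_cons, bd1_nil, map_zero, add_zero, map_add,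
        cone_single]
      have e1 := F2.add_self (c (single [] 1) * d (single (a :: l) 1))
      linear_combination (-1 : F2) * e1
  have : (cup c d ∘ₗ bd : LC T →ₗ[F2] F2) = cup (c ∘ₗ bd) d + cup c (d ∘ₗ bd) +
      c (single [] 1) • d + d (single [] 1) • c := by
    apply lin_ext; intro l
    simp only [LinearMap.comp_apply, bd_single, LinearMap.add_apply, cup_single,
      LinearMap.smul_apply, smul_eq_mul]
    exact key l c
  exact congrArg (fun g => g x) this

theorem cup_assoc (c d e : LC T →ₗ[F2] F2) : cup (cup c d) e = cup c (cup d e) := by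
  apply lin_ext; intro l
  rw [cup_single, cup_single]
  induction l generalizing c d with
  | nil => simp
  | cons a l ih =>
    have h1 : cup c d ∘ₗ cone a = c (single [a] 1) • (d ∘ₗ cone a) + cup (c ∘ₗ cone a) d := by
      apply lin_ext; intro q
      rw [LinearMap.comp_apply, cup_cone]
      rfl
    rw [cup1_cons, cup1_cons, h1, cup1_add_left, cup1_smul_left, ih, cup_single, cup_single,
      cup1_cons, cup1_cons, cup1_nil, add_zero]
    ring

/-- The unit cochain: value one on lists with one entry. -/
noncomputable def oneL : LC T →ₗ[F2] F2 :=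
  lin fun l => if l.length = 1 then 1 else 0

theorem oneL_single (l : List T) :
    (oneL (single l 1) : F2) = if l.length = 1 then 1 else 0 := lin_single _ _

theorem one_cup1 (d : LC T →ₗ[F2] F2) (a : T) (l : List T) :
    cup1 oneL d (a :: l) = d (single (a :: l) 1) := by
  rw [cup1_cons, oneL_single]
  simp only [List.length_cons, List.length_nil, zero_add, if_true, one_mul]
  have h : ∀ (l : List T) (c : LC T →ₗ[F2] F2), (∀ q : List T, q ≠ [] → c (single q 1) = 0) →
      cup1 c d l = 0 := by
    intro l
    induction l with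
    | nil => intros; rfl
    | cons b l ih =>
      intro c hc
      rw [cup1_cons, hc [b] (by simp), zero_mul, zero_add]
      apply ih
      intro q _
      rw [LinearMap.comp_apply, cone_single]
      exact hc _ (by simp)
  rw [h, add_zero]
  intro q hq
  rw [LinearMap.comp_apply, cone_single, oneL_single, if_neg]
  simp only [List.length_cons]
  have := List.length_pos_iff.2 hq
  omega

theorem cup1_one (c : LC T →ₗ[F2] F2) (l : List T) (hl : l ≠ []) :
    cup1 c oneL l = c (single l 1) := by
  induction l generalizing c with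
  | nil => exact absurd rfl hl
  | cons a l ih =>
    rw [cup1_cons, oneL_single]
    by_cases h : l = []
    · subst h
      simp
    · rw [ih _ h, LinearMap.comp_apply, cone_single, if_neg, mul_zero, zero_add]
      simp only [List.length_cons]
      have := List.length_pos_iff.2 h
      omega

theorem cup1_mapL (f : T → T') (c d : LC T' →ₗ[F2] F2) (l : List T) :
    cup1 (c ∘ₗ mapL f) (d ∘ₗ mapL f) l = cup1 c d (l.map f) := by
  induction l generalizing c with
  | nil => simp
  | cons a l ih =>
    rw [List.map_cons, cup1_cons, cup1_cons, ← ih]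
    have h1 : (c ∘ₗ mapL f) ∘ₗ cone a = (c ∘ₗ cone (f a)) ∘ₗ mapL f := by
      apply lin_ext; intro q
      simp only [LinearMap.comp_apply]
      rw [mapL_cone]
    rw [h1]
    simp only [LinearMap.comp_apply, mapL_single, List.map_cons, List.map_nil]

theorem cup_mapL (f : T → T') (c d : LC T' →ₗ[F2] F2) (x : LC T) :
    cup (c ∘ₗ mapL f) (d ∘ₗ mapL f) x = cup c d (mapL f x) := by
  have : cup (c ∘ₗ mapL f) (d ∘ₗ mapL f) = cup c d ∘ₗ mapL f := by
    apply lin_ext; intro l
    rw [LinearMap.comp_apply, mapL_single, cup_single, cup_single, cup1_mapL]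
  exact congrArg (fun g => g x) this

/-- Degree: if `c` lives on lists of length `p + 1` and `d` on lists of length `q + 1` then the
product lives on lists of length `p + q + 1`. -/
theorem cup1_degree (p q : ℤ) (c d : LC T →ₗ[F2] F2)
    (hc : ∀ l : List T, (l.length : ℤ) ≠ p + 1 → c (single l 1) = 0)
    (hd : ∀ l : List T, (l.length : ℤ) ≠ q + 1 → d (single l 1) = 0)
    (l : List T) (hl : (l.length : ℤ) ≠ p + q + 1) : cup1 c d l = 0 := by
  induction l generalizing c p with
  | nil => rfl
  | cons a l ih =>
    rw [cup1_cons, ih (p - 1), add_zero]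
    · by_cases h : ([a].length : ℤ) = p + 1
      · rw [hd _ (by intro h2; apply hl; simp at h h2 ⊢; omega), mul_zero]
      · rw [hc _ h, zero_mul]
    · intro q hq
      rw [LinearMap.comp_apply, cone_single]
      apply hc
      simp only [List.length_cons]
      push_cast
      omega
    · simp only [List.length_cons] at hl
      push_cast at hl
      omega

/-- Locality: if `c` vanishes on all sublists of `l`... version for a family of lists closed
under tails and initial segments. -/
theorem cup1_zero_of_left (c d : LC T →ₗ[F2] F2) (l : List T)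
    (hc : ∀ k : List T, k <+: l → c (single k 1) = 0) : cup1 c d l = 0 := by
  induction l generalizing c with
  | nil => rfl
  | cons a l ih =>
    rw [cup1_cons, hc [a] (by simp), zero_mul, zero_add]
    apply ih
    intro k hk
    rw [LinearMap.comp_apply, cone_single]
    apply hc
    exact (List.prefix_cons_inj a).2 hk

theorem cup1_zero_of_right (c d : LC T →ₗ[F2] F2) (l : List T)
    (hd : ∀ k : List T, k <:+ l → d (single k 1) = 0) : cup1 c d l = 0 := by
  induction l generalizing c with
  | nil => rfl
  | cons a l ih =>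
    rw [cup1_cons, hd (a :: l) (List.suffix_refl _), mul_zero, zero_add]
    apply ih
    intro k hk
    exact hd k (hk.trans (List.suffix_cons a l))

/-! ### Reversal -/

/-- Reversal of lists. -/
noncomputable def rho : LC T →ₗ[F2] LC T := lin fun l => single l.reverse 1

@[simp] theorem rho_single (l : List T) : rho (single l 1) = single l.reverse 1 := lin_single _ _

/-- Appending an entry at the end. -/
noncomputable def snoc (b : T) : LC T →ₗ[F2] LC T := lin fun l => single (l ++ [b]) 1

@[simp] theorem snoc_single (b : T) (l : List T) :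
    snoc b (single l 1) = single (l ++ [b]) 1 := lin_single _ _

theorem cone_snoc (a b : T) (x : LC T) : cone a (snoc b x) = snoc b (cone a x) := by
  have : (cone a ∘ₗ snoc b : LC T →ₗ[F2] LC T) = snoc b ∘ₗ cone a := by
    apply lin_ext; intro l
    simp
  exact congrArg (fun g => g x) this

theorem rho_cone (a : T) (x : LC T) : rho (cone a x) = snoc a (rho x) := by
  have : (rho ∘ₗ cone a : LC T →ₗ[F2] LC T) = snoc a ∘ₗ rho := by
    apply lin_ext; intro l
    simp
  exact congrArg (fun g => g x) this

theorem bd1_snoc (b : T) (l : List T) : bd1 (l ++ [b]) = single l 1 + snoc b (bd1 l) := by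
  induction l with
  | nil => simp
  | cons a l ih =>
    rw [List.cons_append, bd1_cons, ih, map_add, cone_single, bd1_cons, map_add, snoc_single,
      cone_snoc]
    abel

theorem rho_bd1 (l : List T) : rho (bd1 l) = bd1 l.reverse := by
  induction l with
  | nil => simp
  | cons a l ih =>
    rw [bd1_cons, map_add, rho_single, rho_cone, ih, List.reverse_cons, bd1_snoc]

theorem rho_bd (x : LC T) : rho (bd x) = bd (rho x) := by
  have : (rho ∘ₗ bd : LC T →ₗ[F2] LC T) = bd ∘ₗ rho := by
    apply lin_ext; intro l
    rw [LinearMap.comp_apply, LinearMap.comp_apply, bd_single, rho_single, bd_single, rho_bd1]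
  exact congrArg (fun g => g x) this

theorem rho_mapL (f : T → T') (x : LC T) : rho (mapL f x) = mapL f (rho x) := by
  have : (rho ∘ₗ mapL f) = mapL f ∘ₗ rho := by
    apply lin_ext; intro l
    simp
  exact congrArg (fun g => g x) this

theorem rho_rho (x : LC T) : rho (rho x) = x := by
  have : (rho ∘ₗ rho : LC T →ₗ[F2] LC T) = LinearMap.id := by
    apply lin_ext; intro l
    simp
  exact congrArg (fun g => g x) this

theorem cup1_snoc (c d : LC T →ₗ[F2] F2) (l : List T) (b : T) :
    cup1 c d (l ++ [b]) = cup1 c (d ∘ₗ snoc b) l +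
      c (single (l ++ [b]) 1) * d (single [b] 1) := by
  induction l generalizing c with
  | nil =>
    rw [List.nil_append, cup1_cons, cup1_nil, cup1_nil, add_zero, zero_add]
  | cons a l ih =>
    rw [List.cons_append, cup1_cons, cup1_cons, ih]
    simp only [LinearMap.comp_apply, snoc_single, cone_single, List.cons_append]
    ring

/-- Reversal exchanges the factors. -/
theorem cup1_reverse (c d : LC T →ₗ[F2] F2) (l : List T) :
    cup1 c d l.reverse = cup1 (d ∘ₗ rho) (c ∘ₗ rho) l := by
  induction l generalizing d with
  | nil => simp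
  | cons a l ih =>
    have h1 : (d ∘ₗ rho) ∘ₗ cone a = (d ∘ₗ snoc a) ∘ₗ rho := by
      apply lin_ext; intro q
      simp only [LinearMap.comp_apply]
      rw [rho_cone]
    rw [List.reverse_cons, cup1_snoc, ih, cup1_cons, h1]
    simp only [LinearMap.comp_apply, rho_single, List.reverse_cons, List.reverse_nil,
      List.nil_append]
    ring

theorem cup_rho (c d : LC T →ₗ[F2] F2) (x : LC T) :
    cup c d (rho x) = cup (d ∘ₗ rho) (c ∘ₗ rho) x := by
  have : cup c d ∘ₗ rho = cup (d ∘ₗ rho) (c ∘ₗ rho) := by
    apply lin_ext; intro l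
    rw [LinearMap.comp_apply, rho_single, cup_single, cup_single, cup1_reverse]
  exact congrArg (fun g => g x) this

/-- Homotopy between reversal and the identity. -/
noncomputable def rv1 : List T → LC T
  | [] => 0
  | (a :: l) => cone a (single (a :: l).reverse 1) + cone a (rv1 l)

/-- Homotopy between reversal and the identity. -/
noncomputable def rv : LC T →ₗ[F2] LC T := lin rv1

@[simp] theorem rv_single (l : List T) : rv (single l 1) = rv1 l := lin_single _ _

theorem rv_cone (a : T) (x : LC T) :
    rv (cone a x) = cone a (rho (cone a x)) + cone a (rv x) := by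
  have : (rv ∘ₗ cone a : LC T →ₗ[F2] LC T) = cone a ∘ₗ rho ∘ₗ cone a + cone a ∘ₗ rv := by
    apply lin_ext; intro l
    simp [rv1]
  exact congrArg (fun g => g x) this

theorem rv_mapL (f : T → T') (x : LC T) : rv (mapL f x) = mapL f (rv x) := by
  have : (rv ∘ₗ mapL f) = mapL f ∘ₗ rv := by
    apply lin_ext; intro l
    simp only [LinearMap.comp_apply, mapL_single, rv_single]
    induction l with
    | nil => simp [rv1]
    | cons a l ih =>
      rw [List.map_cons, rv1, rv1, map_add, mapL_cone, mapL_cone, ih, mapL_single]
      simp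
  exact congrArg (fun g => g x) this

theorem bd_rv1 (l : List T) : bd (rv1 l) + rv (bd1 l) = single l 1 + rho (single l 1) := by
  induction l with
  | nil =>
    simp only [rv1, bd1_nil, map_zero, add_zero, rho_single, List.reverse_nil]
    exact (add_self_eq_zero' _).symm
  | cons a l ih =>
    have e1 : bd (rv1 l) = rv (bd1 l) + (single l 1 + rho (single l 1)) := by
      rw [← ih, add_comm (bd (rv1 l)), ← add_assoc, add_self_eq_zero', zero_add]
    rw [rv1, map_add, bd_cone, bd_cone, bd1_cons, map_add, rv_single, rv_cone, e1, ← rho_single,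
      ← rho_bd, bd_single, bd1_cons, map_add, map_add, map_add, map_add, cone_single]
    generalize cone a (rv (bd1 l)) = A
    generalize cone a (rho (cone a (bd1 l))) = B
    generalize cone a (rho (single l 1)) = C
    generalize rho (single (a :: l) (1 : F2)) = D
    generalize rv1 l = E
    generalize single (a :: l) (1 : F2) = F
    have hA := add_self_eq_zero' A
    have hB := add_self_eq_zero' B
    have hC := add_self_eq_zero' C
    have hE := add_self_eq_zero' E
    calc D + (C + B) + (E + (A + (F + C))) + (E + (B + A))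
        = F + D + ((A + A) + (B + B) + (C + C) + (E + E)) := by abel
      _ = F + D := by rw [hA, hB, hC, hE]; simp

theorem bd_rv (x : LC T) : bd (rv x) + rv (bd x) = x + rho x := by
  have : (bd ∘ₗ rv + rv ∘ₗ bd : LC T →ₗ[F2] LC T) = LinearMap.id + rho := by
    apply lin_ext; intro l
    simp only [LinearMap.add_apply, LinearMap.comp_apply, rv_single, bd_single,
      LinearMap.id_apply]
    exact bd_rv1 l
  exact congrArg (fun g => g x) this

theorem rv1_len (l : List T) : rv1 l ∈ supp fun q : List T => q.length = l.length + 1 := by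
  induction l with
  | nil => exact Submodule.zero_mem _
  | cons a l ih =>
    rw [rv1]
    apply Submodule.add_mem
    · rw [cone_single]
      exact single_mem_supp (P := fun q : List T => q.length = (a :: l).length + 1) (by simp)
    · refine supp_induction _ (cone a) ?_ ih
      intro q hq
      rw [cone_single]
      exact single_mem_supp (P := fun q : List T => q.length = (a :: l).length + 1)
        (by simp [hq])

end lists

/-- Reversal as a natural operator. -/
noncomputable def rhoOp : NatOp where
  op _ := rho
  nat f x := rho_mapL f x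

/-- The homotopy as a natural operator. -/
noncomputable def rvOp : NatOp where
  op _ := rv
  nat f x := rv_mapL f x

section singular

variable {X Y : Type*} [TopologicalSpace X] [TopologicalSpace Y]

/-- Reversal of singular simplices. -/
noncomputable def rhoS : SC X →ₗ[F2] SC X := rhoOp.lift

/-- Homotopy from reversal to the identity. -/
noncomputable def rvS : SC X →ₗ[F2] SC X := rvOp.lift

theorem bdS_rvS (x : SC X) : bdS (rvS x) + rvS (bdS x) = x + rhoS x := by
  have := NatOp.homotopy_lift (X := X) rvOp idOp rhoOp (by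
    intro T l
    exact bd_rv (single l 1)) x
  rw [idOp_lift] at this
  exact this

/-- The cup product of functionals on singular chains. -/
noncomputable def cupS (c d : SC X →ₗ[F2] F2) : SC X →ₗ[F2] F2 :=
  lin fun σ => cup (c ∘ₗ realL σ) (d ∘ₗ realL σ) (STop.univ σ.nv)

theorem cupS_single (c d : SC X →ₗ[F2] F2) (σ : Sing X) :
    cupS c d (single σ 1) = cup (c ∘ₗ realL σ) (d ∘ₗ realL σ) (STop.univ σ.nv) := lin_single _ _

theorem cupS_realL (c d : SC X →ₗ[F2] F2) (σ : Sing X) (x : LC (Fin σ.nv)) :
    cupS c d (realL σ x) = cup (c ∘ₗ realL σ) (d ∘ₗ realL σ) x := by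
  have : (cupS c d ∘ₗ realL σ) = cup (c ∘ₗ realL σ) (d ∘ₗ realL σ) := by
    apply lin_ext; intro l
    have h1 : ∀ c : SC X →ₗ[F2] F2, c ∘ₗ realL (σ.sub l) = (c ∘ₗ realL σ) ∘ₗ mapL l.get := by
      intro c
      apply LinearMap.ext; intro q
      simp only [LinearMap.comp_apply]
      rw [realL_sub]
    rw [LinearMap.comp_apply, realL_single, cupS_single, h1, h1, cup_mapL, mapL_get_univ]
  exact congrArg (fun g => g x) this

theorem cupS_add_left (c c' d : SC X →ₗ[F2] F2) : cupS (c + c') d = cupS c d + cupS c' d := by
  apply lin_ext; intro σ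
  rw [LinearMap.add_apply, cupS_single, cupS_single, cupS_single, LinearMap.add_comp,
    cup_add_left, LinearMap.add_apply]

theorem cupS_add_right (c d d' : SC X →ₗ[F2] F2) : cupS c (d + d') = cupS c d + cupS c d' := by
  apply lin_ext; intro σ
  rw [LinearMap.add_apply, cupS_single, cupS_single, cupS_single, LinearMap.add_comp,
    cup_add_right, LinearMap.add_apply]

theorem cupS_push (f : C(X, Y)) (c d : SC Y →ₗ[F2] F2) :
    cupS (c ∘ₗ push f) (d ∘ₗ push f) = cupS c d ∘ₗ push f := by
  apply lin_ext; intro σ
  have h1 : ∀ c : SC Y →ₗ[F2] F2, (c ∘ₗ push f) ∘ₗ realL σ = c ∘ₗ realL (σ.push f) := by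
    intro c
    apply LinearMap.ext; intro q
    simp only [LinearMap.comp_apply]
    rw [push_realL]
  rw [LinearMap.comp_apply, push_single, cupS_single, cupS_single, h1, h1]

theorem cupS_assoc (c d e : SC X →ₗ[F2] F2) : cupS (cupS c d) e = cupS c (cupS d e) := by
  apply lin_ext; intro σ
  have h1 : ∀ c d : SC X →ₗ[F2] F2,
      cupS c d ∘ₗ realL σ = cup (c ∘ₗ realL σ) (d ∘ₗ realL σ) := by
    intro c d
    apply LinearMap.ext; intro q
    rw [LinearMap.comp_apply, cupS_realL]
  rw [cupS_single, cupS_single, h1, h1, cup_assoc]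

/-- Functionals vanishing on the empty simplices. -/
def Red (c : SC X →ₗ[F2] F2) : Prop := ∀ σ : Sing X, σ.nv = 0 → c (single σ 1) = 0

theorem cupS_bdS {c d : SC X →ₗ[F2] F2} (hc : Red c) (hd : Red d) :
    cupS c d ∘ₗ bdS = cupS (c ∘ₗ bdS) d + cupS c (d ∘ₗ bdS) := by
  apply lin_ext; intro σ
  have h1 : ∀ c : SC X →ₗ[F2] F2, (c ∘ₗ bdS) ∘ₗ realL σ = (c ∘ₗ realL σ) ∘ₗ bd := by
    intro c
    apply LinearMap.ext; intro q
    simp only [LinearMap.comp_apply]
    rw [bdS_realL]
  rw [LinearMap.comp_apply, bdS_single, cupS_realL, cup_bd, LinearMap.add_apply, cupS_single,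
    cupS_single, h1, h1]
  have h2 : (c ∘ₗ realL σ) (single [] 1) = 0 := by
    rw [LinearMap.comp_apply, realL_single]
    exact hc _ rfl
  have h3 : (d ∘ₗ realL σ) (single [] 1) = 0 := by
    rw [LinearMap.comp_apply, realL_single]
    exact hd _ rfl
  rw [h2, h3, zero_mul, zero_mul, add_zero, add_zero]

/-- The unit cochain. -/
noncomputable def oneS : SC X →ₗ[F2] F2 := lin fun σ => if σ.nv = 1 then 1 else 0

theorem oneS_single (σ : Sing X) :
    (oneS (single σ 1) : F2) = if σ.nv = 1 then 1 else 0 := lin_single _ _

theorem oneS_realL (σ : Sing X) : oneS ∘ₗ realL σ = (oneL : LC (Fin σ.nv) →ₗ[F2] F2) := by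
  apply lin_ext; intro l
  rw [LinearMap.comp_apply, realL_single, oneS_single, oneL_single]

theorem one_cupS {d : SC X →ₗ[F2] F2} (hd : Red d) : cupS oneS d = d := by
  apply lin_ext; intro σ
  rw [cupS_single, oneS_realL, STop.univ, cup_single]
  rcases hl : List.finRange σ.nv with _ | ⟨a, l⟩
  · have : σ.nv = 0 := by
      have := congrArg List.length hl
      simpa using this
    rw [cup1_nil, hd σ this]
  · rw [one_cup1, ← hl, LinearMap.comp_apply]
    congr 1
    exact realL_univ σ

theorem cupS_one {c : SC X →ₗ[F2] F2} (hc : Red c) : cupS c oneS = c := by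
  apply lin_ext; intro σ
  rw [cupS_single, oneS_realL, STop.univ, cup_single]
  by_cases hl : List.finRange σ.nv = []
  · have : σ.nv = 0 := by
      have := congrArg List.length hl
      simpa using this
    rw [hl, cup1_nil, hc σ this]
  · rw [cup1_one _ _ hl, LinearMap.comp_apply]
    congr 1
    exact realL_univ σ

theorem cupS_rhoS (c d : SC X →ₗ[F2] F2) :
    cupS c d ∘ₗ rhoS = cupS (d ∘ₗ rhoS) (c ∘ₗ rhoS) := by
  apply lin_ext; intro σ
  have h1 : ∀ c : SC X →ₗ[F2] F2, (c ∘ₗ rhoS) ∘ₗ realL σ = (c ∘ₗ realL σ) ∘ₗ rho := by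
    intro c
    apply LinearMap.ext; intro q
    simp only [LinearMap.comp_apply]
    rw [rhoS, NatOp.lift_realL]
    rfl
  have h2 : rhoS (single σ 1) = realL σ (rho (STop.univ σ.nv)) := NatOp.lift_single _ _
  rw [LinearMap.comp_apply, h2, cupS_realL, cup_rho, cupS_single, h1, h1]

theorem cupS_degree {p q : ℤ} {c d : SC X →ₗ[F2] F2}
    (hc : ∀ σ : Sing X, (σ.nv : ℤ) ≠ p + 1 → c (single σ 1) = 0)
    (hd : ∀ σ : Sing X, (σ.nv : ℤ) ≠ q + 1 → d (single σ 1) = 0)
    (σ : Sing X) (hσ : (σ.nv : ℤ) ≠ p + q + 1) : cupS c d (single σ 1) = 0 := by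
  rw [cupS_single, STop.univ, cup_single]
  apply cup1_degree p q
  · intro l hl
    rw [LinearMap.comp_apply, realL_single]
    exact hc _ hl
  · intro l hl
    rw [LinearMap.comp_apply, realL_single]
    exact hd _ hl
  · simpa using hσ

theorem cupS_zero_of_left {c d : SC X →ₗ[F2] F2} {σ : Sing X}
    (hc : ∀ l, c (single (σ.sub l) 1) = 0) : cupS c d (single σ 1) = 0 := by
  rw [cupS_single, STop.univ, cup_single]
  apply cup1_zero_of_left
  intro k _
  rw [LinearMap.comp_apply, realL_single]
  exact hc k

theorem cupS_zero_of_right {c d : SC X →ₗ[F2] F2} {σ : Sing X}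
    (hd : ∀ l, d (single (σ.sub l) 1) = 0) : cupS c d (single σ 1) = 0 := by
  rw [cupS_single, STop.univ, cup_single]
  apply cup1_zero_of_right
  intro k _
  rw [LinearMap.comp_apply, realL_single]
  exact hd k

end singular

end STop
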