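import Mathlib

/-!
# Definitions: G-spaces, multiplicative equivariant cohomology theories, topological complexity

`G` is a topological group.  A G-space is a space with a continuous action of `G`.  A G-pair
`(X, A)` is a G-space `X` with an invariant subset `A`.

`MultCohomology G` is the type of (integer graded) multiplicative equivariant cohomology theories:
contravariant functors on G-pairs which are G-homotopy invariant, have natural connecting
homomorphisms, satisfy exactness, excision and additivity, and carry natural, associative, unital,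
graded-commutative products `h (X, A) ⊗ h (X, B) → h (X, A ∪ B)` (for excisive pairs of invariant
subsets) compatible with the connecting homomorphism.
-/

namespace EqTC

/-- A space with a continuous action of `G`. -/
structure GSpace (G : Type) [Group G] [TopologicalSpace G] where
  /-- the underlying type -/
  carrier : Type
  [top : TopologicalSpace carrier]
  [act : MulAction G carrier]
  [cont : ContinuousSMul G carrier]

attribute [instance] GSpace.top GSpace.act GSpace.cont

section

variable {G : Type} [Group G] [TopologicalSpace G]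

instance : CoeSort (GSpace G) Type := ⟨GSpace.carrier⟩

/-- A continuous equivariant map. -/
structure GMap (X Y : GSpace G) where
  /-- the underlying continuous map -/
  map : C(X, Y)
  equi : ∀ (g : G) (x : X), map (g • x) = g • map x

/-- The identity. -/
def GMap.id (X : GSpace G) : GMap X X := ⟨ContinuousMap.id X, fun _ _ => rfl⟩

/-- Composition. -/
def GMap.comp {X Y Z : GSpace G} (g : GMap Y Z) (f : GMap X Y) : GMap X Z :=
  ⟨g.map.comp f.map, fun a x => by
    rw [ContinuousMap.comp_apply, f.equi, g.equi, ContinuousMap.comp_apply]⟩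

/-- An invariant subset of a G-space. -/
structure GSub (X : GSpace G) where
  /-- the underlying set -/
  set : Set X
  inv : ∀ (g : G) (x : X), x ∈ set → g • x ∈ set

/-- The empty subset. -/
def GSub.empty (X : GSpace G) : GSub X := ⟨∅, fun _ _ h => h⟩

/-- The complement. -/
def GSub.compl {X : GSpace G} (A : GSub X) : GSub X :=
  ⟨A.setᶜ, fun g x hx h => hx (by
    have := A.inv g⁻¹ _ h
    rwa [inv_smul_smul] at this)⟩

/-- The preimage of an invariant subset. -/
def GSub.preimage {X Y : GSpace G} (A : GSub Y) (f : GMap X Y) : GSub X :=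
  ⟨f.map ⁻¹' A.set, fun g x hx => by
    rw [Set.mem_preimage, f.equi]
    exact A.inv g _ hx⟩

/-- `f` maps `A` to `B`. -/
def GMap.Maps {X Y : GSpace G} (f : GMap X Y) (A : GSub X) (B : GSub Y) : Prop :=
  ∀ x ∈ A.set, f.map x ∈ B.set

theorem GSub.maps_empty {X Y : GSpace G} (f : GMap X Y) (B : GSub Y) :
    f.Maps (GSub.empty X) B := fun _ h => False.elim h

/-- The relative interiors of `A` and `B` cover `A ∪ B`: for every point `x` of `A ∪ B`, one of
`A`, `B` is a neighbourhood of `x` in `A ∪ B`.  For instance, `A` and `B` open, or `B` empty. -/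
def GSub.Excisive {X : GSpace G} (A B : GSub X) : Prop :=
  ∀ x ∈ A.set ∪ B.set, A.set ∈ nhdsWithin x (A.set ∪ B.set) ∨ B.set ∈ nhdsWithin x (A.set ∪ B.set)

/-- `C` is contained in `A ∪ B`. -/
def GSub.Within {X : GSpace G} (C A B : GSub X) : Prop := C.set ⊆ A.set ∪ B.set

/-- `C` equals `A ∪ B`. -/
def GSub.IsUnion {X : GSpace G} (C A B : GSub X) : Prop := C.set = A.set ∪ B.set

theorem GSub.IsUnion.within {X : GSpace G} {C A B : GSub X} (h : C.IsUnion A B) :
    C.Within A B := Eq.subset (show C.set = A.set ∪ B.set from h)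

theorem GSub.excisive_empty (X : GSpace G) : (GSub.empty X).Excisive (GSub.empty X) := by
  rintro x (h | h) <;> exact False.elim h

theorem GSub.within_empty (X : GSpace G) : (GSub.empty X).Within (GSub.empty X) (GSub.empty X) :=
  fun _ h => False.elim h

/-- The action on an invariant subset. -/
@[reducible] def GSub.mulAction {X : GSpace G} (A : GSub X) : MulAction G A.set where
  smul g x := ⟨g • x.1, A.inv g _ x.2⟩
  one_smul x := Subtype.ext (one_smul G x.1)
  mul_smul g h x := Subtype.ext (mul_smul g h x.1)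

/-- An invariant subset is a G-space. -/
def GSub.toSpace {X : GSpace G} (A : GSub X) : GSpace G where
  carrier := A.set
  top := inferInstance
  act := A.mulAction
  cont := by
    let _ := A.mulAction
    exact ⟨((continuous_smul (M := G) (X := X)).comp
      (continuous_fst.prodMk (continuous_subtype_val.comp continuous_snd))).subtype_mk _⟩

/-- The inclusion of an invariant subset. -/
def GSub.incl {X : GSpace G} (A : GSub X) : GMap A.toSpace X :=
  ⟨⟨Subtype.val, continuous_subtype_val⟩, fun _ _ => rfl⟩

/-- The restriction of a map to invariant subsets. -/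
def GMap.restrict {X Y : GSpace G} (f : GMap X Y) {A : GSub X} {B : GSub Y}
    (h : ∀ x ∈ A.set, f.map x ∈ B.set) : GMap A.toSpace B.toSpace :=
  ⟨⟨fun x => ⟨f.map x.1, h x.1 x.2⟩,
    (f.map.continuous.comp continuous_subtype_val).subtype_mk _⟩,
    fun g x => Subtype.ext (f.equi g x.1)⟩

/-- The disjoint union of G-spaces. -/
def GSpace.sigma {ι : Type} (X : ι → GSpace G) : GSpace G where
  carrier := Σ i, (X i).carrier
  top := inferInstance
  act := inferInstance
  cont := ⟨by
    have h : ∀ i, Continuous fun p : G × X i => (⟨i, p.1 • p.2⟩ : Σ i, (X i).carrier) :=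
      fun i => continuous_sigmaMk.comp continuous_smul
    rw [continuous_iff_continuousAt]
    rintro ⟨g, ⟨i, x⟩⟩
    have h1 : Topology.IsOpenEmbedding (fun x : G => x) := Topology.IsOpenEmbedding.id
    have h2 : Topology.IsOpenEmbedding (fun x : X i => (⟨i, x⟩ : Σ i, (X i).carrier)) :=
      Topology.IsOpenEmbedding.sigmaMk (σ := fun j => (X j).carrier)
    have hopen := h1.prodMap h2
    exact (hopen.continuousAt_iff (x := (g, x))).1 ((h i).continuousAt)⟩

/-- The inclusion of a summand. -/
def GSpace.sigmaMk {ι : Type} (X : ι → GSpace G) (i : ι) : GMap (X i) (GSpace.sigma X) :=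
  ⟨⟨fun x => (⟨i, x⟩ : Σ i, (X i).carrier),
    continuous_sigmaMk (σ := fun i => (X i).carrier) (i := i)⟩, fun _ _ => rfl⟩

/-- The product with the diagonal action. -/
def GSpace.prod (X Y : GSpace G) : GSpace G where
  carrier := X × Y
  top := inferInstance
  act := inferInstance
  cont := inferInstance

/-- The diagonal. -/
def GSpace.diag (X : GSpace G) : GMap X (X.prod X) :=
  ⟨⟨fun x => (x, x), continuous_id.prodMk continuous_id⟩, fun _ _ => rfl⟩

end

/-- The data of a multiplicative `G`-equivariant cohomology theory: the groups `h^n (X, A)`,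
induced maps, connecting maps, relative cup products and units. -/
structure CohData (G : Type) [Group G] [TopologicalSpace G] where
  /-- the groups `h^n (X, A)` -/
  H : ℤ → (X : GSpace G) → GSub X → Type
  [grp : ∀ n X A, AddCommGroup (H n X A)]
  /-- the induced map `f^* : h^n (Y, B) → h^n (X, A)` -/
  pull : ∀ {n : ℤ} {X Y : GSpace G} {A : GSub X} {B : GSub Y} (f : GMap X Y), f.Maps A B →
    H n Y B → H n X A
  /-- the connecting map `h^n (A) → h^(n+1) (X, A)` -/
  conn : ∀ {n : ℤ} {X : GSpace G} (A : GSub X),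
    H n A.toSpace (GSub.empty A.toSpace) → H (n + 1) X A
  /-- cup products `h^p (X, A) × h^q (X, B) → h^(p+q) (X, A ∪ B) → h^(p+q) (X, C)` -/
  cup : ∀ {p q r : ℤ}, p + q = r → ∀ {X : GSpace G} {A B C : GSub X},
    A.Excisive B → C.Within A B → H p X A → H q X B → H r X C
  /-- the unit -/
  one : ∀ X : GSpace G, H 0 X (GSub.empty X)

attribute [instance] CohData.grp

section

variable {G : Type} [Group G] [TopologicalSpace G] (D : CohData G)

/-- `f^*` is additive. -/
def CohData.PullAdd : Prop :=
  ∀ {n : ℤ} {X Y : GSpace G} {A : GSub X} {B : GSub Y} (f : GMap X Y) (h : f.Maps A B)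
    (x y : D.H n Y B), D.pull f h (x + y) = D.pull f h x + D.pull f h y

/-- `id^* = id`. -/
def CohData.PullId : Prop :=
  ∀ {n : ℤ} {X : GSpace G} {A : GSub X} (h : (GMap.id X).Maps A A) (x : D.H n X A),
    D.pull (GMap.id X) h x = x

/-- `(g f)^* = f^* g^*`. -/
def CohData.PullComp : Prop :=
  ∀ {n : ℤ} {X Y Z : GSpace G} {A : GSub X} {B : GSub Y} {C : GSub Z}
    (f : GMap X Y) (g : GMap Y Z) (hf : f.Maps A B) (hg : g.Maps B C)
    (hgf : (g.comp f).Maps A C) (z : D.H n Z C),
    D.pull (g.comp f) hgf z = D.pull f hf (D.pull g hg z)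

/-- Maps of pairs which are homotopic through equivariant maps of pairs induce the same map. -/
def CohData.PullHomotopy : Prop :=
  ∀ {n : ℤ} {X Y : GSpace G} {A : GSub X} {B : GSub Y} (f₀ f₁ : GMap X Y)
    (h₀ : f₀.Maps A B) (h₁ : f₁.Maps A B)
    (F : C(X × unitInterval, Y)) (_ : ∀ (g : G) (x : X) (t : unitInterval),
      F (g • x, t) = g • F (x, t)) (_ : ∀ x ∈ A.set, ∀ t, F (x, t) ∈ B.set)
    (_ : ∀ x, F (x, 0) = f₀.map x) (_ : ∀ x, F (x, 1) = f₁.map x) (y : D.H n Y B),
    D.pull f₀ h₀ y = D.pull f₁ h₁ y

/-- The connecting map is additive. -/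
def CohData.ConnAdd : Prop :=
  ∀ {n : ℤ} {X : GSpace G} (A : GSub X) (x y : D.H n A.toSpace (GSub.empty A.toSpace)),
    D.conn A (x + y) = D.conn A x + D.conn A y

/-- The connecting map is natural. -/
def CohData.PullConn : Prop :=
  ∀ {n : ℤ} {X Y : GSpace G} {A : GSub X} {B : GSub Y} (f : GMap X Y)
    (hf : f.Maps A B) (y : D.H n B.toSpace (GSub.empty B.toSpace)),
    D.pull f hf (D.conn B y) = D.conn A (D.pull (f.restrict hf) (GSub.maps_empty _ _) y)

/-- Exactness of `h^n (X, A) → h^n (X) → h^n (A)`. -/
def CohData.ExactSpace : Prop :=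
  ∀ {n : ℤ} {X : GSpace G} (A : GSub X) (x : D.H n X (GSub.empty X)),
    D.pull A.incl (A := GSub.empty A.toSpace) (GSub.maps_empty _ _) x = 0 ↔
      ∃ y : D.H n X A, D.pull (GMap.id X) (GSub.maps_empty _ _) y = x

/-- Exactness of `h^n (X) → h^n (A) → h^(n+1) (X, A)`. -/
def CohData.ExactSub : Prop :=
  ∀ {n : ℤ} {X : GSpace G} (A : GSub X) (x : D.H n A.toSpace (GSub.empty A.toSpace)),
    D.conn A x = 0 ↔ ∃ y : D.H n X (GSub.empty X), D.pull A.incl (GSub.maps_empty _ _) y = x

/-- Exactness of `h^n (A) → h^(n+1) (X, A) → h^(n+1) (X)`. -/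
def CohData.ExactPair : Prop :=
  ∀ {n : ℤ} {X : GSpace G} (A : GSub X) (x : D.H (n + 1) X A),
    D.pull (GMap.id X) (A := GSub.empty X) (GSub.maps_empty _ _) x = 0 ↔
      ∃ y : D.H n A.toSpace (GSub.empty A.toSpace), D.conn A y = x

/-- Excision: `h^n (X, A) → h^n (X ∖ U, A ∖ U)` is bijective if the closure of `U` is in the
interior of `A`. -/
def CohData.Excision : Prop :=
  ∀ {n : ℤ} {X : GSpace G} (A U : GSub X), closure U.set ⊆ interior A.set →
    Function.Bijective (fun x : D.H n X A =>
      D.pull U.compl.incl (A := A.preimage U.compl.incl) (fun _ h => h) x)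

/-- Additivity: the cohomology of a disjoint union is the product of the cohomologies. -/
def CohData.Additivity : Prop :=
  ∀ {n : ℤ} {ι : Type} (X : ι → GSpace G) (A : GSub (GSpace.sigma X)),
    Function.Bijective (fun (x : D.H n (GSpace.sigma X) A) (i : ι) =>
      D.pull (GSpace.sigmaMk X i) (A := A.preimage (GSpace.sigmaMk X i)) (fun _ h => h) x)

/-- Cup products are additive in the first variable. -/
def CohData.CupAddLeft : Prop :=
  ∀ {p q r : ℤ} (h : p + q = r) {X : GSpace G} {A B C : GSub X} (e : A.Excisive B)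
    (s : C.Within A B) (x x' : D.H p X A) (y : D.H q X B),
    D.cup h e s (x + x') y = D.cup h e s x y + D.cup h e s x' y

/-- Cup products are natural. -/
def CohData.PullCup : Prop :=
  ∀ {p q r : ℤ} (h : p + q = r) {X Y : GSpace G} {A B C : GSub X} {A' B' C' : GSub Y}
    (f : GMap X Y) (hA : f.Maps A A') (hB : f.Maps B B') (hC : f.Maps C C')
    (e : A.Excisive B) (e' : A'.Excisive B') (s : C.Within A B) (s' : C'.Within A' B')
    (x : D.H p Y A') (y : D.H q Y B'),
    D.pull f hC (D.cup h e' s' x y) = D.cup h e s (D.pull f hA x) (D.pull f hB y)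

/-- Cup products are associative. -/
def CohData.CupAssoc : Prop :=
  ∀ {p q r s t u : ℤ} (h₁ : p + q = s) (h₂ : s + r = u) (h₃ : q + r = t)
    (h₄ : p + t = u) {X : GSpace G} {A B C S T U : GSub X}
    (hS : S.IsUnion A B) (hT : T.IsUnion B C)
    (e₁ : A.Excisive B) (e₂ : S.Excisive C) (e₃ : B.Excisive C) (e₄ : A.Excisive T)
    (s₂ : U.Within S C) (s₄ : U.Within A T)
    (x : D.H p X A) (y : D.H q X B) (z : D.H r X C),
    D.cup h₂ e₂ s₂ (D.cup h₁ e₁ hS.within x y) z = D.cup h₄ e₄ s₄ x (D.cup h₃ e₃ hT.within y z)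

/-- Cup products are graded commutative. -/
def CohData.CupComm : Prop :=
  ∀ {p q r : ℤ} (h : p + q = r) (h' : q + p = r) {X : GSpace G} {A B C : GSub X}
    (e : A.Excisive B) (e' : B.Excisive A) (s : C.Within A B) (s' : C.Within B A)
    (x : D.H p X A) (y : D.H q X B),
    D.cup h e s x y = (p * q).negOnePow • D.cup h' e' s' y x

/-- The unit is natural. -/
def CohData.PullOne : Prop :=
  ∀ {X Y : GSpace G} (f : GMap X Y), D.pull f (GSub.maps_empty _ _) (D.one Y) = D.one X

/-- The unit is a left unit. -/
def CohData.OneCup : Prop :=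
  ∀ {q : ℤ} (h : 0 + q = q) {X : GSpace G} {A : GSub X} (e : (GSub.empty X).Excisive A)
    (s : A.Within (GSub.empty X) A) (x : D.H q X A), D.cup h e s (D.one X) x = x

/-- The product of two absolute classes. -/
def CohData.mul {p q r : ℤ} (hpq : p + q = r) {X : GSpace G}
    (x : D.H p X (GSub.empty X)) (y : D.H q X (GSub.empty X)) : D.H r X (GSub.empty X) :=
  D.cup hpq (GSub.excisive_empty X) (GSub.within_empty X) x y

/-- `δ (x ∪ i^* y) = δ x ∪ y` for `x ∈ h^p (A)`, `y ∈ h^q (X)`. -/
def CohData.ConnCup : Prop :=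
  ∀ {p q r : ℤ} (h : p + q = r) (h' : (p + 1) + q = r + 1) {X : GSpace G}
    (A : GSub X) (e : A.Excisive (GSub.empty X)) (s : A.Within A (GSub.empty X))
    (x : D.H p A.toSpace (GSub.empty A.toSpace)) (y : D.H q X (GSub.empty X)),
    D.conn A (D.mul h x (D.pull A.incl (GSub.maps_empty _ _) y)) = D.cup h' e s (D.conn A x) y

end

/-- Multiplicative `G`-equivariant cohomology theories.  (Additivity of the product in the second
variable and the right unit law follow from graded commutativity.) -/
structure MultCohomology (G : Type) [Group G] [TopologicalSpace G] extends CohData G where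
  pull_add : toCohData.PullAdd
  pull_id : toCohData.PullId
  pull_comp : toCohData.PullComp
  pull_homotopy : toCohData.PullHomotopy
  conn_add : toCohData.ConnAdd
  pull_conn : toCohData.PullConn
  exact_space : toCohData.ExactSpace
  exact_sub : toCohData.ExactSub
  exact_pair : toCohData.ExactPair
  excision : toCohData.Excision
  additivity : toCohData.Additivity
  cup_add_left : toCohData.CupAddLeft
  pull_cup : toCohData.PullCup
  cup_assoc : toCohData.CupAssoc
  cup_comm : toCohData.CupComm
  pull_one : toCohData.PullOne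
  one_cup : toCohData.OneCup
  conn_cup : toCohData.ConnCup

section

variable {G : Type} [Group G] [TopologicalSpace G] (h : CohData G)

/-- `h.IsProd I n z`: the class `z` of `h^*(X)` is a product of `n` homogeneous elements of `I`. -/
inductive CohData.IsProd {X : GSpace G}
    (I : ∀ p : ℤ, h.H p X (GSub.empty X) → Prop) :
    ℕ → ∀ p : ℤ, h.H p X (GSub.empty X) → Prop
  | one : CohData.IsProd I 0 0 (h.one X)
  | mul {n : ℕ} {p q r : ℤ} (hpq : p + q = r) (z : h.H p X (GSub.empty X))
      (w : h.H q X (GSub.empty X)) : CohData.IsProd I n p z → I q w →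
        CohData.IsProd I (n + 1) r (h.mul hpq z w)

/-- The largest number `n` (possibly infinite) such that some product of `n` homogeneous elements
of `I` is not zero. -/
noncomputable def CohData.nil {X : GSpace G}
    (I : ∀ p : ℤ, h.H p X (GSub.empty X) → Prop) : ℕ∞ :=
  ⨆ n : {n : ℕ // ∃ p z, h.IsProd I n p z ∧ z ≠ 0}, ((n : ℕ) : ℕ∞)

/-- The kernel of `Δ^* : h^*(X × X) → h^*(X)`. -/
def CohData.zeroDiv (X : GSpace G) (p : ℤ)
    (x : h.H p (X.prod X) (GSub.empty (X.prod X))) : Prop :=
  h.pull X.diag (A := GSub.empty X) (GSub.maps_empty _ _) x = 0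

/-- The reduced topological complexity of a space: the least `k` such that `Y × Y` is covered by
`k + 1` open sets on each of which the path fibration has a continuous section. -/
noncomputable def TC (Y : Type) [TopologicalSpace Y] : ℕ∞ :=
  sInf {k : ℕ∞ | ∃ n : ℕ, k = n ∧ ∃ U : Fin (n + 1) → Set (Y × Y),
    (∀ i, IsOpen (U i)) ∧ (⋃ i, U i) = Set.univ ∧
    ∀ i, ∃ s : C(U i, C(unitInterval, Y)), ∀ p, s p 0 = p.1.1 ∧ s p 1 = p.1.2}

/-- The fixed set `X^H`. -/
def fixedSet (X : GSpace G) (H : Subgroup G) : Set X := {x | ∀ g ∈ H, g • x = x}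

/-- The largest topological complexity of a fixed set. -/
noncomputable def maxTC (X : GSpace G) : ℕ∞ := ⨆ H : Subgroup G, TC (fixedSet X H)

/-- The nilpotency of the kernel of `Δ^* : h^*(X × X) → h^*(X)`. -/
noncomputable def CohData.nilZeroDiv (X : GSpace G) : ℕ∞ := h.nil (h.zeroDiv X)

end

end EqTC
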