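import Pool.Agent.Lib.P26f563.Cup

/-!
# Invariant cochains for a group action
-/

open Finsupp

namespace STop

section grading

variable {X Y : Type*} [TopologicalSpace X] [TopologicalSpace Y]

theorem sum_singles (x : SC X) : x = ∑ σ ∈ x.support, x σ • single σ (1 : F2) := by
  conv_lhs => rw [← Finsupp.sum_single x]
  simp [Finsupp.sum]

/-- A linear map shifting the number of vertices by one. -/
theorem shift_prv {D : SC X →ₗ[F2] SC Y} (h : ∀ σ : Sing X, D (single σ 1) ∈ Deg Y (σ.nv + 1))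
    (m : ℕ) (x : SC X) : prv (m + 1) (D x) = D (prv m x) := by
  have : prv (m + 1) ∘ₗ D = D ∘ₗ prv m := by
    apply lin_ext; intro σ
    rw [LinearMap.comp_apply, LinearMap.comp_apply]
    by_cases hm : σ.nv = m
    · rw [prv_single_of_eq hm]
      have := h σ
      rw [hm] at this
      exact prv_of_mem this
    · rw [prv_single_of_ne hm, map_zero]
      exact prv_of_mem_ne (h σ) (by omega)
  exact congrArg (fun g => g x) this

theorem prism1_len {T : Type*} (l : List T) :
    prism1 l ∈ supp fun q : List (T × Fin 2) => q.length = l.length + 1 := by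
  induction l with
  | nil => exact Submodule.zero_mem _
  | cons a l ih =>
    rw [prism1_cons]
    apply Submodule.add_mem
    · rw [cone_single]
      exact single_mem_supp (P := fun q : List (T × Fin 2) => q.length = (a :: l).length + 1)
        (by simp)
    · refine supp_induction _ (cone (a, 0)) ?_ ih
      intro q hq
      rw [cone_single]
      exact single_mem_supp (P := fun q : List (T × Fin 2) => q.length = (a :: l).length + 1)
        (by simp [hq])

theorem prismS_deg (σ : Sing X) :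
    prismS (single σ 1) ∈ Deg (X × unitInterval) (σ.nv + 1) := by
  rw [prismS_single, STop.univ, prism_single]
  refine supp_induction (Deg _ _) (realL2 σ tauI) ?_ (prism1_len _)
  intro l hl
  rw [realL2_single]
  rw [List.length_finRange] at hl
  exact single_mem_supp (P := fun τ : Sing (X × unitInterval) => τ.nv = σ.nv + 1) hl

theorem push_mem_Deg (f : C(X, Y)) {m : ℕ} {x : SC X} (h : x ∈ Deg X m) : push f x ∈ Deg Y m := by
  refine supp_induction (Deg Y m) (push f) ?_ h
  intro σ hσ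
  rw [push_single]
  exact single_mem_supp (P := fun τ : Sing Y => τ.nv = m) hσ

theorem homS_deg (H : C(X × unitInterval, Y)) (σ : Sing X) :
    homS H (single σ 1) ∈ Deg Y (σ.nv + 1) := push_mem_Deg H (prismS_deg σ)

/-- Cochains in terms of simplices. -/
theorem Cn_iff {n : ℤ} {N : Submodule F2 (SC X)} {c : SC X →ₗ[F2] F2} :
    c ∈ Cn n N ↔ (∀ x ∈ N, c x = 0) ∧
      ∀ σ : Sing X, (σ.nv : ℤ) ≠ n + 1 → c (single σ 1) = 0 := by
  rw [mem_Cn]
  constructor
  · rintro ⟨h1, h2⟩
    refine ⟨h1, fun σ hσ => ?_⟩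
    have := h2 σ.nv hσ (single σ 1)
    rwa [prv_single_of_eq rfl] at this
  · rintro ⟨h1, h2⟩
    refine ⟨h1, fun m hm x => ?_⟩
    have : c ∘ₗ prv m = 0 := by
      apply lin_ext; intro σ
      rw [LinearMap.comp_apply]
      by_cases h : σ.nv = m
      · rw [prv_single_of_eq h, h2 σ (by rw [h]; exact hm)]; rfl
      · rw [prv_single_of_ne h, map_zero]; rfl
    exact congrArg (fun g => g x) this

theorem Deg_zero_le_CIn (A : Set X) : Deg X 0 ≤ CIn A := by
  apply supp_mono
  intro σ hσ t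
  exfalso
  rw [hσ] at t
  exact absurd t.2.2 (by simp)

theorem CIn_empty : CIn (∅ : Set X) = Deg X 0 := by
  apply le_antisymm _ (Deg_zero_le_CIn _)
  apply supp_mono
  intro σ hσ
  by_contra h
  have h2 : 0 < σ.nv := by omega
  exact hσ (stdSimplex.vertex ⟨0, h2⟩)

theorem CS_singleton (A : Set X) : CS {A} = CIn A := by
  apply le_antisymm
  · apply supp_mono
    rintro σ ⟨U, hU, hs⟩
    rw [Set.mem_singleton_iff] at hU
    rwa [← hU]
  · exact CIn_le_CS rfl

theorem CS_mono {𝒰 𝒱 : Set (Set X)} (h : ∀ U ∈ 𝒰, ∃ V ∈ 𝒱, U ⊆ V) : CS 𝒰 ≤ CS 𝒱 := by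
  apply supp_mono
  rintro σ ⟨U, hU, hs⟩
  obtain ⟨V, hV, hUV⟩ := h U hU
  exact ⟨V, hV, hs.mono hUV⟩

theorem prv_mem_CS {𝒰 : Set (Set X)} {x : SC X} (h : x ∈ CS 𝒰) (m : ℕ) : prv m x ∈ CS 𝒰 :=
  prv_mem_supp h m

theorem Deg_zero_le_CS {𝒰 : Set (Set X)} (h : 𝒰.Nonempty) : Deg X 0 ≤ CS 𝒰 := by
  obtain ⟨U, hU⟩ := h
  exact (Deg_zero_le_CIn U).trans (CIn_le_CS hU)

end grading

section action

variable (G : Type*) [Group G] {X Y : Type*} [TopologicalSpace X] [TopologicalSpace Y]
  [MulAction G X] [ContinuousConstSMul G X] [MulAction G Y] [ContinuousConstSMul G Y]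

/-- Translation by a group element. -/
def act (g : G) : C(X, X) := ⟨fun x => g • x, continuous_const_smul g⟩

variable (X) in
/-- The span of all `g x + x`. -/
noncomputable def KG : Submodule F2 (SC X) :=
  Submodule.span F2 {z | ∃ (g : G) (x : SC X), z = push (act G g) x + x}

theorem mem_KG_gen (g : G) (x : SC X) : push (act G g) x + x ∈ KG G X :=
  Submodule.subset_span ⟨g, x, rfl⟩

/-- Equivariant linear maps of chains. -/
def Equi (F : SC X →ₗ[F2] SC Y) : Prop :=
  ∀ (g : G) (x : SC X), F (push (act G g) x) = push (act G g) (F x)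

variable {G}

theorem Equi.mem_KG {F : SC X →ₗ[F2] SC Y} (hF : Equi G F) {x : SC X} (h : x ∈ KG G X) :
    F x ∈ KG G Y := by
  have : KG G X ≤ (KG G Y).comap F := by
    apply Submodule.span_le.2
    rintro z ⟨g, x, rfl⟩
    change F _ ∈ KG G Y
    rw [map_add, hF]
    exact mem_KG_gen G g _
  exact this h

theorem equi_bdS : Equi G (bdS : SC X →ₗ[F2] SC X) := fun g x => (push_bdS _ x).symm

theorem equi_prv (m : ℕ) : Equi G (prv m : SC X →ₗ[F2] SC X) := fun g x => (push_prv _ m x).symm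

theorem equi_natOp (O : NatOp) : Equi G (O.lift : SC X →ₗ[F2] SC X) :=
  fun g x => (push_lift O _ x).symm

theorem equi_affOp (O : AffOp) : Equi G (O.lift : SC X →ₗ[F2] SC X) :=
  fun g x => (O.push_lift _ x).symm

theorem equi_sdS_iter (k : ℕ) : Equi G (sdS ^ k : SC X →ₗ[F2] SC X) := by
  intro g x
  rw [iterate_linear]
  induction k with
  | zero => rfl
  | succ k ih =>
    rw [Function.iterate_succ_apply', Function.iterate_succ_apply', ih]
    exact equi_affOp sdOp g _

theorem equi_tdIter (k : ℕ) : Equi G (tdIter k : SC X →ₗ[F2] SC X) := by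
  intro g x
  induction k with
  | zero => simp [tdIter]
  | succ k ih =>
    change tdIter k _ + tdS ((sdS ^ k) _) = push (act G g) (tdIter k x + tdS ((sdS ^ k) x))
    rw [ih, equi_sdS_iter, map_add]
    congr 1
    exact equi_affOp tdOp g _

theorem equi_push (f : C(X, Y)) (hf : ∀ (g : G) x, f (g • x) = g • f x) : Equi G (push f) := by
  intro g x
  rw [push_push, push_push]
  congr 2
  ext x
  exact hf g x

theorem equi_homS (H : C(X × unitInterval, Y)) (hH : ∀ (g : G) x t, H (g • x, t) = g • H (x, t)) :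
    Equi G (homS H) := by
  intro g x
  unfold homS
  rw [LinearMap.comp_apply, LinearMap.comp_apply, ← push_prismS, push_push, push_push]
  congr 2
  ext ⟨x, t⟩
  exact hH g x t

variable (G) in
/-- Small chains together with the span of `g x + x`. -/
noncomputable def NG (𝒰 : Set (Set X)) : Submodule F2 (SC X) := CS 𝒰 ⊔ KG G X

theorem CS_le_NG (𝒰 : Set (Set X)) : CS 𝒰 ≤ NG G 𝒰 := le_sup_left

theorem KG_le_NG (𝒰 : Set (Set X)) : KG G X ≤ NG G 𝒰 := le_sup_right

theorem NG_mono {𝒰 𝒱 : Set (Set X)} (h : ∀ U ∈ 𝒰, ∃ V ∈ 𝒱, U ⊆ V) : NG G 𝒰 ≤ NG G 𝒱 :=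
  sup_le_sup (CS_mono h) le_rfl

theorem Equi.mem_NG {F : SC X →ₗ[F2] SC Y} (hF : Equi G F) {𝒰 : Set (Set X)} {𝒱 : Set (Set Y)}
    (h : ∀ x ∈ CS 𝒰, F x ∈ CS 𝒱) {x : SC X} (hx : x ∈ NG G 𝒰) : F x ∈ NG G 𝒱 := by
  obtain ⟨a, ha, b, hb, rfl⟩ := Submodule.mem_sup.1 hx
  rw [map_add]
  exact Submodule.add_mem_sup (h a ha) (hF.mem_KG hb)

theorem adm_NG {𝒰 : Set (Set X)} (h : 𝒰.Nonempty) : Adm (NG G 𝒰) where
  bd _ hx := equi_bdS.mem_NG (fun _ hx => bdS_mem_CS hx) hx
  gr m _ hx := (equi_prv m).mem_NG (fun _ hx => prv_mem_CS hx m) hx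
  e0 := (Deg_zero_le_CS h).trans (CS_le_NG 𝒰)

/-- Comparison of the family `{A}` with a fine family. -/
theorem NG_acyclic {A : Set X} {𝒰 : Set (Set X)} (hne : 𝒰.Nonempty)
    (hcov : ∀ x ∈ A, ∃ U ∈ 𝒰, U ∈ nhdsWithin x A) (y : SC X) (hy : y ∈ NG G {A})
    (hb : bdS y ∈ NG G 𝒰) : ∃ e ∈ NG G ({A} : Set (Set X)), y + bdS e ∈ NG G 𝒰 := by
  obtain ⟨a, ha, b, hb', rfl⟩ := Submodule.mem_sup.1 hy
  rw [CS_singleton] at ha
  obtain ⟨k, hk⟩ := exists_iter_small A 𝒰 hne hcov a ha
  refine ⟨tdIter k (a + b), (equi_tdIter k).mem_NG (fun _ hx => tdIter_mem_CS hx k) hy, ?_⟩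
  have h := bdS_tdIter k (a + b)
  have h2 : a + b + bdS (tdIter k (a + b)) = (sdS^[k]) (a + b) + tdIter k (bdS (a + b)) := by
    calc a + b + bdS (tdIter k (a + b)) =
          (bdS (tdIter k (a + b)) + tdIter k (bdS (a + b))) + tdIter k (bdS (a + b)) + (a + b) := by
            rw [add_assoc (bdS (tdIter k (a + b))), add_self_eq_zero', add_zero,
              add_comm (a + b)]
      _ = ((a + b) + (sdS^[k]) (a + b)) + tdIter k (bdS (a + b)) + (a + b) := by rw [h]
      _ = (sdS^[k]) (a + b) + tdIter k (bdS (a + b)) + ((a + b) + (a + b)) := by abel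
      _ = _ := by rw [add_self_eq_zero', add_zero]
  rw [h2]
  apply Submodule.add_mem
  · rw [← iterate_linear, map_add]
    apply Submodule.add_mem
    · rw [iterate_linear]
      exact CS_le_NG _ hk
    · exact KG_le_NG _ ((equi_sdS_iter k).mem_KG hb')
  · exact (equi_tdIter k).mem_NG (fun _ hx => tdIter_mem_CS hx k) hb

/-- For the excision theorem. -/
theorem NG_excision {𝒱 𝒰 : Set (Set X)} (hne : 𝒰.Nonempty)
    (hcov : ∀ x, ∃ U ∈ 𝒰, U ∈ nhds x) (y : SC X)
    (hb : bdS y ∈ CS 𝒰 ⊔ NG G 𝒱) (h𝒱 : ∀ V ∈ 𝒱, ∃ U ∈ 𝒰, V ⊆ U) :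
    ∃ e, y + bdS e ∈ NG G 𝒰 := by
  have hb' : bdS y ∈ NG G 𝒰 := by
    have : CS 𝒰 ⊔ NG G 𝒱 ≤ NG G 𝒰 := sup_le (CS_le_NG _) (NG_mono h𝒱)
    exact this hb
  obtain ⟨e, _, he⟩ := NG_acyclic (G := G) (A := Set.univ) (𝒰 := 𝒰) hne (by
    intro x _
    rw [nhdsWithin_univ]
    exact hcov x) y (CS_le_NG _ (by rw [CS_singleton]; exact CIn_univ y)) hb'
  exact ⟨e, he⟩

end action

section restriction

variable {X : Type*} [TopologicalSpace X]

/-- The inclusion of a subset. -/
def incl (A : Set X) : C(A, X) := ⟨Subtype.val, continuous_subtype_val⟩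

/-- Corestriction of a simplex lying in a subset. -/
@[reducible] def Sing.corestr {A : Set X} (σ : Sing X) (h : σ.In A) : Sing A :=
  ⟨σ.nv, ⟨fun t => ⟨σ.map t, h t⟩, σ.map.continuous.subtype_mk _⟩⟩

theorem Sing.corestr_push {A : Set X} (σ : Sing X) (h : σ.In A) :
    (σ.corestr h).push (incl A) = σ := rfl

theorem Sing.push_incl_In {A : Set X} (σ : Sing A) : (σ.push (incl A)).In A :=
  fun t => (σ.map t).2

theorem Sing.push_incl_corestr {A : Set X} (σ : Sing A) (h : (σ.push (incl A)).In A) :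
    (σ.push (incl A)).corestr h = σ := rfl

/-- The retraction on chains of a subset. -/
noncomputable def resS (A : Set X) : SC X →ₗ[F2] SC A :=
  open Classical in lin fun σ => if h : σ.In A then single (σ.corestr h) 1 else 0

theorem resS_single_of {A : Set X} {σ : Sing X} (h : σ.In A) :
    resS A (single σ 1) = single (σ.corestr h) 1 := by
  rw [resS, lin_single, dif_pos h]

theorem resS_single_of_not {A : Set X} {σ : Sing X} (h : ¬ σ.In A) :
    resS A (single σ 1) = 0 := by
  rw [resS, lin_single, dif_neg h]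

theorem resS_push (A : Set X) (x : SC A) : resS A (push (incl A) x) = x := by
  have : (resS A ∘ₗ push (incl A)) = LinearMap.id := by
    apply lin_ext; intro σ
    rw [LinearMap.comp_apply, push_single, resS_single_of σ.push_incl_In]
    rfl
  exact congrArg (fun g => g x) this

theorem push_resS {A : Set X} {x : SC X} (h : x ∈ CIn A) : push (incl A) (resS A x) = x := by
  refine supp_ext (push (incl A) ∘ₗ resS A) LinearMap.id ?_ h
  intro σ hσ
  rw [LinearMap.comp_apply, resS_single_of hσ, push_single]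
  rfl

theorem push_incl_mem (A : Set X) (x : SC A) : push (incl A) x ∈ CIn A := by
  refine supp_induction (CIn A) (push (incl A)) ?_ (CIn_univ x)
  intro σ _
  rw [push_single]
  exact single_mem_CIn σ.push_incl_In

theorem push_incl_injective (A : Set X) : Function.Injective (push (incl A)) :=
  Function.LeftInverse.injective (resS_push A)

theorem bdS_resS {A : Set X} {x : SC X} (h : x ∈ CIn A) : bdS (resS A x) = resS A (bdS x) := by
  apply push_incl_injective A
  rw [push_bdS, push_resS h, push_resS (bdS_mem_CIn h)]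

theorem resS_prv (A : Set X) (m : ℕ) (x : SC X) : resS A (prv m x) = prv m (resS A x) := by
  have : (resS A ∘ₗ prv m) = prv m ∘ₗ resS A := by
    apply lin_ext; intro σ
    rw [LinearMap.comp_apply, LinearMap.comp_apply]
    by_cases hm : σ.nv = m
    · rw [prv_single_of_eq hm]
      by_cases h : σ.In A
      · rw [resS_single_of h]
        exact (prv_single_of_eq (σ := σ.corestr h) hm).symm
      · rw [resS_single_of_not h, map_zero]
    · rw [prv_single_of_ne hm, map_zero]
      by_cases h : σ.In A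
      · rw [resS_single_of h]
        exact (prv_single_of_ne (σ := σ.corestr h) hm).symm
      · rw [resS_single_of_not h, map_zero]
  exact congrArg (fun g => g x) this

theorem resS_mem_CIn {A B : Set X} {x : SC X} (h : x ∈ CIn B) :
    resS A x ∈ CIn ((incl A) ⁻¹' B) := by
  refine supp_induction (CIn _) (resS A) ?_ h
  intro σ hσ
  by_cases hA : σ.In A
  · rw [resS_single_of hA]
    exact single_mem_CIn (fun t => hσ t)
  · rw [resS_single_of_not hA]
    exact Submodule.zero_mem _

end restriction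

end STop
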