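import Pool.Agent.Lib.P26f563.Defs

/-!
# The example: a smooth involution on `S¹ × S^(2m+1)`

The group of order two is `ℤˣ = {1, -1}`.
-/

namespace EqTC

/-- The action of `ℤˣ` of an involution: the element `-1` acts by the involution. -/
@[reducible] def invAction {X : Type} (τ : X → X) (hτ : ∀ x, τ (τ x) = x) : MulAction ℤˣ X where
  smul u x := if u = 1 then x else τ x
  one_smul x := if_pos rfl
  mul_smul u v x := by
    change (if u * v = 1 then x else τ x) =
      if u = 1 then (if v = 1 then x else τ x) else τ (if v = 1 then x else τ x)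
    rcases Int.units_eq_one_or u with rfl | rfl <;> rcases Int.units_eq_one_or v with rfl | rfl
    · simp
    · simp
    · simp
    · have h : (-1 : ℤˣ) ≠ 1 := by decide
      have h' : (-1 : ℤˣ) * -1 = 1 := by decide
      rw [if_pos h', if_neg h, if_neg h, hτ]

/-- The G-space of an involution, `G = ℤˣ`. -/
def invSpace (X : Type) [TopologicalSpace X] (τ : C(X, X)) (hτ : ∀ x, τ (τ x) = x) :
    GSpace ℤˣ where
  carrier := X
  act := invAction τ hτ
  cont := by
    let _ := invAction τ hτ
    refine ⟨?_⟩
    change Continuous fun p : ℤˣ × X => if p.1 = 1 then p.2 else τ p.2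
    rw [continuous_iff_continuousAt]
    rintro ⟨u, x⟩
    have h1 : IsOpen ({u} : Set ℤˣ) := isOpen_discrete _
    have h2 : {p : ℤˣ × X | p.1 = u} ∈ nhds (u, x) :=
      (h1.preimage continuous_fst).mem_nhds rfl
    by_cases hu : u = 1
    · have : (fun p : ℤˣ × X => p.2) =ᶠ[nhds (u, x)]
          fun p : ℤˣ × X => if p.1 = 1 then p.2 else τ p.2 := by
        filter_upwards [h2] with p hp
        rw [if_pos (Eq.trans hp hu)]
      exact (continuous_snd.continuousAt).congr this
    · have : (fun p : ℤˣ × X => τ p.2) =ᶠ[nhds (u, x)]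
          fun p : ℤˣ × X => if p.1 = 1 then p.2 else τ p.2 := by
        filter_upwards [h2] with p hp
        rw [if_neg]
        intro h
        exact hu ((show p.1 = u from hp).symm.trans h)
      exact ((τ.continuous.comp continuous_snd).continuousAt).congr this

section

variable (K : Type) [NormedAddCommGroup K] [NormedSpace ℂ K]

/-- The product of the unit circle and the unit sphere of a complex normed space. -/
abbrev ExSpace : Type := Metric.sphere (0 : ℂ) 1 × Metric.sphere (0 : K) 1

theorem conj_mem (s : Metric.sphere (0 : ℂ) 1) :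
    (starRingEnd ℂ) (s : ℂ) ∈ Metric.sphere (0 : ℂ) 1 := by
  rw [mem_sphere_zero_iff_norm, Complex.norm_conj]
  exact mem_sphere_zero_iff_norm.1 s.2

variable {K} in
theorem neg_conj_smul_mem (s : Metric.sphere (0 : ℂ) 1) (v : Metric.sphere (0 : K) 1) :
    -((starRingEnd ℂ) (s : ℂ) • (v : K)) ∈ Metric.sphere (0 : K) 1 := by
  rw [mem_sphere_zero_iff_norm, norm_neg, norm_smul, Complex.norm_conj,
    mem_sphere_zero_iff_norm.1 s.2, mem_sphere_zero_iff_norm.1 v.2, one_mul]

/-- The involution `(s, v) ↦ (conj s, - conj s • v)`. -/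
noncomputable def exTau : C(ExSpace K, ExSpace K) :=
  ⟨fun p => (⟨(starRingEnd ℂ) (p.1 : ℂ), conj_mem p.1⟩,
    ⟨-((starRingEnd ℂ) (p.1 : ℂ) • (p.2 : K)), neg_conj_smul_mem p.1 p.2⟩), by
    apply Continuous.prodMk
    · apply Continuous.subtype_mk
      exact Complex.continuous_conj.comp (continuous_subtype_val.comp continuous_fst)
    · apply Continuous.subtype_mk
      apply Continuous.neg
      exact (Complex.continuous_conj.comp (continuous_subtype_val.comp continuous_fst)).smul
        (continuous_subtype_val.comp continuous_snd)⟩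

theorem exTau_exTau (p : ExSpace K) : exTau K (exTau K p) = p := by
  apply Prod.ext
  · apply Subtype.ext
    exact Complex.conj_conj _
  · apply Subtype.ext
    change -((starRingEnd ℂ) ((starRingEnd ℂ) (p.1 : ℂ)) •
      (-((starRingEnd ℂ) (p.1 : ℂ) • (p.2 : K)))) = (p.2 : K)
    have h : (starRingEnd ℂ) (p.1 : ℂ) * (p.1 : ℂ) = 1 := by
      rw [mul_comm, Complex.mul_conj, Complex.normSq_eq_norm_sq,
        mem_sphere_zero_iff_norm.1 p.1.2]
      norm_num
    rw [Complex.conj_conj, smul_neg, neg_neg, smul_smul, mul_comm, h, one_smul]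

/-- The `ℤˣ`-space `S(ℂ) × S(K)`, on which `-1` acts by `(s, v) ↦ (conj s, - conj s • v)`. -/
noncomputable def exG : GSpace ℤˣ := invSpace (ExSpace K) (exTau K) (exTau_exTau K)

end

/-- The closed manifold `S¹ × S^(2m+1)`, the product of the unit spheres of `ℂ` and `ℂ^(m+1)`, with
the involution `(s, v) ↦ (conj s, - conj s • v)`. -/
noncomputable def exM (m : ℕ) : GSpace ℤˣ := exG (EuclideanSpace ℂ (Fin (m + 1)))

end EqTC
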