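import Pool.Agent.Lib.P26f563.Sing

/-!
# Prism operator and homotopy invariance
-/

open Finsupp

namespace STop

/-! ### The prism operator on lists -/

section lists

variable {T T' : Type*}

/-- The prism over a list. -/
noncomputable def prism1 : List T → LC (T × Fin 2)
  | [] => 0
  | (a :: l) => cone (a, 0) (single ((a :: l).map fun b => (b, 1)) 1) + cone (a, 0) (prism1 l)

@[simp] theorem prism1_nil : prism1 ([] : List T) = 0 := rfl
theorem prism1_cons (a : T) (l : List T) : prism1 (a :: l) =
    cone (a, 0) (single ((a :: l).map fun b => (b, 1)) 1) + cone (a, 0) (prism1 l) := rfl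

/-- The prism operator. -/
noncomputable def prism : LC T →ₗ[F2] LC (T × Fin 2) := lin prism1

@[simp] theorem prism_single (l : List T) : prism (single l 1) = prism1 l := lin_single _ _

theorem prism_cone (a : T) (x : LC T) :
    prism (cone a x) = cone (a, 0) (mapL (fun b => (b, 1)) (cone a x)) +
      cone (a, 0) (prism x) := by
  have : (prism ∘ₗ cone a) = (cone (a, 0) ∘ₗ mapL (fun b => (b, (1 : Fin 2))) ∘ₗ cone a) +
      (cone (a, 0) ∘ₗ prism) := by
    apply lin_ext; intro l
    simp [prism1_cons]
  exact congrArg (fun g => g x) this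

theorem prism_nat (f : T → T') (x : LC T) :
    prism (mapL f x) = mapL (Prod.map f id) (prism x) := by
  have : (prism ∘ₗ mapL f) = (mapL (Prod.map f (id : Fin 2 → Fin 2)) ∘ₗ prism) := by
    apply lin_ext; intro l
    simp only [LinearMap.comp_apply, mapL_single, prism_single]
    induction l with
    | nil => simp
    | cons a l ih =>
      rw [List.map_cons, prism1_cons, prism1_cons, map_add, mapL_cone, mapL_cone, ih]
      simp only [List.map_cons, List.map_map, cone_single, mapL_single, Prod.map, id]
      rfl
  exact congrArg (fun g => g x) this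

theorem bd_prism (x : LC T) :
    bd (prism x) + prism (bd x) = mapL (fun b => (b, 0)) x + mapL (fun b => (b, 1)) x := by
  have : (bd ∘ₗ prism + prism ∘ₗ bd : LC T →ₗ[F2] LC (T × Fin 2)) =
      mapL (fun b => (b, 0)) + mapL (fun b => (b, 1)) := by
    apply lin_ext; intro l
    simp only [LinearMap.comp_apply, LinearMap.add_apply, prism_single, bd_single, mapL_single]
    induction l with
    | nil => simp; exact (add_self_eq_zero' _).symm
    | cons a l ih =>
      rw [prism1_cons, bd1_cons, map_add, map_add, bd_cone, bd_cone, prism_single, prism_cone,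
        mapL_cone, mapL_bd1, bd_single, List.map_cons, bd1_cons]
      have h := congrArg (cone (a, (0 : Fin 2))) ih
      rw [map_add, map_add, cone_single, cone_single] at h
      have e1 : cone (a, (0 : Fin 2)) (bd (prism1 l)) = cone (a, (0 : Fin 2)) (prism (bd1 l)) +
          (single ((a, 0) :: l.map fun b => (b, 0)) 1 +
            single ((a, 0) :: l.map fun b => (b, 1)) 1) := by
        rw [← h]
        rw [add_comm (cone (a, (0 : Fin 2)) (bd (prism1 l))), ← add_assoc, add_self_eq_zero',
          zero_add]
      rw [e1, map_add, cone_single]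
      simp only [List.map_cons]
      generalize cone (a, (0 : Fin 2)) (cone (a, 1) (bd1 (List.map (fun b => (b, 1)) l))) = A
      generalize cone (a, (0 : Fin 2)) (prism (bd1 l)) = B
      generalize prism1 l = C
      generalize (single ((a, (0 : Fin 2)) :: l.map fun b => (b, (0 : Fin 2))) (1 : F2)) = D
      generalize (single ((a, (0 : Fin 2)) :: l.map fun b => (b, (1 : Fin 2))) (1 : F2)) = E
      generalize (single ((a, (1 : Fin 2)) :: l.map fun b => (b, (1 : Fin 2))) (1 : F2)) = F
      have hA := add_self_eq_zero' A
      have hB := add_self_eq_zero' B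
      have hC := add_self_eq_zero' C
      have hE := add_self_eq_zero' E
      calc F + (E + A) + (C + (B + (D + E))) + (C + (A + B))
          = D + F + ((A + A) + (B + B) + (C + C) + (E + E)) := by abel
        _ = D + F := by rw [hA, hB, hC, hE]; simp
  exact congrArg (fun g => g x) this

end lists

/-! ### The prism on singular chains -/

variable {X Y Z : Type*} [TopologicalSpace X] [TopologicalSpace Y] [TopologicalSpace Z]

/-- The standard singular 1-simplex of the unit interval. -/
@[reducible] noncomputable def tauI : Sing unitInterval :=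
  ⟨2, ⟨stdSimplexHomeomorphUnitInterval, stdSimplexHomeomorphUnitInterval.continuous⟩⟩

theorem tauI_const (j : Fin 2) {k : ℕ} (f : Fin k → Fin tauI.nv) (hf : ∀ i, f i = j) (t : Dl k) :
    (tauI.map.comp (Dmap f)) t = if j = 0 then 0 else 1 := by
  have ht : Dmap f t = stdSimplex.vertex j := by
    ext i
    have h1 : (Dmap f t : Fin 2 → ℝ) = FunOnFinite.linearMap ℝ ℝ f t := rfl
    rw [h1, FunOnFinite.linearMap_apply_apply]
    rw [stdSimplex.vertex_coe, Pi.single_apply]
    by_cases h : i = j
    · subst h
      rw [if_pos rfl]
      have : (Finset.univ.filter fun a => f a = i) = Finset.univ := by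
        ext a; simp [hf a]
      rw [this]
      exact t.2.2
    · rw [if_neg h]
      have : (Finset.univ.filter fun a => f a = i) = ∅ := by
        ext a; simp only [Finset.mem_filter, Finset.mem_univ, true_and]
        rw [hf a]
        simp [Ne.symm h]
      rw [this]; simp
  rw [ContinuousMap.comp_apply, ht]
  fin_cases j
  · exact stdSimplexHomeomorphUnitInterval_zero
  · exact stdSimplexHomeomorphUnitInterval_one

/-- Inclusion of the end `j` of the cylinder. -/
def endMap (X : Type*) [TopologicalSpace X] (j : unitInterval) : C(X, X × unitInterval) :=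
  (ContinuousMap.id X).prodMk (ContinuousMap.const X j)

theorem realL2_end (σ : Sing X) (j : Fin 2) (x : LC (Fin σ.nv)) :
    realL2 σ tauI (mapL (fun b => (b, j)) x) =
      push (endMap X (if j = 0 then 0 else 1)) (realL σ x) := by
  have : (realL2 σ tauI ∘ₗ mapL (fun b => (b, j)) : LC (Fin σ.nv) →ₗ[F2] SC (X × unitInterval)) =
      push (endMap X (if j = 0 then 0 else 1)) ∘ₗ realL σ := by
    apply lin_ext; intro l
    simp only [LinearMap.comp_apply, mapL_single, realL_single, push_single]
    rw [realL2_single]
    congr 1
    unfold Sing.sub2 Sing.push Sing.sub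
    have h1 : (l.map fun b => (b, j)).length = l.length := by simp
    have key : ∀ (n : ℕ) (h : (l.map fun b => (b, j)).length = n) (f : Fin n → Fin σ.nv)
        (_ : ∀ i, ((l.map fun b => (b, j)).get i).1 = f (i.cast h)) (g : Fin n → Fin 2)
        (_ : ∀ i, ((l.map fun b => (b, j)).get i).2 = g (i.cast h)),
        (⟨(l.map fun b => (b, j)).length,
          (σ.map.comp (Dmap fun i => ((l.map fun b => (b, j)).get i).1)).prodMk
            (tauI.map.comp (Dmap fun i => ((l.map fun b => (b, j)).get i).2))⟩ :
              Sing (X × unitInterval)) =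
          ⟨n, (σ.map.comp (Dmap f)).prodMk (tauI.map.comp (Dmap g))⟩ := by
      intro n h f hf g hg
      exact Sing.mk_congr2 _ _ _ _ _ _ h hf hg
    rw [key l.length h1 l.get (by intro i; simp) (fun _ => j) (by intro i; simp)]
    congr 1
    ext t : 1
    change ((σ.map.comp (Dmap l.get)) t, (tauI.map.comp (Dmap fun _ => j)) t) =
      ((σ.map.comp (Dmap l.get)) t, if j = 0 then 0 else 1)
    rw [tauI_const j _ (fun _ => rfl)]
  exact congrArg (fun g => g x) this

/-- The prism operator on singular chains. -/
noncomputable def prismS : SC X →ₗ[F2] SC (X × unitInterval) :=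
  lin fun σ => realL2 σ tauI (prism (univ σ.nv))

theorem prismS_single (σ : Sing X) : prismS (single σ 1) = realL2 σ tauI (prism (univ σ.nv)) :=
  lin_single _ _

theorem prismS_realL (σ : Sing X) (x : LC (Fin σ.nv)) :
    prismS (realL σ x) = realL2 σ tauI (prism x) := by
  have : (prismS ∘ₗ realL σ) = (realL2 σ tauI ∘ₗ prism) := by
    apply lin_ext; intro l
    simp only [LinearMap.comp_apply, realL_single]
    rw [prismS_single]
    have h : ∀ z : LC (Fin l.length × Fin 2), realL2 (σ.sub l) tauI z =
        realL2 σ tauI (mapL (Prod.map l.get id) z) := by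
      intro z
      have : (realL2 (σ.sub l) tauI : LC (Fin l.length × Fin 2) →ₗ[F2] SC (X × unitInterval)) =
          realL2 σ tauI ∘ₗ mapL (Prod.map l.get id) := by
        apply lin_ext; intro l'
        rw [LinearMap.comp_apply, mapL_single, realL2_single, realL2_single]
        congr 1
        have h1 : (σ.sub l).sub2 tauI l' = ⟨l'.length,
          (σ.map.comp (Dmap (l.get ∘ (fun i => (l'.get i).1)))).prodMk
            (tauI.map.comp (Dmap (fun i => (l'.get i).2)))⟩ := by
          rw [← Dmap_comp]
          rfl
        rw [h1]
        unfold Sing.sub2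
        apply Sing.mk_congr2 _ _ _ _ _ _ (by simp)
        · intro i; simp
        · intro i; simp
      exact congrArg (fun g => g z) this
    rw [h, ← prism_nat, mapL_get_univ]
  exact congrArg (fun g => g x) this

theorem bdS_prismS (x : SC X) :
    bdS (prismS x) + prismS (bdS x) = push (endMap X 0) x + push (endMap X 1) x := by
  have : (bdS ∘ₗ prismS + prismS ∘ₗ bdS : SC X →ₗ[F2] SC (X × unitInterval)) =
      push (endMap X 0) + push (endMap X 1) := by
    apply lin_ext; intro σ
    simp only [LinearMap.comp_apply, LinearMap.add_apply]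
    rw [prismS_single, bdS_realL2, bdS_single, prismS_realL, ← map_add, bd_prism, map_add,
      realL2_end, realL2_end, realL_univ]
    simp
  exact congrArg (fun g => g x) this

theorem prismS_mem_CIn {A : Set X} {x : SC X} (h : x ∈ CIn A) :
    prismS x ∈ CIn (A ×ˢ (Set.univ : Set unitInterval)) := by
  refine supp_induction (CIn _) prismS ?_ h
  intro σ hσ
  rw [prismS_single]
  have hx : prism (univ σ.nv) ∈ supp (fun _ : List (Fin σ.nv × Fin 2) => True) := by
    rw [mem_supp]; intros; trivial
  refine supp_induction (CIn _) (realL2 σ tauI) ?_ hx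
  intro l _
  rw [realL2_single]
  apply single_mem_CIn
  intro t
  exact ⟨hσ _, trivial⟩

theorem push_prismS (f : C(X, Y)) (x : SC X) :
    push (f.prodMap (ContinuousMap.id unitInterval)) (prismS x) = prismS (push f x) := by
  have : (push (f.prodMap (ContinuousMap.id unitInterval)) ∘ₗ prismS) = prismS ∘ₗ push f := by
    apply lin_ext; intro σ
    simp only [LinearMap.comp_apply, push_single]
    rw [prismS_single, prismS_single, push_realL2]
    rfl
  exact congrArg (fun g => g x) this

/-- The chain homotopy of a homotopy. -/
noncomputable def homS (H : C(X × unitInterval, Y)) : SC X →ₗ[F2] SC Y := push H ∘ₗ prismS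

theorem bdS_homS (H : C(X × unitInterval, Y)) (x : SC X) :
    bdS (homS H x) + homS H (bdS x) =
      push (H.comp (endMap X 0)) x + push (H.comp (endMap X 1)) x := by
  unfold homS
  rw [LinearMap.comp_apply, LinearMap.comp_apply, ← push_bdS, ← map_add, bdS_prismS, map_add,
    push_push, push_push]

theorem homS_mem_CIn {A : Set X} {B : Set Y} (H : C(X × unitInterval, Y))
    (hH : ∀ a ∈ A, ∀ t, H (a, t) ∈ B) {x : SC X} (h : x ∈ CIn A) : homS H x ∈ CIn B :=
  push_mem_CIn H (by rintro ⟨a, t⟩ ⟨ha, _⟩; exact hH a ha t) (prismS_mem_CIn h)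

end STop
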