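import Mathlib

/-!
# Chains of vertex lists with coefficients in `ZMod 2`

The augmented chain complex of lists of elements of a type: a list with `m` entries is an
(ordered) simplex with `m` vertices.  All natural operators on singular chains used later are
defined on vertex lists by structural recursion.
-/

open Finsupp

namespace STop

/-- Coefficients. -/
abbrev F2 : Type := ZMod 2

/-- Chains of lists. -/
abbrev LC (T : Type*) : Type _ := List T →₀ F2

theorem F2.add_self (a : F2) : a + a = 0 := by
  revert a; decide

theorem add_self_eq_zero' {M : Type*} [AddCommGroup M] [Module F2 M] (x : M) : x + x = 0 := by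
  have h : (2 : F2) • x = 0 := by
    have : (2 : F2) = 0 := by decide
    rw [this, zero_smul]
  rwa [two_smul] at h

theorem eq_of_add_eq_zero {M : Type*} [AddCommGroup M] [Module F2 M] {x y : M} (h : x + y = 0) :
    x = y := by
  have := congrArg (· + y) h
  simpa [add_assoc, add_self_eq_zero' y] using this

theorem add_eq_zero_iff_eq' {M : Type*} [AddCommGroup M] [Module F2 M] {x y : M} :
    x + y = 0 ↔ x = y :=
  ⟨eq_of_add_eq_zero, fun h => by rw [h]; exact add_self_eq_zero' y⟩

theorem neg_eq_self' {M : Type*} [AddCommGroup M] [Module F2 M] (x : M) : -x = x := by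
  have := add_self_eq_zero' x
  exact (neg_eq_of_add_eq_zero_left this)

section

variable {T T' T'' : Type*}

/-- Linear extension of a function on generators. -/
noncomputable abbrev lin {α M : Type*} [AddCommGroup M] [Module F2 M] (f : α → M) :
    (α →₀ F2) →ₗ[F2] M := Finsupp.linearCombination F2 f

theorem lin_single {α M : Type*} [AddCommGroup M] [Module F2 M] (f : α → M) (a : α) :
    lin f (single a 1) = f a := by
  simp [lin]

/-- Cone with apex `a`. -/
noncomputable def cone (a : T) : LC T →ₗ[F2] LC T := lin fun l => single (a :: l) 1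

@[simp] theorem cone_single (a : T) (l : List T) :
    cone a (single l 1) = single (a :: l) 1 := lin_single _ _

/-- Boundary of a list. -/
noncomputable def bd1 : List T → LC T
  | [] => 0
  | (a :: l) => single l 1 + cone a (bd1 l)

@[simp] theorem bd1_nil : bd1 ([] : List T) = 0 := rfl
@[simp] theorem bd1_cons (a : T) (l : List T) : bd1 (a :: l) = single l 1 + cone a (bd1 l) := rfl

/-- Boundary of list chains. -/
noncomputable def bd : LC T →ₗ[F2] LC T := lin bd1

@[simp] theorem bd_single (l : List T) : bd (single l 1) = bd1 l := lin_single _ _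

/-- Extensionality of linear maps on chains. -/
theorem lin_ext {α M : Type*} [AddCommGroup M] [Module F2 M] {f g : (α →₀ F2) →ₗ[F2] M}
    (h : ∀ a, f (single a 1) = g (single a 1)) : f = g := by
  apply Finsupp.lhom_ext
  intro a b
  have hb : single a b = b • single a (1 : F2) := by simp
  rw [hb, map_smul, map_smul, h]

theorem lin_ext_apply {α M : Type*} [AddCommGroup M] [Module F2 M] {f g : (α →₀ F2) →ₗ[F2] M}
    (h : ∀ a, f (single a 1) = g (single a 1)) (x : α →₀ F2) : f x = g x := by
  rw [lin_ext h]

theorem bd_cone (a : T) (x : LC T) : bd (cone a x) = x + cone a (bd x) := by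
  have : (bd ∘ₗ cone a) = LinearMap.id + (cone a ∘ₗ bd) := by
    apply lin_ext; intro l; simp
  exact congrArg (fun f => f x) this

theorem bd_bd (x : LC T) : bd (bd x) = 0 := by
  have : (bd ∘ₗ bd : LC T →ₗ[F2] LC T) = 0 := by
    apply lin_ext; intro l
    induction l with
    | nil => simp
    | cons a l ih =>
      simp only [LinearMap.comp_apply, bd_single, LinearMap.zero_apply] at ih ⊢
      rw [bd1_cons, map_add, bd_single, bd_cone, ih, map_zero, add_zero]
      exact add_self_eq_zero' _
  exact congrArg (fun f => f x) this

/-- Push-forward of list chains. -/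
noncomputable def mapL (f : T → T') : LC T →ₗ[F2] LC T' := lin fun l => single (l.map f) 1

@[simp] theorem mapL_single (f : T → T') (l : List T) :
    mapL f (single l 1) = single (l.map f) 1 := lin_single _ _

theorem mapL_cone (f : T → T') (a : T) (x : LC T) :
    mapL f (cone a x) = cone (f a) (mapL f x) := by
  have : (mapL f ∘ₗ cone a) = (cone (f a) ∘ₗ mapL f) := by
    apply lin_ext; intro l; simp
  exact congrArg (fun g => g x) this

theorem mapL_bd1 (f : T → T') (l : List T) : mapL f (bd1 l) = bd1 (l.map f) := by
  induction l with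
  | nil => simp
  | cons a l ih => simp [mapL_cone, ih]

theorem mapL_bd (f : T → T') (x : LC T) : mapL f (bd x) = bd (mapL f x) := by
  have : (mapL f ∘ₗ bd) = (bd ∘ₗ mapL f) := by
    apply lin_ext; intro l; simp [mapL_bd1]
  exact congrArg (fun g => g x) this

theorem mapL_mapL (f : T → T') (g : T' → T'') (x : LC T) :
    mapL g (mapL f x) = mapL (g ∘ f) x := by
  have : (mapL g ∘ₗ mapL f) = mapL (g ∘ f) := by
    apply lin_ext; intro l; simp
  exact congrArg (fun g => g x) this

theorem mapL_id (x : LC T) : mapL id x = x := by
  have : (mapL id : LC T →ₗ[F2] LC T) = LinearMap.id := by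
    apply lin_ext; intro l; simp
  exact congrArg (fun g => g x) this

/-- Chains all of whose lists satisfy a predicate. -/
def supp {α : Type*} (P : α → Prop) : Submodule F2 (α →₀ F2) := Finsupp.supported F2 F2 {a | P a}

theorem mem_supp {α : Type*} {P : α → Prop} {x : α →₀ F2} :
    x ∈ supp P ↔ ∀ a ∈ x.support, P a := by
  simp [supp, Finsupp.mem_supported, Set.subset_def]

theorem single_mem_supp {α : Type*} {P : α → Prop} {a : α} (h : P a) (c : F2 := 1) :
    single a c ∈ supp P := Finsupp.single_mem_supported _ _ h

theorem supp_mono {α : Type*} {P Q : α → Prop} (h : ∀ a, P a → Q a) : supp P ≤ supp Q := by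
  intro x hx
  rw [mem_supp] at hx ⊢
  exact fun a ha => h a (hx a ha)

/-- Induction principle for linear maps on supported chains. -/
theorem supp_induction {α : Type*} {P : α → Prop} {M : Type*} [AddCommGroup M] [Module F2 M]
    (S : Submodule F2 M) (f : (α →₀ F2) →ₗ[F2] M)
    (h : ∀ a, P a → f (single a 1) ∈ S) {x : α →₀ F2} (hx : x ∈ supp P) : f x ∈ S := by
  rw [mem_supp] at hx
  have hx' : x = x.sum fun a c => c • single a (1 : F2) := by
    conv_lhs => rw [← Finsupp.sum_single x]
    simp
  rw [hx', Finsupp.sum, map_sum]
  apply Submodule.sum_mem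
  intro a ha
  rw [map_smul]
  exact S.smul_mem _ (h a (hx a ha))

theorem supp_ext {α : Type*} {P : α → Prop} {M : Type*} [AddCommGroup M] [Module F2 M]
    (f g : (α →₀ F2) →ₗ[F2] M)
    (h : ∀ a, P a → f (single a 1) = g (single a 1)) {x : α →₀ F2} (hx : x ∈ supp P) :
    f x = g x := by
  have : (f - g) x ∈ (⊥ : Submodule F2 M) := by
    apply supp_induction _ _ _ hx
    intro a ha
    simp [h a ha]
  rw [Submodule.mem_bot, LinearMap.sub_apply, sub_eq_zero] at this
  exact this

end

end STop
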