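import Pool.Agent.Lib.P26f563.Defs

/-!
# Motion planners: upper bounds for topological complexity
-/

namespace EqTC

/-- A cover of `Y × Y` by `k` open sets with continuous motion planners. -/
def HasPlanner (Y : Type) [TopologicalSpace Y] (k : ℕ) : Prop :=
  ∃ U : Fin k → Set (Y × Y), (∀ i, IsOpen (U i)) ∧ (⋃ i, U i) = Set.univ ∧
    ∀ i, ∃ F : U i × unitInterval → Y, Continuous F ∧
      ∀ p, F (p, 0) = p.1.1 ∧ F (p, 1) = p.1.2

theorem HasPlanner.TC_le {Y : Type} [TopologicalSpace Y] {k : ℕ} (h : HasPlanner Y (k + 1)) :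
    TC Y ≤ k := by
  obtain ⟨U, hU, hcov, hs⟩ := h
  apply sInf_le
  refine ⟨k, rfl, U, hU, hcov, fun i => ?_⟩
  obtain ⟨F, hF, hF2⟩ := hs i
  exact ⟨ContinuousMap.curry ⟨F, hF⟩, hF2⟩

theorem HasPlanner.retract {Y Z : Type} [TopologicalSpace Y] [TopologicalSpace Z] {k : ℕ}
    (h : HasPlanner Y k) (i : C(Z, Y)) (r : C(Y, Z)) (hr : ∀ z, r (i z) = z) :
    HasPlanner Z k := by
  obtain ⟨U, hU, hcov, hs⟩ := h
  refine ⟨fun j => (Prod.map i i) ⁻¹' U j,
    fun j => (hU j).preimage (i.continuous.prodMap i.continuous), ?_, fun j => ?_⟩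
  · rw [← Set.preimage_iUnion, hcov, Set.preimage_univ]
  · obtain ⟨F, hF, hF2⟩ := hs j
    refine ⟨fun p => r (F (⟨Prod.map i i p.1.1, p.1.2⟩, p.2)), ?_, fun p => ?_⟩
    · apply r.continuous.comp
      apply hF.comp
      apply Continuous.prodMk _ continuous_snd
      exact ((i.continuous.prodMap i.continuous).comp
        (continuous_subtype_val.comp continuous_fst)).subtype_mk _
    · refine ⟨?_, ?_⟩
      · change r (F (_, 0)) = _
        rw [(hF2 _).1]
        exact hr _
      · change r (F (_, 1)) = _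
        rw [(hF2 _).2]
        exact hr _

theorem HasPlanner.prod {Y Z : Type} [TopologicalSpace Y] [TopologicalSpace Z] {k l : ℕ}
    (h : HasPlanner Y k) (h' : HasPlanner Z l) : HasPlanner (Y × Z) (k * l) := by
  obtain ⟨U, hU, hcov, hs⟩ := h
  obtain ⟨U', hU', hcov', hs'⟩ := h'
  let V : Fin k × Fin l → Set ((Y × Z) × (Y × Z)) := fun ij =>
    {p | (p.1.1, p.2.1) ∈ U ij.1 ∧ (p.1.2, p.2.2) ∈ U' ij.2}
  have hc1 : Continuous fun p : (Y × Z) × (Y × Z) => (p.1.1, p.2.1) := by fun_prop
  have hc2 : Continuous fun p : (Y × Z) × (Y × Z) => (p.1.2, p.2.2) := by fun_prop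
  refine ⟨fun i => V (finProdFinEquiv.symm i), fun i => ?_, ?_, fun i => ?_⟩
  · exact ((hU _).preimage hc1).inter ((hU' _).preimage hc2)
  · rw [Set.eq_univ_iff_forall]
    intro p
    have h1 : (p.1.1, p.2.1) ∈ ⋃ i, U i := by rw [hcov]; trivial
    have h2 : (p.1.2, p.2.2) ∈ ⋃ i, U' i := by rw [hcov']; trivial
    obtain ⟨i, hi⟩ := Set.mem_iUnion.1 h1
    obtain ⟨j, hj⟩ := Set.mem_iUnion.1 h2
    refine Set.mem_iUnion.2 ⟨finProdFinEquiv (i, j), ?_⟩
    rw [Equiv.symm_apply_apply]
    exact ⟨hi, hj⟩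
  · obtain ⟨F, hF, hF2⟩ := hs (finProdFinEquiv.symm i).1
    obtain ⟨F', hF', hF2'⟩ := hs' (finProdFinEquiv.symm i).2
    refine ⟨fun p => (F (⟨(p.1.1.1.1, p.1.1.2.1), p.1.2.1⟩, p.2),
      F' (⟨(p.1.1.1.2, p.1.1.2.2), p.1.2.2⟩, p.2)), ?_, fun p => ?_⟩
    · apply Continuous.prodMk
      · apply hF.comp
        apply Continuous.prodMk _ continuous_snd
        exact (hc1.comp (continuous_subtype_val.comp continuous_fst)).subtype_mk _
      · apply hF'.comp
        apply Continuous.prodMk _ continuous_snd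
        exact (hc2.comp (continuous_subtype_val.comp continuous_fst)).subtype_mk _
    · constructor
      · change (F (_, 0), F' (_, 0)) = _
        rw [(hF2 _).1, (hF2' _).1]
      · change (F (_, 1), F' (_, 1)) = _
        rw [(hF2 _).2, (hF2' _).2]

section sphere

variable {K : Type} [NormedAddCommGroup K] [NormedSpace ℝ K]

/-- Radial projection to the sphere. -/
noncomputable def nz (v : {v : K // v ≠ 0}) : Metric.sphere (0 : K) 1 :=
  ⟨‖v.1‖⁻¹ • v.1, by
    rw [mem_sphere_zero_iff_norm, norm_smul, norm_inv, norm_norm,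
      inv_mul_cancel₀ (norm_ne_zero_iff.2 v.2)]⟩

theorem continuous_nz : Continuous (nz : {v : K // v ≠ 0} → Metric.sphere (0 : K) 1) := by
  apply Continuous.subtype_mk
  apply Continuous.smul _ continuous_subtype_val
  apply Continuous.inv₀ (continuous_subtype_val.norm)
  intro v
  exact norm_ne_zero_iff.2 v.2

theorem nz_of_norm_one (v : {v : K // v ≠ 0}) (h : ‖v.1‖ = 1) : (nz v : K) = v.1 := by
  change ‖v.1‖⁻¹ • v.1 = v.1
  rw [h, inv_one, one_smul]

omit [NormedSpace ℝ K] in
theorem sphere_norm (a : Metric.sphere (0 : K) 1) : ‖(a : K)‖ = 1 :=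
  mem_sphere_zero_iff_norm.1 a.2

theorem segment_ne_zero {a b : K} (ha : ‖a‖ = 1) (hb : ‖b‖ = 1) (hab : a ≠ -b)
    (t : unitInterval) : ((1 : ℝ) - t) • a + (t : ℝ) • b ≠ 0 := by
  intro h
  have h1 : ((1 : ℝ) - t) • a = -((t : ℝ) • b) := eq_neg_of_add_eq_zero_left h
  have h2 := congrArg norm h1
  rw [norm_neg, norm_smul, norm_smul, ha, hb, mul_one, mul_one, Real.norm_eq_abs,
    Real.norm_eq_abs, abs_of_nonneg t.2.1, abs_of_nonneg (by linarith [t.2.2])] at h2
  have ht : (t : ℝ) = 1 / 2 := by linarith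
  rw [ht] at h1
  apply hab
  have h3 : ((1 : ℝ) / 2) • a = ((1 : ℝ) / 2) • (-b) := by
    rw [smul_neg, ← h1]
    norm_num
  exact smul_right_injective K (by norm_num : (1 : ℝ) / 2 ≠ 0) h3

/-- The planner along the shortest arc. -/
noncomputable def shortArc (p : {p : K × K // ‖p.1‖ = 1 ∧ ‖p.2‖ = 1 ∧ p.1 ≠ -p.2} × unitInterval) :
    Metric.sphere (0 : K) 1 :=
  nz ⟨((1 : ℝ) - p.2) • p.1.1.1 + (p.2 : ℝ) • p.1.1.2,
    segment_ne_zero p.1.2.1 p.1.2.2.1 p.1.2.2.2 p.2⟩

theorem continuous_shortArc : Continuous (shortArc (K := K)) := by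
  apply continuous_nz.comp
  apply Continuous.subtype_mk
  fun_prop

theorem shortArc_zero (p : {p : K × K // ‖p.1‖ = 1 ∧ ‖p.2‖ = 1 ∧ p.1 ≠ -p.2}) :
    (shortArc (p, 0) : K) = p.1.1 := by
  unfold shortArc
  rw [nz_of_norm_one]
  · simp
  · simp only [Set.Icc.coe_zero, sub_zero, one_smul, zero_smul, add_zero]
    exact p.2.1

theorem shortArc_one (p : {p : K × K // ‖p.1‖ = 1 ∧ ‖p.2‖ = 1 ∧ p.1 ≠ -p.2}) :
    (shortArc (p, 1) : K) = p.1.2 := by
  unfold shortArc
  rw [nz_of_norm_one]
  · simp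
  · simp only [Set.Icc.coe_one, sub_self, one_smul, zero_smul, zero_add]
    exact p.2.2.1

end sphere

/-- The unit sphere of a complex normed space has a motion planner with two domains. -/
theorem hasPlanner_sphere (K : Type) [NormedAddCommGroup K] [NormedSpace ℂ K] :
    HasPlanner (Metric.sphere (0 : K) 1) 2 := by
  let U : Fin 2 → Set (Metric.sphere (0 : K) 1 × Metric.sphere (0 : K) 1) :=
    fun i => if i = 0 then {p | (p.1 : K) ≠ -(p.2 : K)} else {p | (p.1 : K) ≠ (p.2 : K)}
  have hne : ∀ a : Metric.sphere (0 : K) 1, (a : K) ≠ -(a : K) := by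
    intro a h
    have h1 : (2 : ℂ) • (a : K) = 0 := by
      rw [two_smul]
      nth_rw 1 [h]
      simp
    rw [smul_eq_zero] at h1
    rcases h1 with h1 | h1
    · exact absurd h1 (by norm_num)
    · have := sphere_norm a
      rw [h1, norm_zero] at this
      exact zero_ne_one this
  have hc1 : Continuous fun p : Metric.sphere (0 : K) 1 × Metric.sphere (0 : K) 1 => (p.1 : K) :=
    by fun_prop
  have hc2 : Continuous fun p : Metric.sphere (0 : K) 1 × Metric.sphere (0 : K) 1 => (p.2 : K) :=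
    by fun_prop
  refine ⟨U, ?_, ?_, ?_⟩
  · intro i
    fin_cases i
    · exact isOpen_ne_fun hc1 hc2.neg
    · exact isOpen_ne_fun hc1 hc2
  · rw [Set.eq_univ_iff_forall]
    intro p
    rw [Set.mem_iUnion]
    by_cases h : (p.1 : K) = -(p.2 : K)
    · refine ⟨1, ?_⟩
      change (p.1 : K) ≠ (p.2 : K)
      rw [h]
      exact fun h2 => hne p.2 h2.symm
    · exact ⟨0, h⟩
  · intro i
    fin_cases i
    · refine ⟨fun p => shortArc (⟨((p.1.1.1 : K), (p.1.1.2 : K)), sphere_norm _, sphere_norm _,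
        p.1.2⟩, p.2), ?_, fun p => ?_⟩
      · apply continuous_shortArc.comp
        apply Continuous.prodMk _ continuous_snd
        apply Continuous.subtype_mk
        fun_prop
      · constructor
        · apply Subtype.ext
          exact shortArc_zero _
        · apply Subtype.ext
          exact shortArc_one _
    · have hneg : ∀ p : U 1, ‖((p.1.1 : K), -(p.1.2 : K)).1‖ = 1 ∧
          ‖((p.1.1 : K), -(p.1.2 : K)).2‖ = 1 ∧
          ((p.1.1 : K), -(p.1.2 : K)).1 ≠ -((p.1.1 : K), -(p.1.2 : K)).2 := by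
        intro p
        refine ⟨sphere_norm _, ?_, ?_⟩
        · change ‖-(p.1.2 : K)‖ = 1
          rw [norm_neg]
          exact sphere_norm _
        · change (p.1.1 : K) ≠ - -(p.1.2 : K)
          rw [neg_neg]
          exact p.2
      refine ⟨fun p => ⟨Complex.exp (((p.2 : ℝ) * Real.pi : ℝ) * Complex.I) •
        (shortArc (⟨((p.1.1.1 : K), -(p.1.1.2 : K)), hneg p.1⟩, p.2) : K), ?_⟩, ?_, fun p => ?_⟩
      · rw [mem_sphere_zero_iff_norm, norm_smul, Complex.norm_exp_ofReal_mul_I, sphere_norm,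
          mul_one]
      · apply Continuous.subtype_mk
        apply Continuous.smul
        · fun_prop
        · apply continuous_subtype_val.comp
          apply continuous_shortArc.comp
          apply Continuous.prodMk _ continuous_snd
          apply Continuous.subtype_mk
          fun_prop
      · constructor
        · apply Subtype.ext
          change Complex.exp ((((0 : unitInterval) : ℝ) * Real.pi : ℝ) * Complex.I) •
            ((shortArc (_, 0) : Metric.sphere (0 : K) 1) : K) = _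
          rw [shortArc_zero]
          simp
        · apply Subtype.ext
          change Complex.exp ((((1 : unitInterval) : ℝ) * Real.pi : ℝ) * Complex.I) •
            ((shortArc (_, 1) : Metric.sphere (0 : K) 1) : K) = _
          rw [shortArc_one]
          simp only [Set.Icc.coe_one, one_mul, Complex.exp_pi_mul_I, smul_neg, neg_smul,
            one_smul, neg_neg]

end EqTC
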