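import Pool.Agent.Lib.P26f563.Equi
import Pool.Agent.Lib.P26f563.Planner

/-!
# The antipodal chains on a sphere and the powers of the degree one class
-/

open Finsupp

namespace STop

section lists

variable {K : Type} [NormedAddCommGroup K] [NormedSpace ℝ K]

/-- Iterated cones over the antipodal double. -/
noncomputable def jc (b : ℕ → K) : ℕ → LC K
  | 0 => single [b 0] 1
  | (n + 1) => cone (b (n + 1)) (jc b n + mapL (fun v => -v) (jc b n))

omit [NormedSpace ℝ K] in
theorem mapL_neg_neg (x : LC K) : mapL (fun v => -v) (mapL (fun v => -v) x) = x := by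
  rw [mapL_mapL]
  have : ((fun v : K => -v) ∘ fun v => -v) = id := by
    funext v; simp
  rw [this, mapL_id]

omit [NormedSpace ℝ K] in
theorem bd_jc_sym (b : ℕ → K) (n : ℕ) :
    bd (jc b n + mapL (fun v => -v) (jc b n)) = 0 ∧
      bd (jc b (n + 1)) = jc b n + mapL (fun v => -v) (jc b n) := by
  induction n with
  | zero =>
    have h1 : bd (jc b 0 + mapL (fun v => -v) (jc b 0)) = 0 := by
      simp only [jc, mapL_single, map_add, bd_single, List.map_cons, List.map_nil, bd1_cons,
        bd1_nil, map_zero, add_zero]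
      exact add_self_eq_zero' _
    refine ⟨h1, ?_⟩
    change bd (cone (b 1) (jc b 0 + mapL (fun v => -v) (jc b 0))) = _
    rw [bd_cone, h1, map_zero, add_zero]
  | succ n ih =>
    have h1 : bd (jc b (n + 1) + mapL (fun v => -v) (jc b (n + 1))) = 0 := by
      rw [map_add, ← mapL_bd, ih.2, map_add, mapL_neg_neg]
      rw [add_comm (mapL _ (jc b n)) (jc b n), add_self_eq_zero']
    refine ⟨h1, ?_⟩
    rw [jc, bd_cone, h1, map_zero, add_zero]

/-- Lists on which some linear functional is constantly one. -/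
def Good (bs : ℕ → K →ₗ[ℝ] ℝ) (d n : ℕ) (l : List K) : Prop :=
  (∀ v ∈ l, ∀ k, n < k → k < d → bs k v = 0) ∧ ∃ φ : K →ₗ[ℝ] ℝ, ∀ v ∈ l, φ v = 1

theorem jc_good {b : ℕ → K} {bs : ℕ → K →ₗ[ℝ] ℝ} {d : ℕ}
    (hb : ∀ i j, i < d → j < d → bs i (b j) = if i = j then 1 else 0) (n : ℕ) (hn : n < d) :
    jc b n ∈ supp (Good bs d n) := by
  induction n with
  | zero =>
    apply single_mem_supp (P := Good bs d 0)
    refine ⟨fun v hv k hk hkd => ?_, bs 0, fun v hv => ?_⟩
    · rw [List.mem_singleton.1 hv, hb k 0 hkd hn, if_neg (by omega)]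
    · rw [List.mem_singleton.1 hv, hb 0 0 hn hn, if_pos rfl]
  | succ n ih =>
    have ih' := ih (by omega)
    have h1 : jc b n + mapL (fun v => -v) (jc b n) ∈ supp (Good bs d n) := by
      apply Submodule.add_mem _ ih'
      refine supp_induction _ (mapL fun v => -v) ?_ ih'
      rintro l ⟨hl1, φ, hφ⟩
      rw [mapL_single]
      apply single_mem_supp (P := Good bs d n)
      refine ⟨fun v hv k hk hkd => ?_, -φ, fun v hv => ?_⟩
      · obtain ⟨w, hw, rfl⟩ := List.mem_map.1 hv
        rw [map_neg, hl1 w hw k hk hkd, neg_zero]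
      · obtain ⟨w, hw, rfl⟩ := List.mem_map.1 hv
        rw [LinearMap.neg_apply, map_neg, neg_neg, hφ w hw]
    rw [jc]
    refine supp_induction _ (cone (b (n + 1))) ?_ h1
    rintro l ⟨hl1, φ, hφ⟩
    rw [cone_single]
    apply single_mem_supp (P := Good bs d (n + 1))
    refine ⟨fun v hv k hk hkd => ?_, φ + (1 - φ (b (n + 1))) • bs (n + 1), fun v hv => ?_⟩
    · rcases List.mem_cons.1 hv with h | h
      · rw [h, hb k (n + 1) hkd hn, if_neg (by omega)]
      · exact hl1 v h k (by omega) hkd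
    · rw [LinearMap.add_apply, LinearMap.smul_apply, smul_eq_mul]
      rcases List.mem_cons.1 hv with h | h
      · rw [h, hb (n + 1) (n + 1) hn hn, if_pos rfl]
        ring
      · rw [hφ v h, hl1 v h (n + 1) (by omega) hn, mul_zero, add_zero]

theorem aff_ne_zero {l : List K} (h : ∃ φ : K →ₗ[ℝ] ℝ, ∀ v ∈ l, φ v = 1) :
    (aff l).In ({0}ᶜ : Set K) := by
  obtain ⟨φ, hφ⟩ := h
  intro t ht
  have h1 : (aff l).map t = ∑ i, (t : Dl l.length) i • l.get i := rfl
  rw [Set.mem_singleton_iff, h1] at ht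
  have h2 := congrArg φ ht
  rw [map_sum, map_zero] at h2
  have h3 : ∀ i : Fin l.length, φ ((t : Dl l.length) i • l.get i) = (t : Dl l.length) i := by
    intro i
    rw [map_smul, hφ _ (List.get_mem l i), smul_eq_mul, mul_one]
  simp only [h3] at h2
  have h4 : ∑ i, (t : Dl l.length) i = 1 := stdSimplex.sum_eq_one _
  rw [h4] at h2
  exact one_ne_zero h2

/-- Negation on the complement of the origin. -/
def negC : C(K, K) := ⟨fun v => -v, continuous_neg⟩

theorem isAff_neg : IsAff (negC (K := K)) := by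
  intro k t p
  change -(∑ i, t i • p i) = ∑ i, t i • -(p i)
  rw [← Finset.sum_neg_distrib]
  simp

/-- Radial projection. -/
noncomputable def nzC : C(↥({0}ᶜ : Set K), Metric.sphere (0 : K) 1) :=
  ⟨fun v => EqTC.nz ⟨v.1, v.2⟩, EqTC.continuous_nz.comp
    (continuous_subtype_val.subtype_mk _)⟩

omit [NormedSpace ℝ K] in
theorem anti_mem (v : Metric.sphere (0 : K) 1) : -v.1 ∈ Metric.sphere (0 : K) 1 := by
  rw [mem_sphere_zero_iff_norm, norm_neg]; exact EqTC.sphere_norm v

/-- The antipodal map. -/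
def anti : C(Metric.sphere (0 : K) 1, Metric.sphere (0 : K) 1) :=
  ⟨fun v => ⟨-v.1, anti_mem v⟩, continuous_subtype_val.neg.subtype_mk _⟩

/-- The antipodal chains on the sphere. -/
noncomputable def sc (b : ℕ → K) (n : ℕ) : SC (Metric.sphere (0 : K) 1) :=
  push nzC (resS ({0}ᶜ : Set K) (affL (jc b n)))

theorem affL_mem {b : ℕ → K} {bs : ℕ → K →ₗ[ℝ] ℝ} {d : ℕ}
    (hb : ∀ i j, i < d → j < d → bs i (b j) = if i = j then 1 else 0) (n : ℕ) (hn : n < d) :
    affL (jc b n) ∈ CIn ({0}ᶜ : Set K) := by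
  refine supp_induction _ affL ?_ (jc_good hb n hn)
  rintro l ⟨_, hl⟩
  rw [affL_single]
  exact single_mem_CIn (aff_ne_zero hl)

theorem res_neg {y : SC K} (hy : y ∈ CIn ({0}ᶜ : Set K)) :
    push nzC (resS ({0}ᶜ : Set K) (push negC y)) =
      push anti (push nzC (resS ({0}ᶜ : Set K) y)) := by
  let neg' : C(↥({0}ᶜ : Set K), ↥({0}ᶜ : Set K)) :=
    ⟨fun v => ⟨-v.1, fun h => v.2 (by
      rw [Set.mem_singleton_iff] at h ⊢; exact neg_eq_zero.1 h)⟩,
      continuous_subtype_val.neg.subtype_mk _⟩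
  have h1 : push negC y = push (incl ({0}ᶜ : Set K)) (push neg' (resS ({0}ᶜ : Set K) y)) := by
    rw [push_push]
    have : (incl ({0}ᶜ : Set K)).comp neg' = negC.comp (incl _) := rfl
    rw [this, ← push_push, push_resS hy]
  rw [h1, resS_push, push_push, push_push]
  congr 2
  ext v : 1
  apply Subtype.ext
  change ‖-v.1‖⁻¹ • -v.1 = -(‖v.1‖⁻¹ • v.1)
  rw [norm_neg, smul_neg]

theorem bdS_sc {b : ℕ → K} {bs : ℕ → K →ₗ[ℝ] ℝ} {d : ℕ}
    (hb : ∀ i j, i < d → j < d → bs i (b j) = if i = j then 1 else 0) (n : ℕ) (hn : n + 1 < d) :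
    bdS (sc b (n + 1)) = sc b n + push anti (sc b n) := by
  unfold sc
  rw [← push_bdS, bdS_resS (affL_mem hb (n + 1) hn), bdS_affL, (bd_jc_sym b n).2, map_add, map_add,
    map_add]
  congr 1
  have : affL (mapL (fun v => -v) (jc b n)) = push negC (affL (jc b n)) :=
    (push_affL negC isAff_neg _).symm
  rw [this, res_neg (affL_mem hb n (by omega))]

theorem sc_zero {b : ℕ → K} {bs : ℕ → K →ₗ[ℝ] ℝ} {d : ℕ}
    (hb : ∀ i j, i < d → j < d → bs i (b j) = if i = j then 1 else 0) (hd : 0 < d) :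
    (oneS (sc b 0) : F2) = 1 := by
  unfold sc
  have h1 : (aff [b 0]).In ({0}ᶜ : Set K) :=
    aff_ne_zero ⟨bs 0, fun v hv => by rw [List.mem_singleton.1 hv, hb 0 0 hd hd, if_pos rfl]⟩
  rw [jc, affL_single, resS_single_of h1, push_single, oneS_single, if_pos]
  rfl

end lists

section powers

variable {E : Type*} [TopologicalSpace E]

/-- The functional of a function on points. -/
noncomputable def ptF (f : E → F2) : SC E →ₗ[F2] F2 :=
  lin fun σ => if h : σ.nv = 1 then f (σ.map (stdSimplex.vertex ⟨0, by omega⟩)) else 0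

theorem ptF_of_eq (f : E → F2) (σ : Sing E) (h : σ.nv = 1) :
    ptF f (single σ 1) = f (σ.map (stdSimplex.vertex ⟨0, by omega⟩)) := by
  rw [ptF, lin_single, dif_pos h]

theorem ptF_of_ne (f : E → F2) (σ : Sing E) (h : σ.nv ≠ 1) : ptF f (single σ 1) = 0 := by
  rw [ptF, lin_single, dif_neg h]

theorem ptF_red (f : E → F2) : Red (ptF f) := fun σ h => ptF_of_ne f σ (by omega)

theorem ptF_push {E' : Type*} [TopologicalSpace E'] (f : E' → F2) (φ : C(E, E')) :
    ptF f ∘ₗ push φ = ptF (f ∘ φ) := by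
  apply lin_ext; intro σ
  rw [LinearMap.comp_apply, push_single]
  by_cases h : σ.nv = 1
  · rw [ptF_of_eq f (σ.push φ) h, ptF_of_eq _ σ h]
    rfl
  · rw [ptF_of_ne f (σ.push φ) h, ptF_of_ne _ σ h]

theorem ptF_add (f f' : E → F2) : ptF (f + f') = ptF f + ptF f' := by
  apply lin_ext; intro σ
  rw [LinearMap.add_apply]
  by_cases h : σ.nv = 1
  · rw [ptF_of_eq _ σ h, ptF_of_eq _ σ h, ptF_of_eq _ σ h]
    rfl
  · rw [ptF_of_ne _ σ h, ptF_of_ne _ σ h, ptF_of_ne _ σ h, add_zero]

theorem ptF_one : ptF (fun _ : E => 1) = oneS := by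
  apply lin_ext; intro σ
  by_cases h : σ.nv = 1
  · rw [ptF_of_eq _ σ h, oneS_single, if_pos h]
  · rw [ptF_of_ne _ σ h, oneS_single, if_neg h]

theorem del_oneS : del (oneS : SC E →ₗ[F2] F2) = 0 := by
  apply lin_ext; intro σ
  rw [del_apply, bdS_single, ← LinearMap.comp_apply, oneS_realL, STop.univ, bd_single]
  have key : ∀ l : List (Fin σ.nv), (oneL (bd1 l) : F2) = 0 := by
    intro l
    match l with
    | [] => simp
    | [a] =>
      rw [bd1_cons, bd1_nil, map_zero, add_zero, oneL_single, if_neg (by simp)]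
    | [a, b] =>
      rw [bd1_cons, bd1_cons, bd1_nil, map_zero, add_zero, cone_single, map_add, oneL_single,
        oneL_single, if_pos (by simp), if_pos (by simp), F2.add_self]
    | a :: b :: c :: l =>
      have h1 : oneL (bd1 (a :: b :: c :: l)) ∈ (⊥ : Submodule F2 F2) := by
        refine supp_induction ⊥ oneL ?_ (bd1_len a (b :: c :: l))
        intro q hq
        rw [oneL_single, if_neg (by rw [hq]; simp)]
        exact Submodule.zero_mem _
      exact h1
  exact key _

/-- A locally constant function has zero coboundary. -/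
theorem del_ptF_of_locConst (f : E → F2) (hf : ∀ σ : Sing E, ∀ t t', f (σ.map t) = f (σ.map t')) :
    del (ptF f) = 0 := by
  apply lin_ext; intro σ
  rw [del_apply]
  rcases Nat.eq_zero_or_pos σ.nv with h0 | h0
  · rw [bdS_single_zero h0, map_zero]; rfl
  · set v0 : Dl σ.nv := stdSimplex.vertex ⟨0, h0⟩ with hv0
    -- on the faces of `σ`, `ptF f` is `f (σ v0)` times the unit cochain
    have h1 : ptF f ∘ₗ realL σ = f (σ.map v0) • (oneS ∘ₗ realL σ) := by
      apply lin_ext; intro l
      rw [LinearMap.comp_apply, LinearMap.smul_apply, LinearMap.comp_apply, realL_single]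
      by_cases h : (σ.sub l).nv = 1
      · rw [ptF_of_eq _ _ h, oneS_single, if_pos h, smul_eq_mul, mul_one]
        exact hf σ _ _
      · rw [ptF_of_ne _ _ h, oneS_single, if_neg h, smul_zero]
    rw [bdS_single, ← LinearMap.comp_apply, h1, LinearMap.smul_apply, LinearMap.comp_apply,
      ← bdS_single, ← del_apply, del_oneS]
    simp

/-- Powers of the cochain `δ f`. -/
noncomputable def xpow (f : E → F2) : ℕ → (SC E →ₗ[F2] F2)
  | 0 => oneS
  | (n + 1) => cupS (xpow f n) (del (ptF f))

theorem del_red (c : SC E →ₗ[F2] F2) : Red (del c) := by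
  intro σ hσ
  rw [del_apply, bdS_single_zero hσ, map_zero]

theorem oneS_red : Red (oneS : SC E →ₗ[F2] F2) := by
  intro σ hσ
  rw [oneS_single, if_neg (by omega)]

theorem cupS_red (c d : SC E →ₗ[F2] F2) : Red (cupS c d) := by
  intro σ hσ
  rw [cupS_single, STop.univ, cup_single]
  have : List.finRange σ.nv = [] := by
    apply List.length_eq_zero_iff.1
    simp [hσ]
  rw [this, cup1_nil]

theorem xpow_red (f : E → F2) (n : ℕ) : Red (xpow f n) := by
  cases n with
  | zero => exact oneS_red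
  | succ n => exact cupS_red _ _

theorem del_xpow (f : E → F2) (n : ℕ) : del (xpow f n) = 0 := by
  induction n with
  | zero => exact del_oneS
  | succ n ih =>
    have h1 : Red (del (ptF f)) := del_red _
    have := cupS_bdS (xpow_red f n) h1
    change del (cupS (xpow f n) (del (ptF f))) = cupS (del (xpow f n)) (del (ptF f)) +
      cupS (xpow f n) (del (del (ptF f))) at this
    rw [xpow, this, ih, del_del]
    have z1 := cupS_add_left (0 : SC E →ₗ[F2] F2) 0 (del (ptF f))
    have z2 := cupS_add_right (xpow f n) (0 : SC E →ₗ[F2] F2) 0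
    rw [add_zero, add_self_eq_zero'] at z1 z2
    rw [z1, z2, add_zero]

theorem ptF_push_anti {f : E → F2} {α : C(E, E)} (hf : ∀ e, f (α e) = f e + 1) :
    ptF f ∘ₗ push α = ptF f + oneS := by
  rw [ptF_push]
  have : f ∘ α = f + fun _ => 1 := by
    funext e
    exact hf e
  rw [this, ptF_add, ptF_one]

theorem del_ptF_push {f : E → F2} {α : C(E, E)} (hf : ∀ e, f (α e) = f e + 1) :
    del (ptF f) ∘ₗ push α = del (ptF f) := by
  have h1 : del (ptF f) ∘ₗ push α = del (ptF f ∘ₗ push α) := by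
    apply LinearMap.ext; intro x
    rw [LinearMap.comp_apply, del_apply, del_apply, LinearMap.comp_apply, push_bdS]
  rw [h1, ptF_push_anti hf, map_add, del_oneS, add_zero]

theorem xpow_push {f : E → F2} {α : C(E, E)} (hf : ∀ e, f (α e) = f e + 1) (n : ℕ) :
    xpow f n ∘ₗ push α = xpow f n := by
  induction n with
  | zero =>
    apply lin_ext; intro σ
    rw [LinearMap.comp_apply, push_single, xpow, oneS_single, oneS_single]
  | succ n ih =>
    rw [xpow, ← cupS_push, ih, del_ptF_push hf]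

theorem xpow_eval {f : E → F2} {α : C(E, E)} (hf : ∀ e, f (α e) = f e + 1) (e : ℕ → SC E) (N : ℕ)
    (he : ∀ n, n < N → bdS (e (n + 1)) = e n + push α (e n)) (h0 : (oneS (e 0) : F2) = 1) (n : ℕ)
    (hn : n ≤ N) : xpow f n (e n) = 1 := by
  induction n with
  | zero => exact h0
  | succ n ih =>
    have ih' := ih (by omega)
    have h1 := cupS_bdS (xpow_red f n) (ptF_red f)
    have z : xpow f n ∘ₗ bdS = 0 := del_xpow f n
    have z1 := cupS_add_left (0 : SC E →ₗ[F2] F2) 0 (ptF f)
    rw [add_zero, add_self_eq_zero'] at z1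
    rw [z, z1, zero_add] at h1
    have h2 : xpow f (n + 1) = cupS (xpow f n) (ptF f) ∘ₗ bdS := by
      rw [h1]; rfl
    have h3 : cupS (xpow f n) (ptF f) ∘ₗ push α =
        cupS (xpow f n) (ptF f) + xpow f n := by
      rw [← cupS_push, xpow_push hf, ptF_push_anti hf, cupS_add_right, cupS_one (xpow_red f n)]
    have h4 : cupS (xpow f n) (ptF f) (push α (e n)) =
        cupS (xpow f n) (ptF f) (e n) + xpow f n (e n) := by
      have := congrArg (fun g => g (e n)) h3
      exact this
    rw [h2, LinearMap.comp_apply, he n (by omega), map_add, h4, ih', ← add_assoc, F2.add_self,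
      zero_add]

end powers

end STop
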