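import Pool.Agent.Lib.P26f563.Theory3
import Pool.Agent.Lib.P26f563.SphereChain
import Pool.Agent.Lib.P26f563.ExampleDefs

/-!
# The computation
-/

open Finsupp STop

namespace EqTC

/-! ### The degree one class of a free involution -/

section xi

variable {Y Z : GSpace ℤˣ}

theorem cls_mem_Deg {f : Y → F2} (σ : Sing Y) (h : (σ.nv : ℤ) ≠ 1 + 1) :
    del (ptF f) (single σ 1) = 0 := by
  rw [del_apply]
  rcases Nat.eq_zero_or_pos σ.nv with h0 | h0
  · rw [bdS_single_zero h0, map_zero]
  · obtain ⟨k, hk⟩ : ∃ k, σ.nv = k + 1 := ⟨σ.nv - 1, by omega⟩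
    have h1 := bdS_single_mem hk
    have h2 : ptF f (bdS (single σ 1)) ∈ (⊥ : Submodule F2 F2) := by
      refine supp_induction ⊥ (ptF f) ?_ h1
      intro τ hτ
      rw [ptF_of_ne f τ (by omega)]
      exact Submodule.zero_mem _
    exact h2

/-- Functionals invariant under `-1` vanish on `KG`. -/
theorem vanish_KG {c : SC Y →ₗ[F2] F2} (h : c ∘ₗ push (STop.act ℤˣ (-1 : ℤˣ)) = c) :
    ∀ x ∈ KG ℤˣ Y, c x = 0 := by
  have : KG ℤˣ Y ≤ LinearMap.ker c := by
    apply Submodule.span_le.2
    rintro z ⟨g, x, rfl⟩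
    change c _ = 0
    rw [map_add, add_eq_zero_iff_eq']
    rcases Int.units_eq_one_or g with rfl | rfl
    · have : STop.act (X := Y) ℤˣ (1 : ℤˣ) = ContinuousMap.id Y := by
        ext x
        exact one_smul _ x
      rw [this, push_id]
    · exact congrArg (fun g => g x) h
  exact fun x hx => this hx

theorem vanish_empty {c : SC Y →ₗ[F2] F2} (h : Red c) :
    ∀ x ∈ CIn (GSub.empty Y).set, c x = 0 := by
  intro x hx
  have hx' : x ∈ Deg Y 0 := by
    have : CIn (GSub.empty Y).set = Deg Y 0 := CIn_empty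
    rwa [this] at hx
  have : c x ∈ (⊥ : Submodule F2 F2) := by
    refine supp_induction ⊥ c ?_ hx'
    intro σ hσ
    rw [h σ hσ]
    exact Submodule.zero_mem _
  exact this

theorem xi_mem {f : Y → F2} (hf : ∀ y : Y, f ((-1 : ℤˣ) • y) = f y + 1) :
    del (ptF f) ∈ Zn 1 (NA Y (GSub.empty Y)) := by
  rw [mem_Zn, Cn_iff]
  refine ⟨⟨vanish_NA (vanish_empty (del_red _)) (vanish_KG ?_), cls_mem_Deg⟩, del_del _⟩
  exact del_ptF_push (α := STop.act ℤˣ (-1 : ℤˣ)) hf

theorem ptF_mem {f : Y → F2} (hf : ∀ y : Y, f ((-1 : ℤˣ) • y) = f y) :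
    ptF f ∈ Cn 0 (NA Y (GSub.empty Y)) := by
  rw [Cn_iff]
  refine ⟨vanish_NA (vanish_empty (ptF_red _)) (vanish_KG ?_), ?_⟩
  · rw [ptF_push]
    congr 1
    funext y
    exact hf y
  · intro σ hσ
    apply ptF_of_ne
    intro h
    apply hσ
    rw [h]
    norm_num

theorem xi_pull (φ : GMap Z Y) {f : Y → F2} (hf : ∀ y : Y, f ((-1 : ℤˣ) • y) = f y + 1)
    (hf' : ∀ z : Z, (f ∘ φ.map) ((-1 : ℤˣ) • z) = (f ∘ φ.map) z + 1) :
    pullG φ (GSub.maps_empty _ _) (cls (del (ptF f)) (xi_mem hf)) =
      cls (del (ptF (f ∘ φ.map))) (xi_mem hf') := by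
  rw [pullG_cls]
  apply cls_congr
  rw [(grMap_push φ.map).dual_del]
  congr 1
  exact ptF_push f φ.map

theorem xi_eq_zero {f f' : Y → F2} (hf : ∀ y : Y, f ((-1 : ℤˣ) • y) = f y + 1)
    (hf' : ∀ y : Y, f' ((-1 : ℤˣ) • y) = f' y + 1)
    (hloc : ∀ σ : Sing Y, ∀ t t', f' (σ.map t) = f' (σ.map t')) :
    cls (del (ptF f)) (xi_mem hf) = 0 := by
  rw [cls_eq_zero_iff, mem_Bn]
  have h0 : (1 : ℤ) - 1 = 0 := by norm_num
  rw [h0]
  refine ⟨ptF (f + f'), ptF_mem ?_, ?_⟩
  · intro y
    change f _ + f' _ = f y + f' y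
    rw [hf, hf']
    have := F2.add_self (1 : F2)
    linear_combination this
  · rw [ptF_add, map_add, del_ptF_of_locConst f' hloc, add_zero]

theorem exists_free {Y : Type} (τ : Y → Y) (h2 : ∀ y, τ (τ y) = y) (hfree : ∀ y, τ y ≠ y) :
    ∃ f : Y → F2, ∀ y, f (τ y) = f y + 1 := by
  classical
  let s : Setoid Y :=
    { r := fun a b => a = b ∨ a = τ b
      iseqv :=
        { refl := fun a => Or.inl rfl
          symm := by
            rintro a b (h | h)
            · exact Or.inl h.symm
            · right; rw [h, h2]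
          trans := by
            rintro a b c (h | h) (h' | h')
            · left; rw [h, h']
            · right; rw [h, h']
            · right; rw [h, h']
            · left; rw [h, h', h2] } }
  refine ⟨fun y => if y = (Quotient.mk s y).out then 0 else 1, fun y => ?_⟩
  have hq : Quotient.mk s (τ y) = Quotient.mk s y := Quotient.sound (Or.inr rfl)
  have hrel : (Quotient.mk s y).out = y ∨ (Quotient.mk s y).out = τ y :=
    Quotient.mk_out (s := s) y
  change (if τ y = (Quotient.mk s (τ y)).out then (0 : F2) else 1) =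
    (if y = (Quotient.mk s y).out then 0 else 1) + 1
  rw [hq]
  rcases hrel with h | h
  · rw [h, if_pos rfl, if_neg (hfree y), zero_add]
  · rw [h, if_pos rfl, if_neg (Ne.symm (hfree y)), F2.add_self]

theorem xpow_mem {f : Y → F2} (hf : ∀ y : Y, f ((-1 : ℤˣ) • y) = f y + 1) (n : ℕ) :
    xpow f n ∈ Zn (n : ℤ) (NA Y (GSub.empty Y)) := by
  induction n with
  | zero => exact oneS_mem Y
  | succ n ih =>
    have := cup_mem_Zn (r := ((n + 1 : ℕ) : ℤ)) (by push_cast; ring) (Set.singleton_nonempty _)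
      (Set.singleton_nonempty _) ih (xi_mem hf)
    rwa [Set.union_self] at this

/-- The cup product of absolute classes. -/
theorem mul_cls {p q r : ℤ} (h : p + q = r) {c d : SC Y →ₗ[F2] F2}
    (hc : c ∈ Zn p (NA Y (GSub.empty Y))) (hd : d ∈ Zn q (NA Y (GSub.empty Y)))
    (hcd : cupS c d ∈ Zn r (NA Y (GSub.empty Y))) :
    (invCoh ℤˣ).mul h (cls c hc) (cls d hd) = cls (cupS c d) hcd := by
  have hw : cupS c d ∈ Zn r (NG ℤˣ {(GSub.empty Y).set ∪ (GSub.empty Y).set}) := by
    rwa [Set.union_self]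
  exact cupG_cls h (GSub.excisive_empty Y) (GSub.within_empty Y) hc hd hw (b := 0)
    (Submodule.zero_mem _) (by rw [map_zero, add_self_eq_zero'])

/-- Nonvanishing of the powers. -/
theorem xpow_cls_ne_zero {f : Y → F2} (hf : ∀ y : Y, f ((-1 : ℤˣ) • y) = f y + 1)
    (e : ℕ → SC Y) (N : ℕ)
    (he : ∀ n, n < N → bdS (e (n + 1)) = e n + push (STop.act ℤˣ (-1 : ℤˣ)) (e n))
    (h0 : (oneS (e 0) : F2) = 1) (hb0 : bdS (e 0) ∈ Deg Y 0) (n : ℕ) (hn : n ≤ N) :
    cls (xpow f n) (xpow_mem hf n) ≠ 0 := by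
  intro h
  rw [cls_eq_zero_iff, mem_Bn] at h
  obtain ⟨b, hb, hbx⟩ := h
  have h1 := xpow_eval (α := STop.act ℤˣ (-1 : ℤˣ)) hf e N he h0 n hn
  rw [← hbx, del_apply] at h1
  have h2 : bdS (e n) ∈ NA Y (GSub.empty Y) := by
    cases n with
    | zero => exact (adm_NA _).e0 hb0
    | succ n =>
      rw [he n (by omega), add_comm]
      exact KG_le_NG _ (mem_KG_gen ℤˣ _ _)
  rw [hb.1 _ h2] at h1
  exact zero_ne_one h1

end xi

/-! ### The example -/

section ex

variable {K : Type} [NormedAddCommGroup K] [NormedSpace ℂ K]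

/-- Points of the example. -/
def mkG (p : ExSpace K) : exG K := p

theorem ex_smul (p : exG K) : (-1 : ℤˣ) • p = mkG (exTau K p) := by
  change (if (-1 : ℤˣ) = 1 then p else mkG (exTau K p)) = mkG (exTau K p)
  rw [if_neg (by decide)]

theorem units_inv {Y : GSpace ℤˣ} {S : Set Y} (h : ∀ y ∈ S, (-1 : ℤˣ) • y ∈ S) :
    ∀ (g : ℤˣ) (y : Y), y ∈ S → g • y ∈ S := by
  intro g y hy
  rcases Int.units_eq_one_or g with rfl | rfl
  · rwa [one_smul]
  · exact h y hy

theorem conj_eq_one_iff (s : ℂ) : (starRingEnd ℂ) s = 1 ↔ s = 1 := by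
  constructor
  · intro h
    have := congrArg (starRingEnd ℂ) h
    rwa [Complex.conj_conj, map_one] at this
  · intro h
    rw [h, map_one]

theorem conj_eq_neg_one_iff (s : ℂ) : (starRingEnd ℂ) s = -1 ↔ s = -1 := by
  constructor
  · intro h
    have := congrArg (starRingEnd ℂ) h
    rwa [Complex.conj_conj, map_neg, map_one] at this
  · intro h
    rw [h, map_neg, map_one]

variable (K) in
/-- The region where the first coordinate is not `1`. -/
def exA : GSub (exG K) :=
  ⟨{p : exG K | ((p : ExSpace K).1 : ℂ) ≠ 1}, units_inv (Y := exG K) (by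
    intro p hp
    rw [ex_smul]
    intro h
    exact hp ((conj_eq_one_iff _).1 h))⟩

variable (K) in
/-- The part where the first coordinate is `-1`. -/
def exU : GSub (exG K) :=
  ⟨{p : exG K | ((p : ExSpace K).1 : ℂ) = -1}, units_inv (Y := exG K) (by
    intro p hp
    rw [ex_smul]
    exact (conj_eq_neg_one_iff _).2 hp)⟩

theorem exU_closure : closure (exU K).set ⊆ interior (exA K).set := by
  have hc : Continuous fun p : ExSpace K => (p.1 : ℂ) := by fun_prop
  have h1 : IsClosed (exU K).set := isClosed_eq hc continuous_const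
  have h2 : IsOpen (exA K).set := isOpen_ne_fun hc continuous_const
  rw [h1.closure_eq, h2.interior_eq]
  intro p hp h
  have hp' : ((p : ExSpace K).1 : ℂ) = -1 := hp
  rw [hp'] at h
  norm_num at h

/-- The complement of `exU`, on which the action is free. -/
noncomputable abbrev exB (K : Type) [NormedAddCommGroup K] [NormedSpace ℂ K] : GSpace ℤˣ :=
  (exU K).compl.toSpace

theorem sq_im_ne_zero {s : ℂ} (hs : ‖s‖ = 1) (h1 : s ≠ 1) (h2 : s ≠ -1) : s.im ≠ 0 := by
  intro him
  have h3 : s.re ^ 2 + s.im ^ 2 = 1 := by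
    have := Complex.sq_norm s
    rw [hs, Complex.normSq_apply] at this
    nlinarith
  rw [him] at h3
  have h4 : (s.re - 1) * (s.re + 1) = 0 := by nlinarith
  rcases mul_eq_zero.1 h4 with h | h
  · apply h1
    apply Complex.ext
    · simp; linarith
    · simp [him]
  · apply h2
    apply Complex.ext
    · simp; linarith
    · simp [him]

theorem exB_free (y : exB K) : (-1 : ℤˣ) • y ≠ y := by
  intro h
  have h1 := congrArg Subtype.val h
  have h2 : (-1 : ℤˣ) • (y.1 : (exG K).carrier) = y.1 := h1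
  rw [ex_smul] at h2
  set p : ExSpace K := y.1 with hp
  have h3 : (starRingEnd ℂ) (p.1 : ℂ) = (p.1 : ℂ) := congrArg (fun q : ExSpace K => (q.1 : ℂ)) h2
  have h4 : -((starRingEnd ℂ) (p.1 : ℂ) • (p.2 : K)) = (p.2 : K) :=
    congrArg (fun q : ExSpace K => (q.2 : K)) h2
  have h5 : (p.1 : ℂ) ≠ -1 := y.2
  have hnorm : ‖(p.1 : ℂ)‖ = 1 := mem_sphere_zero_iff_norm.1 p.1.2
  have him : (p.1 : ℂ).im = 0 := by
    have := congrArg Complex.im h3
    rw [Complex.conj_im] at this
    linarith
  have h6 : (p.1 : ℂ) = 1 := by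
    by_contra h7
    exact sq_im_ne_zero hnorm h7 h5 him
  rw [h3, h6, one_smul] at h4
  have h8 : (2 : ℂ) • (p.2 : K) = 0 := by
    rw [two_smul]
    nth_rw 1 [← h4]
    simp
  rw [smul_eq_zero] at h8
  rcases h8 with h8 | h8
  · exact absurd h8 (by norm_num)
  · have := mem_sphere_zero_iff_norm.1 p.2.2
    rw [h8, norm_zero] at this
    exact zero_ne_one this

theorem units_sq {Y : GSpace ℤˣ} (y : Y) : (-1 : ℤˣ) • (-1 : ℤˣ) • y = y := by
  rw [smul_smul]
  have : (-1 : ℤˣ) * -1 = 1 := by decide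
  rw [this, one_smul]

/-- A function on the free part changing under the involution. -/
theorem exists_exB : ∃ f : exB K → F2, ∀ y : exB K, f ((-1 : ℤˣ) • y) = f y + 1 :=
  exists_free (fun y : exB K => (-1 : ℤˣ) • y) units_sq exB_free

/-- The existence of the class `a`. -/
theorem exists_class {f : exB K → F2} (hf : ∀ y : exB K, f ((-1 : ℤˣ) • y) = f y + 1) :
    ∃ a : Hn 1 (NA (exG K) (GSub.empty _)),
      pullG (exA K).incl (A := GSub.empty _) (GSub.maps_empty _ _) a = 0 ∧
      pullG (exU K).compl.incl (A := GSub.empty _) (GSub.maps_empty _ _) a =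
        cls (del (ptF f)) (xi_mem hf) := by
  set A' : GSub (exB K) := (exA K).preimage (exU K).compl.incl with hA'
  -- the restriction of the class of the free part to the intersection is zero
  have h0 : pullG A'.incl (A := GSub.empty A'.toSpace) (GSub.maps_empty _ _)
      (cls (del (ptF f)) (xi_mem hf)) = 0 := by
    have hf' : ∀ z : A'.toSpace, (f ∘ A'.incl.map) ((-1 : ℤˣ) • z) = (f ∘ A'.incl.map) z + 1 := by
      intro z
      change f (A'.incl.map _) = f (A'.incl.map z) + 1
      rw [A'.incl.equi, hf]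
    rw [xi_pull A'.incl hf hf']
    let im : A'.toSpace → ℝ := fun z => ((z.1.1 : ExSpace K).1 : ℂ).im
    have him : Continuous im := by
      apply Complex.continuous_im.comp
      apply continuous_subtype_val.comp
      apply Continuous.fst
      exact continuous_subtype_val.comp continuous_subtype_val
    have himne : ∀ z, im z ≠ 0 := fun z =>
      sq_im_ne_zero (mem_sphere_zero_iff_norm.1 (z.1.1 : ExSpace K).1.2) z.2 z.1.2
    have himg : ∀ z : A'.toSpace, im ((-1 : ℤˣ) • z) = -im z := by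
      intro z
      have h1 : (((-1 : ℤˣ) • z).1.1 : ExSpace K) = exTau K (z.1.1 : ExSpace K) :=
        ex_smul z.1.1
      change ((((-1 : ℤˣ) • z).1.1 : ExSpace K).1 : ℂ).im = _
      rw [h1]
      exact Complex.conj_im _
    apply xi_eq_zero (f' := fun z => if 0 < im z then 1 else 0) hf'
    · intro z
      rw [himg]
      by_cases h : 0 < im z
      · rw [if_pos h, if_neg (by linarith), F2.add_self]
      · have h2 : 0 < -im z := by
          rcases lt_or_gt_of_ne (himne z) with h3 | h3
          · linarith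
          · exact absurd h3 h
        rw [if_pos h2, if_neg h, zero_add]
    · intro σ t t'
      have hcon : PreconnectedSpace (Dl σ.nv) := by
        have : Nonempty (Fin σ.nv) := by
          by_contra hne
          rw [not_nonempty_iff] at hne
          have h1 := t.2.2
          rw [Finset.univ_eq_empty, Finset.sum_empty] at h1
          exact zero_ne_one h1
        infer_instance
      have hcont : Continuous fun s => im (σ.map s) := him.comp σ.map.continuous
      have key : ∀ s s' : Dl σ.nv, 0 < im (σ.map s) → 0 < im (σ.map s') := by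
        intro s s' hs
        by_contra hs'
        have hr := mem_range_of_exists_le_of_exists_ge hcont (c := 0) ⟨s', not_lt.1 hs'⟩
          ⟨s, hs.le⟩
        obtain ⟨r, hr⟩ := hr
        exact himne _ hr
      by_cases h : 0 < im (σ.map t)
      · rw [if_pos h, if_pos (key t t' h)]
      · rw [if_neg h, if_neg (fun h' => h (key t' t h'))]
  obtain ⟨y, hy⟩ := (exact_spaceG A' (cls (del (ptF f)) (xi_mem hf))).1 h0
  obtain ⟨w, hw⟩ := (excisionG (n := 1) (exA K) (exU K) exU_closure).2 y
  refine ⟨pullG (GMap.id (exG K)) (GSub.maps_empty _ _) w, ?_, ?_⟩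
  · exact (exact_spaceG (exA K) _).2 ⟨w, rfl⟩
  · rw [← hy, ← hw]
    have e1 := pullG_comp (A := GSub.empty (exB K)) (exU K).compl.incl (GMap.id (exG K))
      (GSub.maps_empty _ (GSub.empty _)) (GSub.maps_empty _ (exA K)) (GSub.maps_empty _ _) w
    have e2 := pullG_comp (A := GSub.empty (exB K)) (B := A') (GMap.id (exB K))
      (exU K).compl.incl (GSub.maps_empty _ _) (fun _ h => h) (GSub.maps_empty _ _) w
    rw [← e1]
    exact e2

variable (K) in
/-- The sphere with the antipodal action. -/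
noncomputable def antiG : GSpace ℤˣ :=
  invSpace (Metric.sphere (0 : K) 1) anti (fun v => Subtype.ext (neg_neg _))

/-- Points of the sphere. -/
def mkAnti (v : Metric.sphere (0 : K) 1) : antiG K := v

theorem anti_smul (v : antiG K) : (-1 : ℤˣ) • v = mkAnti (anti v) := by
  change (if (-1 : ℤˣ) = 1 then v else mkAnti (anti v)) = mkAnti (anti v)
  rw [if_neg (by decide)]

/-- To check equivariance. -/
theorem units_equi {Y Z : GSpace ℤˣ} {φ : Y → Z} (h : ∀ y, φ ((-1 : ℤˣ) • y) = (-1 : ℤˣ) • φ y)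
    (g : ℤˣ) (y : Y) : φ (g • y) = g • φ y := by
  rcases Int.units_eq_one_or g with rfl | rfl
  · rw [one_smul, one_smul]
  · exact h y

/-- The point `1` of the circle. -/
def ptOne : Metric.sphere (0 : ℂ) 1 := ⟨1, by simp⟩

/-- The point `-1` of the circle. -/
def ptNeg : Metric.sphere (0 : ℂ) 1 := ⟨-1, by simp⟩

/-- The map `v ↦ (1, v)` to the free part. -/
noncomputable def jOne : GMap (antiG K) (exB K) :=
  ⟨⟨fun v => ⟨mkG (ptOne, v), by
      intro h
      have h' : (1 : ℂ) = -1 := h
      norm_num at h'⟩, by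
      apply Continuous.subtype_mk
      exact (continuous_const (y := ptOne)).prodMk continuous_id⟩,
    units_equi (by
      intro v
      apply Subtype.ext
      change mkG (ptOne, ((-1 : ℤˣ) • v)) = (-1 : ℤˣ) • (mkG (ptOne, v))
      rw [ex_smul, anti_smul]
      apply Prod.ext
      · apply Subtype.ext
        exact (map_one (starRingEnd ℂ)).symm
      · apply Subtype.ext
        change -(v.1 : K) = -((starRingEnd ℂ) (1 : ℂ) • (v.1 : K))
        rw [map_one, one_smul])⟩

/-- The constant map to the fixed point `(-1, v₀)`. -/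
noncomputable def jNeg (v₀ : Metric.sphere (0 : K) 1) : GMap (antiG K) (exA K).toSpace :=
  ⟨⟨fun _ => ⟨mkG (ptNeg, v₀), by
      change ((-1 : ℂ)) ≠ 1
      norm_num⟩, continuous_const⟩,
    units_equi (by
      intro v
      apply Subtype.ext
      change mkG (ptNeg, v₀) = (-1 : ℤˣ) • (mkG (ptNeg, v₀))
      rw [ex_smul]
      apply Prod.ext
      · apply Subtype.ext
        change (-1 : ℂ) = (starRingEnd ℂ) (-1)
        rw [map_neg, map_one]
      · apply Subtype.ext
        change (v₀.1 : K) = -((starRingEnd ℂ) (-1 : ℂ) • (v₀.1 : K))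
        rw [map_neg, map_one, neg_smul, one_smul, neg_neg])⟩

/-- First projection. -/
def pr₁ (X : GSpace ℤˣ) : GMap (X.prod X) X := ⟨⟨Prod.fst, continuous_fst⟩, fun _ _ => rfl⟩

/-- Second projection. -/
def pr₂ (X : GSpace ℤˣ) : GMap (X.prod X) X := ⟨⟨Prod.snd, continuous_snd⟩, fun _ _ => rfl⟩

/-- The pairing of two maps. -/
def pairMap {Y X : GSpace ℤˣ} (φ ψ : GMap Y X) : GMap Y (X.prod X) :=
  ⟨φ.map.prodMk ψ.map, fun g y => Prod.ext (φ.equi g y) (ψ.equi g y)⟩

theorem act_anti : STop.act (X := antiG K) ℤˣ (-1 : ℤˣ) = anti := by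
  ext v : 1
  exact anti_smul v

/-! ### Upper bounds for topological complexity -/

theorem mem_fixedSet_neg {H : Subgroup ℤˣ} {p : exG K} (h : (-1 : ℤˣ) ∈ H)
    (hp : p ∈ fixedSet (exG K) H) : ((p : ExSpace K).1 : ℂ) = -1 := by
  have h1 := hp _ h
  by_contra h2
  exact exB_free ⟨p, h2⟩ (Subtype.ext h1)

theorem fixedSet_mem_neg (H : Subgroup ℤˣ) (v : Metric.sphere (0 : K) 1) :
    mkG (ptNeg, v) ∈ fixedSet (exG K) H := by
  intro g _
  rcases Int.units_eq_one_or g with rfl | rfl
  · rw [one_smul]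
  · exact (congrArg Subtype.val ((jNeg v).equi (-1 : ℤˣ) (mkAnti v))).symm

theorem TC_fixedSet_le (H : Subgroup ℤˣ) :
    TC (fixedSet (exG K) H) ≤ ((3 : ℕ) : ℕ∞) := by
  have hX : HasPlanner (ExSpace K) (2 * 2) :=
    (hasPlanner_sphere ℂ).prod (hasPlanner_sphere K)
  by_cases h : (-1 : ℤˣ) ∈ H
  · -- the fixed set is a sphere
    have h1 : HasPlanner (fixedSet (exG K) H) 2 := by
      refine (hasPlanner_sphere K).retract
        ⟨fun p => (p.1 : ExSpace K).2, continuous_snd.comp continuous_subtype_val⟩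
        ⟨fun v => ⟨mkG (ptNeg, v), fixedSet_mem_neg H v⟩, ?_⟩ ?_
      · apply Continuous.subtype_mk
        exact (continuous_const (y := ptNeg)).prodMk continuous_id
      · intro p
        apply Subtype.ext
        apply Prod.ext
        · apply Subtype.ext
          exact (mem_fixedSet_neg h p.2).symm
        · rfl
    exact h1.TC_le.trans (by norm_num)
  · have h1 : HasPlanner (fixedSet (exG K) H) (2 * 2) := by
      have hfix : ∀ p : exG K, p ∈ fixedSet (exG K) H := by
        intro p g hg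
        rcases Int.units_eq_one_or g with rfl | rfl
        · rw [one_smul]
        · exact absurd hg h
      exact hX.retract ⟨Subtype.val, continuous_subtype_val⟩
        ⟨fun p => ⟨p, hfix p⟩, continuous_id.subtype_mk _⟩ (fun p => rfl)
    exact h1.TC_le (k := 3)

end ex

end EqTC
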