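import Pool.Agent.Lib.P26f563.Main

/-!
# The lower bound for the nilpotency
-/

open Finsupp STop

namespace EqTC

section abs

variable {G : Type} [Group G] [TopologicalSpace G] (h : MultCohomology G) {Y Z : GSpace G}

theorem pull_zero {n : ℤ} {A : GSub Y} {B : GSub Z} (j : GMap Y Z) (hj : j.Maps A B) :
    h.pull (n := n) j hj 0 = 0 := by
  have := h.pull_add (n := n) j hj 0 0
  rw [add_zero] at this
  exact (add_eq_left.1 this.symm)

theorem pull_mul (j : GMap Y Z) {p q r : ℤ} (hpq : p + q = r)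
    (z : h.H p Z (GSub.empty Z)) (w : h.H q Z (GSub.empty Z)) :
    h.pull j (A := GSub.empty _) (GSub.maps_empty _ _) (h.mul hpq z w) =
      h.mul hpq (h.pull j (A := GSub.empty _) (GSub.maps_empty _ (GSub.empty _)) z)
        (h.pull j (A := GSub.empty _) (GSub.maps_empty _ (GSub.empty _)) w) :=
  h.pull_cup hpq j _ _ _ _ _ _ _ z w

/-- Powers of a degree one class. -/
noncomputable def MultCohomology.pw (x : h.H 1 Y (GSub.empty Y)) :
    ∀ n : ℕ, h.H (n : ℤ) Y (GSub.empty Y)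
  | 0 => h.one Y
  | (n + 1) => h.mul (by push_cast; ring) (MultCohomology.pw x n) x

theorem powers (j : GMap Y Z) (y : h.H 1 Z (GSub.empty Z))
    (I : ∀ p : ℤ, h.H p Z (GSub.empty Z) → Prop) (hI : I 1 y) (n : ℕ) :
    ∃ z : h.H (n : ℤ) Z (GSub.empty Z), h.IsProd I n (n : ℤ) z ∧
      h.pull j (A := GSub.empty _) (GSub.maps_empty _ _) z =
      h.pw (h.pull j (A := GSub.empty _) (GSub.maps_empty _ _) y) n := by
  induction n with
  | zero => exact ⟨h.one _, CohData.IsProd.one, h.pull_one j⟩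
  | succ n ih =>
    obtain ⟨z, hz1, hz2⟩ := ih
    have hpq : (n : ℤ) + 1 = ((n + 1 : ℕ) : ℤ) := by push_cast; ring
    refine ⟨h.mul hpq z y, CohData.IsProd.mul hpq z y hz1 hI, ?_⟩
    rw [pull_mul, hz2]
    rfl

theorem le_nil (I : ∀ p : ℤ, h.H p Z (GSub.empty Z) → Prop)
    (n : ℕ) (p : ℤ) (z : h.H p Z (GSub.empty Z)) (hp : h.IsProd I n p z)
    (hz : z ≠ 0) : (n : ℕ∞) ≤ h.nil I :=
  le_iSup (fun n : {n : ℕ // ∃ p z, h.IsProd I n p z ∧ z ≠ 0} => ((n : ℕ) : ℕ∞))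
    ⟨n, p, z, hp, hz⟩

/-- Abstract lower bound. -/
theorem nil_ge_of_pw (j : GMap Y Z) (y : h.H 1 Z (GSub.empty Z))
    (I : ∀ p : ℤ, h.H p Z (GSub.empty Z) → Prop) (hI : I 1 y) (n : ℕ)
    (hn : h.pw (h.pull j (A := GSub.empty _) (GSub.maps_empty _ _) y) n ≠ 0) :
    (n : ℕ∞) ≤ h.nil I := by
  obtain ⟨z, hz1, hz2⟩ := powers h j y I hI n
  refine le_nil h I n _ z hz1 ?_
  rintro rfl
  rw [pull_zero] at hz2
  exact hn hz2.symm

end abs

theorem pw_cls {Y : GSpace ℤˣ} {f : Y → F2}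
    (hf : ∀ y : Y, f ((-1 : ℤˣ) • y) = f y + 1) (n : ℕ) :
    (invCoh ℤˣ).pw (cls (del (ptF f)) (xi_mem hf)) n = cls (xpow f n) (xpow_mem hf n) := by
  induction n with
  | zero => rfl
  | succ n ih =>
    change (invCoh ℤˣ).mul _ ((invCoh ℤˣ).pw (cls (del (ptF f)) (xi_mem hf)) n) _ = _
    rw [ih]
    exact mul_cls (by push_cast; ring) _ _ (xpow_mem hf (n + 1))

section ex

variable {K : Type} [NormedAddCommGroup K] [NormedSpace ℂ K]

/-- `a ⊗ 1 + 1 ⊗ a`. -/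
noncomputable def dbl (a : Hn 1 (NA (exG K) (GSub.empty _))) :
    Hn 1 (NA ((exG K).prod (exG K)) (GSub.empty _)) :=
  pullG (pr₁ (exG K)) (GSub.maps_empty _ _) a + pullG (pr₂ (exG K)) (GSub.maps_empty _ _) a

theorem dbl_diag (a : Hn 1 (NA (exG K) (GSub.empty _))) :
    pullG (exG K).diag (A := GSub.empty (exG K)) (GSub.maps_empty _ _) (dbl a) = 0 := by
  have e1 := pullG_comp (A := GSub.empty (exG K)) (exG K).diag (pr₁ (exG K))
    (GSub.maps_empty _ (GSub.empty _)) (GSub.maps_empty _ (GSub.empty _))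
    (GSub.maps_empty _ _) a
  have e2 := pullG_comp (A := GSub.empty (exG K)) (exG K).diag (pr₂ (exG K))
    (GSub.maps_empty _ (GSub.empty _)) (GSub.maps_empty _ (GSub.empty _))
    (GSub.maps_empty _ _) a
  have e3 : (pr₁ (exG K)).comp (exG K).diag = (pr₂ (exG K)).comp (exG K).diag := rfl
  rw [dbl, map_add, ← e1, ← e2, e3, add_self_eq_zero']

/-- The map `v ↦ ((-1, v₁), (1, v))`. -/
noncomputable def jmap (v₁ : Metric.sphere (0 : K) 1) :
    GMap (antiG K) ((exG K).prod (exG K)) :=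
  pairMap ((exA K).incl.comp (jNeg v₁)) ((exU K).compl.incl.comp jOne)

theorem jmap_dbl (v₁ : Metric.sphere (0 : K) 1) (a : Hn 1 (NA (exG K) (GSub.empty _)))
    (ha : pullG (exA K).incl (A := GSub.empty _) (GSub.maps_empty _ _) a = 0) :
    pullG (jmap v₁) (A := GSub.empty _) (GSub.maps_empty _ _) (dbl a) =
      pullG jOne (A := GSub.empty _) (GSub.maps_empty _ (GSub.empty _))
        (pullG (exU K).compl.incl (A := GSub.empty _) (GSub.maps_empty _ (GSub.empty _)) a) := by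
  have e1 := pullG_comp (A := GSub.empty (antiG K)) (jmap v₁) (pr₁ (exG K))
    (GSub.maps_empty _ (GSub.empty _)) (GSub.maps_empty _ (GSub.empty _))
    (GSub.maps_empty _ _) a
  have e1' := pullG_comp (A := GSub.empty (antiG K)) (jNeg v₁) (exA K).incl
    (GSub.maps_empty _ (GSub.empty _)) (GSub.maps_empty _ (GSub.empty _))
    (GSub.maps_empty _ _) a
  have e2 := pullG_comp (A := GSub.empty (antiG K)) (jmap v₁) (pr₂ (exG K))
    (GSub.maps_empty _ (GSub.empty _)) (GSub.maps_empty _ (GSub.empty _))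
    (GSub.maps_empty _ _) a
  have e2' := pullG_comp (A := GSub.empty (antiG K)) jOne (exU K).compl.incl
    (GSub.maps_empty _ (GSub.empty _)) (GSub.maps_empty _ (GSub.empty _))
    (GSub.maps_empty _ _) a
  have c1 : (pr₁ (exG K)).comp (jmap v₁) = (exA K).incl.comp (jNeg v₁) := rfl
  have c2 : (pr₂ (exG K)).comp (jmap v₁) = (exU K).compl.incl.comp jOne := rfl
  rw [dbl, map_add, ← e1, ← e2, c1, c2, e1', e2', ha, map_zero, zero_add]

/-- The action of `-1` on the sphere. -/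
theorem act_antiG : STop.act (X := antiG K) ℤˣ (-1 : ℤˣ) = anti := by
  ext v : 1
  exact anti_smul v

theorem sc_zero_deg (b : ℕ → K) {bs : ℕ → K →ₗ[ℝ] ℝ} {d : ℕ}
    (hb : ∀ i j, i < d → j < d → bs i (b j) = if i = j then 1 else 0) (hd : 0 < d) :
    bdS (sc b 0) ∈ Deg (Metric.sphere (0 : K) 1) 0 := by
  apply bdS_mem_Deg
  unfold sc
  apply push_mem_Deg
  have h1 : (aff [b 0]).In ({0}ᶜ : Set K) :=
    aff_ne_zero ⟨bs 0, fun v hv => by rw [List.mem_singleton.1 hv, hb 0 0 hd hd, if_pos rfl]⟩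
  rw [jc, affL_single, resS_single_of h1]
  exact single_mem_supp (P := fun σ : Sing ↥({0}ᶜ : Set K) => σ.nv = 0 + 1) rfl

theorem exists_dual [FiniteDimensional ℝ K] : ∃ (b : ℕ → K) (bs : ℕ → K →ₗ[ℝ] ℝ),
    ∀ i j, i < Module.finrank ℝ K → j < Module.finrank ℝ K →
      bs i (b j) = if i = j then 1 else 0 := by
  let B := Module.finBasis ℝ K
  refine ⟨fun n => if h : n < Module.finrank ℝ K then B ⟨n, h⟩ else 0,
    fun n => if h : n < Module.finrank ℝ K then B.coord ⟨n, h⟩ else 0, ?_⟩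
  intro i j hi hj
  simp only [dif_pos hi, dif_pos hj]
  rw [Module.Basis.coord_apply, Module.Basis.repr_self, Finsupp.single_apply]
  by_cases h : i = j
  · subst h; simp
  · rw [if_neg h, if_neg]
    intro h2
    exact h (Fin.mk.inj_iff.1 h2).symm

theorem antiG_ne_zero [FiniteDimensional ℝ K] [Nontrivial K] {f : antiG K → F2}
    (hf : ∀ y : antiG K, f ((-1 : ℤˣ) • y) = f y + 1) :
    cls (xpow f (Module.finrank ℝ K - 1)) (xpow_mem hf (Module.finrank ℝ K - 1)) ≠ 0 := by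
  obtain ⟨b, bs, hb⟩ := exists_dual (K := K)
  have hdpos : 0 < Module.finrank ℝ K := Module.finrank_pos
  refine xpow_cls_ne_zero hf (sc b) (Module.finrank ℝ K - 1) ?_ (sc_zero hb hdpos)
    (sc_zero_deg b hb hdpos) (Module.finrank ℝ K - 1) le_rfl
  intro n hn
  rw [act_antiG]
  exact bdS_sc hb n (by omega)

/-- **The lower bound for the nilpotency.** -/
theorem nil_ge [FiniteDimensional ℝ K] [Nontrivial K] :
    ((Module.finrank ℝ K - 1 : ℕ) : ℕ∞) ≤ (invCoh ℤˣ).nil ((invCoh ℤˣ).zeroDiv (exG K)) := by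
  obtain ⟨f, hf⟩ := exists_exB (K := K)
  obtain ⟨a, ha1, ha2⟩ := exists_class hf
  obtain ⟨v₀, hv₀⟩ : ∃ v : K, ‖v‖ = 1 := by
    obtain ⟨v, hv⟩ := exists_ne (0 : K)
    exact ⟨‖v‖⁻¹ • v, by
      rw [norm_smul, norm_inv, norm_norm, inv_mul_cancel₀ (norm_ne_zero_iff.2 hv)]⟩
  have hfE' : ∀ v : antiG K, (f ∘ jOne.map) ((-1 : ℤˣ) • v) = (f ∘ jOne.map) v + 1 := by
    intro v
    change f (jOne.map _) = f (jOne.map v) + 1
    rw [jOne.equi, hf]
  have hjy : pullG (jmap ⟨v₀, mem_sphere_zero_iff_norm.2 hv₀⟩) (A := GSub.empty _)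
      (GSub.maps_empty _ _) (dbl a) = cls (del (ptF (f ∘ jOne.map))) (xi_mem hfE') := by
    rw [jmap_dbl _ a ha1, ha2, xi_pull jOne hf hfE']
  apply nil_ge_of_pw (invCoh ℤˣ) (jmap ⟨v₀, mem_sphere_zero_iff_norm.2 hv₀⟩) (dbl a)
    ((invCoh ℤˣ).zeroDiv (exG K)) (dbl_diag a)
  have h1 : (invCoh ℤˣ).pull (jmap ⟨v₀, mem_sphere_zero_iff_norm.2 hv₀⟩) (A := GSub.empty _)
      (GSub.maps_empty _ (GSub.empty _)) (dbl a) =
      cls (del (ptF (f ∘ jOne.map))) (xi_mem hfE') := hjy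
  rw [h1, pw_cls hfE']
  exact antiG_ne_zero hfE'

end ex

end EqTC
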