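import Pool.Agent.Lib.P26f563.ListChain

/-!
# Singular simplices and singular chains mod 2

A singular simplex of `X` is a number `nv` of vertices and a continuous map from the standard
simplex with `nv` vertices to `X`.  The case `nv = 0` gives the empty simplex, so that the complex
is the augmented singular complex.
-/

open Finsupp

namespace STop

/-- The standard simplex with `m` vertices. -/
abbrev Dl (m : ℕ) : Type := stdSimplex ℝ (Fin m)

/-- The affine map of standard simplices induced by a map of vertices. -/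
noncomputable def Dmap {m k : ℕ} (f : Fin k → Fin m) : C(Dl k, Dl m) :=
  ⟨stdSimplex.map f, stdSimplex.continuous_map f⟩

theorem Dmap_comp {m k n : ℕ} (f : Fin k → Fin m) (g : Fin m → Fin n) :
    (Dmap g).comp (Dmap f) = Dmap (g ∘ f) := by
  ext x : 1
  exact stdSimplex.map_comp_apply f g x

theorem Dmap_id {m : ℕ} : Dmap (id : Fin m → Fin m) = ContinuousMap.id _ := by
  ext x : 1
  exact stdSimplex.map_id_apply x

variable {X Y Z : Type*} [TopologicalSpace X] [TopologicalSpace Y] [TopologicalSpace Z]

/-- Singular simplices with any number of vertices. -/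
structure Sing (X : Type*) [TopologicalSpace X] where
  /-- number of vertices -/
  nv : ℕ
  /-- the map -/
  map : C(Dl nv, X)

/-- Singular chains mod 2 (augmented, all dimensions together). -/
abbrev SC (X : Type*) [TopologicalSpace X] : Type _ := Sing X →₀ F2

theorem Sing.mk_congr {m k k' : ℕ} (σ : C(Dl m, X)) (f : Fin k → Fin m) (g : Fin k' → Fin m)
    (h : k = k') (hfg : ∀ i, f i = g (i.cast h)) :
    (⟨k, σ.comp (Dmap f)⟩ : Sing X) = ⟨k', σ.comp (Dmap g)⟩ := by
  subst h
  have : f = g := funext hfg
  rw [this]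

/-- The simplex of `σ` spanned by a list of its vertices. -/
@[reducible] noncomputable def Sing.sub (σ : Sing X) (l : List (Fin σ.nv)) : Sing X :=
  ⟨l.length, σ.map.comp (Dmap l.get)⟩

theorem Sing.sub_sub (σ : Sing X) (l : List (Fin σ.nv)) (l' : List (Fin l.length)) :
    (σ.sub l).sub l' = σ.sub (l'.map l.get) := by
  have h1 : (σ.sub l).sub l' = ⟨l'.length, σ.map.comp (Dmap (l.get ∘ l'.get))⟩ := by
    unfold Sing.sub
    rw [ContinuousMap.comp_assoc, Dmap_comp]
  rw [h1]
  unfold Sing.sub
  apply Sing.mk_congr _ _ _ (by simp)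
  intro i
  simp

theorem Sing.sub_finRange (σ : Sing X) : σ.sub (List.finRange σ.nv) = σ := by
  have h2 : σ = ⟨σ.nv, σ.map.comp (Dmap id)⟩ := by
    rw [Dmap_id, ContinuousMap.comp_id]
  conv_rhs => rw [h2]
  unfold Sing.sub
  apply Sing.mk_congr _ _ _ (by simp)
  intro i
  simp

/-- Realisation of list chains on the vertices of a singular simplex. -/
noncomputable def realL (σ : Sing X) : LC (Fin σ.nv) →ₗ[F2] SC X :=
  lin fun l => single (σ.sub l) 1

@[simp] theorem realL_single (σ : Sing X) (l : List (Fin σ.nv)) :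
    realL σ (single l 1) = single (σ.sub l) 1 := lin_single _ _

theorem realL_sub (σ : Sing X) (l : List (Fin σ.nv)) (x : LC (Fin l.length)) :
    realL (σ.sub l) x = realL σ (mapL l.get x) := by
  have : (realL (σ.sub l) : LC (Fin l.length) →ₗ[F2] SC X) = realL σ ∘ₗ mapL l.get := by
    apply lin_ext; intro l'
    rw [LinearMap.comp_apply, mapL_single, realL_single, realL_single, Sing.sub_sub]
  exact congrArg (fun g => g x) this

/-- The universal chain `[0, 1, ..., m - 1]`. -/
noncomputable def univ (m : ℕ) : LC (Fin m) := single (List.finRange m) 1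

theorem mapL_get_univ {T : Type*} (l : List T) : mapL l.get (univ l.length) = single l 1 := by
  rw [univ, mapL_single, List.map_get_finRange]

theorem realL_univ (σ : Sing X) : realL σ (univ σ.nv) = single σ 1 := by
  rw [univ, realL_single, Sing.sub_finRange]

/-- A natural linear operator on list chains. -/
structure NatOp where
  /-- the operator -/
  op : ∀ T : Type, LC T →ₗ[F2] LC T
  /-- naturality -/
  nat : ∀ {T T' : Type} (f : T → T') (x : LC T), op T' (mapL f x) = mapL f (op T x)

/-- The operator on singular chains induced by a natural operator. -/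
noncomputable def NatOp.lift (O : NatOp) : SC X →ₗ[F2] SC X :=
  lin fun σ => realL σ (O.op _ (univ σ.nv))

theorem NatOp.lift_single (O : NatOp) (σ : Sing X) :
    O.lift (single σ 1) = realL σ (O.op _ (univ σ.nv)) := lin_single _ _

theorem NatOp.lift_realL (O : NatOp) (σ : Sing X) (x : LC (Fin σ.nv)) :
    O.lift (realL σ x) = realL σ (O.op _ x) := by
  have : (O.lift ∘ₗ realL σ) = (realL σ ∘ₗ O.op _) := by
    apply lin_ext; intro l
    simp only [LinearMap.comp_apply, realL_single]
    rw [NatOp.lift_single]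
    rw [realL_sub, ← O.nat, mapL_get_univ]
  exact congrArg (fun g => g x) this

/-- Push-forward of singular simplices. -/
@[reducible] def Sing.push (f : C(X, Y)) (σ : Sing X) : Sing Y := ⟨σ.nv, f.comp σ.map⟩

theorem Sing.push_sub (f : C(X, Y)) (σ : Sing X) (l : List (Fin σ.nv)) :
    (σ.sub l).push f = (σ.push f).sub l := by
  unfold Sing.sub Sing.push
  simp only
  rw [ContinuousMap.comp_assoc]

/-- Push-forward of singular chains. -/
noncomputable def push (f : C(X, Y)) : SC X →ₗ[F2] SC Y := lin fun σ => single (σ.push f) 1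

@[simp] theorem push_single (f : C(X, Y)) (σ : Sing X) :
    push f (single σ 1) = single (σ.push f) 1 := lin_single _ _

theorem push_realL (f : C(X, Y)) (σ : Sing X) (x : LC (Fin σ.nv)) :
    push f (realL σ x) = realL (σ.push f) x := by
  have : (push f ∘ₗ realL σ) = (realL (σ.push f) : LC (Fin σ.nv) →ₗ[F2] SC Y) := by
    apply lin_ext; intro l
    simp only [LinearMap.comp_apply, realL_single, push_single]
    rw [Sing.push_sub]
  exact congrArg (fun g => g x) this

theorem push_lift (O : NatOp) (f : C(X, Y)) (x : SC X) :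
    push f (O.lift x) = O.lift (push f x) := by
  have : (push f ∘ₗ O.lift) = (O.lift ∘ₗ push f) := by
    apply lin_ext; intro σ
    simp only [LinearMap.comp_apply, push_single]
    rw [NatOp.lift_single, NatOp.lift_single, push_realL]
  exact congrArg (fun g => g x) this

theorem push_push (f : C(X, Y)) (g : C(Y, Z)) (x : SC X) :
    push g (push f x) = push (g.comp f) x := by
  have : (push g ∘ₗ push f) = push (g.comp f) := by
    apply lin_ext; intro σ
    simp only [LinearMap.comp_apply, push_single]
    rfl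
  exact congrArg (fun g => g x) this

theorem push_id (x : SC X) : push (ContinuousMap.id X) x = x := by
  have : (push (ContinuousMap.id X) : SC X →ₗ[F2] SC X) = LinearMap.id := by
    apply lin_ext; intro σ
    simp only [push_single]
    rfl
  exact congrArg (fun g => g x) this

/-- The boundary as a natural operator. -/
noncomputable def bdOp : NatOp where
  op _ := bd
  nat f x := (mapL_bd f x).symm

/-- The singular boundary. -/
noncomputable def bdS : SC X →ₗ[F2] SC X := bdOp.lift

theorem bdS_single (σ : Sing X) : bdS (single σ 1) = realL σ (bd (univ σ.nv)) :=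
  bdOp.lift_single σ

theorem bdS_realL (σ : Sing X) (x : LC (Fin σ.nv)) : bdS (realL σ x) = realL σ (bd x) :=
  bdOp.lift_realL σ x

theorem bdS_bdS (x : SC X) : bdS (bdS x) = 0 := by
  have : (bdS ∘ₗ bdS : SC X →ₗ[F2] SC X) = 0 := by
    apply lin_ext; intro σ
    simp only [LinearMap.comp_apply, LinearMap.zero_apply]
    rw [bdS_single, bdS_realL, bd_bd, map_zero]
  exact congrArg (fun g => g x) this

theorem push_bdS (f : C(X, Y)) (x : SC X) : push f (bdS x) = bdS (push f x) :=
  push_lift bdOp f x

/-- Transfer of an identity `∂ R + R ∂ = A + B` between natural operators. -/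
theorem NatOp.homotopy_lift (R A B : NatOp)
    (h : ∀ (T : Type) (l : List T), bd (R.op T (single l 1)) + R.op T (bd (single l 1)) =
      A.op T (single l 1) + B.op T (single l 1)) (x : SC X) :
    bdS (R.lift x) + R.lift (bdS x) = A.lift x + B.lift x := by
  have : (bdS ∘ₗ R.lift + R.lift ∘ₗ bdS : SC X →ₗ[F2] SC X) = A.lift + B.lift := by
    apply lin_ext; intro σ
    simp only [LinearMap.comp_apply, LinearMap.add_apply]
    rw [bdS_single, R.lift_realL, R.lift_single, A.lift_single, B.lift_single, bdS_realL,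
      ← map_add, ← map_add]
    congr 1
    exact h _ _
  exact congrArg (fun g => g x) this

/-- The identity operator. -/
noncomputable def idOp : NatOp where
  op _ := LinearMap.id
  nat _ _ := rfl

theorem idOp_lift (x : SC X) : idOp.lift x = x := by
  have : (idOp.lift : SC X →ₗ[F2] SC X) = LinearMap.id := by
    apply lin_ext; intro σ
    rw [NatOp.lift_single]
    exact realL_univ σ
  exact congrArg (fun g => g x) this

/-! ### Two-variable realisation -/

/-- The simplex of the product spanned by a list of pairs of vertices. -/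
@[reducible] noncomputable def Sing.sub2 (σ : Sing X) (τ : Sing Y)
    (l : List (Fin σ.nv × Fin τ.nv)) : Sing (X × Y) :=
  ⟨l.length,
    (σ.map.comp (Dmap fun i => (l.get i).1)).prodMk (τ.map.comp (Dmap fun i => (l.get i).2))⟩

theorem Sing.mk_congr2 {m n k k' : ℕ} (σ : C(Dl m, X)) (τ : C(Dl n, Y)) (f : Fin k → Fin m)
    (g : Fin k' → Fin m) (f' : Fin k → Fin n) (g' : Fin k' → Fin n)
    (h : k = k') (hfg : ∀ i, f i = g (i.cast h)) (hfg' : ∀ i, f' i = g' (i.cast h)) :
    (⟨k, (σ.comp (Dmap f)).prodMk (τ.comp (Dmap f'))⟩ : Sing (X × Y)) =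
      ⟨k', (σ.comp (Dmap g)).prodMk (τ.comp (Dmap g'))⟩ := by
  subst h
  have h1 : f = g := funext hfg
  have h2 : f' = g' := funext hfg'
  rw [h1, h2]

theorem Sing.sub2_sub (σ : Sing X) (τ : Sing Y) (l : List (Fin σ.nv × Fin τ.nv))
    (l' : List (Fin l.length)) :
    (σ.sub2 τ l).sub l' = σ.sub2 τ (l'.map l.get) := by
  have h1 : (σ.sub2 τ l).sub l' = ⟨l'.length,
      (σ.map.comp (Dmap ((fun i => (l.get i).1) ∘ l'.get))).prodMk
        (τ.map.comp (Dmap ((fun i => (l.get i).2) ∘ l'.get)))⟩ := by
    rw [← Dmap_comp, ← Dmap_comp]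
    rfl
  rw [h1]
  unfold Sing.sub2
  apply Sing.mk_congr2 _ _ _ _ _ _ (by simp)
  · intro i; simp
  · intro i; simp

theorem Sing.sub_sub2 (σ : Sing X) (τ : Sing Y) (k : List (Fin σ.nv)) (k' : List (Fin τ.nv))
    (l : List (Fin k.length × Fin k'.length)) :
    (σ.sub k).sub2 (τ.sub k') l = σ.sub2 τ (l.map (Prod.map k.get k'.get)) := by
  have h1 : (σ.sub k).sub2 (τ.sub k') l = ⟨l.length,
      (σ.map.comp (Dmap (k.get ∘ (fun i => (l.get i).1)))).prodMk
        (τ.map.comp (Dmap (k'.get ∘ (fun i => (l.get i).2))))⟩ := by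
    rw [← Dmap_comp, ← Dmap_comp]
    rfl
  rw [h1]
  unfold Sing.sub2
  apply Sing.mk_congr2 _ _ _ _ _ _ (by simp)
  · intro i; simp
  · intro i; simp

/-- Realisation of chains of lists of pairs of vertices. -/
noncomputable def realL2 (σ : Sing X) (τ : Sing Y) :
    LC (Fin σ.nv × Fin τ.nv) →ₗ[F2] SC (X × Y) :=
  lin fun l => single (σ.sub2 τ l) 1

@[simp] theorem realL2_single (σ : Sing X) (τ : Sing Y) (l : List (Fin σ.nv × Fin τ.nv)) :
    realL2 σ τ (single l 1) = single (σ.sub2 τ l) 1 := lin_single _ _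

theorem realL_sub2 (σ : Sing X) (τ : Sing Y) (l : List (Fin σ.nv × Fin τ.nv))
    (z : LC (Fin l.length)) : realL (σ.sub2 τ l) z = realL2 σ τ (mapL l.get z) := by
  have : (realL (σ.sub2 τ l) : LC (Fin l.length) →ₗ[F2] SC (X × Y)) =
      realL2 σ τ ∘ₗ mapL l.get := by
    apply lin_ext; intro l'
    rw [LinearMap.comp_apply, mapL_single, realL2_single, realL_single, Sing.sub2_sub]
  exact congrArg (fun g => g z) this

theorem bdS_realL2 (σ : Sing X) (τ : Sing Y) (x : LC (Fin σ.nv × Fin τ.nv)) :
    bdS (realL2 σ τ x) = realL2 σ τ (bd x) := by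
  have : (bdS ∘ₗ realL2 σ τ) = (realL2 σ τ ∘ₗ bd) := by
    apply lin_ext; intro l
    simp only [LinearMap.comp_apply, realL2_single]
    rw [bdS_single, realL_sub2, mapL_bd, mapL_get_univ]
  exact congrArg (fun g => g x) this

theorem realL2_sub (σ : Sing X) (τ : Sing Y) (k : List (Fin σ.nv)) (k' : List (Fin τ.nv))
    (x : LC (Fin k.length × Fin k'.length)) :
    realL2 (σ.sub k) (τ.sub k') x = realL2 σ τ (mapL (Prod.map k.get k'.get) x) := by
  have : (realL2 (σ.sub k) (τ.sub k') : LC (Fin k.length × Fin k'.length) →ₗ[F2] SC (X × Y)) =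
      realL2 σ τ ∘ₗ mapL (Prod.map k.get k'.get) := by
    apply lin_ext; intro l
    rw [LinearMap.comp_apply, mapL_single, realL2_single, realL2_single, Sing.sub_sub2]
  exact congrArg (fun g => g x) this

theorem push_realL2 {X' Y' : Type*} [TopologicalSpace X'] [TopologicalSpace Y']
    (f : C(X, X')) (g : C(Y, Y')) (σ : Sing X) (τ : Sing Y) (x : LC (Fin σ.nv × Fin τ.nv)) :
    push (f.prodMap g) (realL2 σ τ x) = realL2 (σ.push f) (τ.push g) x := by
  have : (push (f.prodMap g) ∘ₗ realL2 σ τ) =
      (realL2 (σ.push f) (τ.push g) : LC (Fin σ.nv × Fin τ.nv) →ₗ[F2] SC (X' × Y')) := by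
    apply lin_ext; intro l
    rw [LinearMap.comp_apply, realL2_single, push_single, realL2_single]
    rfl
  exact congrArg (fun g => g x) this

/-! ### Supports -/

/-- Simplices with image in `A`. -/
def Sing.In (σ : Sing X) (A : Set X) : Prop := ∀ t, σ.map t ∈ A

theorem Sing.In.sub {σ : Sing X} {A : Set X} (h : σ.In A) (l : List (Fin σ.nv)) :
    (σ.sub l).In A := fun _ => h _

theorem Sing.In.mono {σ : Sing X} {A B : Set X} (h : σ.In A) (hAB : A ⊆ B) : σ.In B :=
  fun t => hAB (h t)

/-- Chains in a subset. -/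
def CIn (A : Set X) : Submodule F2 (SC X) := supp fun σ => σ.In A

theorem single_mem_CIn {σ : Sing X} {A : Set X} (h : σ.In A) : single σ 1 ∈ CIn A :=
  single_mem_supp (P := fun σ : Sing X => σ.In A) h

theorem CIn_mono {A B : Set X} (h : A ⊆ B) : CIn A ≤ CIn B := supp_mono fun _ hs => hs.mono h

theorem CIn_univ (x : SC X) : x ∈ CIn (Set.univ : Set X) := by
  rw [CIn, mem_supp]
  intro a _ t
  trivial

theorem realL_mem_CIn {σ : Sing X} {A : Set X} (h : σ.In A) (x : LC (Fin σ.nv)) :
    realL σ x ∈ CIn A := by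
  have hx : x ∈ supp (fun _ : List (Fin σ.nv) => True) := by
    rw [mem_supp]; intros; trivial
  refine supp_induction (CIn A) (realL σ) ?_ hx
  intro l _
  rw [realL_single]
  exact single_mem_CIn (h.sub l)

theorem NatOp.lift_mem_CIn (O : NatOp) {A : Set X} {x : SC X} (h : x ∈ CIn A) :
    O.lift x ∈ CIn A := by
  refine supp_induction (CIn A) O.lift ?_ h
  intro σ hσ
  rw [NatOp.lift_single]
  exact realL_mem_CIn hσ _

theorem bdS_mem_CIn {A : Set X} {x : SC X} (h : x ∈ CIn A) : bdS x ∈ CIn A :=
  bdOp.lift_mem_CIn h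

theorem push_mem_CIn {A : Set X} {B : Set Y} (f : C(X, Y)) (hf : ∀ a ∈ A, f a ∈ B)
    {x : SC X} (h : x ∈ CIn A) : push f x ∈ CIn B := by
  refine supp_induction (CIn B) (push f) ?_ h
  intro σ hσ
  rw [push_single]
  exact single_mem_CIn fun t => hf _ (hσ t)

end STop
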