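import Pool.Agent.Lib.P26f563.Subdiv

/-!
# Small chains
-/

open Finsupp

namespace STop

/-- Compatibility of a metric with convex combinations. -/
class MCC (K : Type*) [PseudoMetricSpace K] [CC K] : Prop where
  dist_cc : ∀ {k : ℕ} (t : Dl k) (p : Fin k → K) (x : K),
    dist (cc t p) x ≤ ∑ i, t i * dist (p i) x

theorem norm_comb_sub_le {E : Type*} [NormedAddCommGroup E] [NormedSpace ℝ E] {k : ℕ} (t : Dl k)
    (p : Fin k → E) (x : E) : dist (∑ i, t i • p i) x ≤ ∑ i, t i * dist (p i) x := by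
  have h : (∑ i, t i • p i) - x = ∑ i, t i • (p i - x) := by
    simp only [smul_sub, Finset.sum_sub_distrib]
    rw [← Finset.sum_smul, stdSimplex.sum_eq_one, one_smul]
  rw [dist_eq_norm, h]
  refine (norm_sum_le _ _).trans ?_
  apply Finset.sum_le_sum
  intro i _
  have ht : (0 : ℝ) ≤ t i := t.2.1 i
  rw [norm_smul, Real.norm_eq_abs, abs_of_nonneg ht, dist_eq_norm]

instance {E : Type*} [NormedAddCommGroup E] [NormedSpace ℝ E] : MCC E where
  dist_cc t p x := norm_comb_sub_le t p x

instance (m : ℕ) : MCC (Dl m) where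
  dist_cc t p x := by
    have h1 : dist (cc t p : Dl m) x = dist (∑ i, t i • ((p i : Dl m) : Fin m → ℝ)) x := by
      rw [Subtype.dist_eq]
      congr 1
      ext j
      change (mix t p) j = _
      rw [mix_apply]
      simp
    rw [h1]
    exact norm_comb_sub_le t _ _

section mesh

variable {K : Type} [PseudoMetricSpace K] [CC K] [MCC K]

/-- All distances between entries are at most `D`. -/
def Mesh (D : ℝ) (l : List K) : Prop := ∀ a ∈ l, ∀ b ∈ l, dist a b ≤ D

/-- `v` is in every ball containing the entries of `l`. -/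
def Hull (l : List K) (v : K) : Prop := ∀ x r, (∀ b ∈ l, dist b x ≤ r) → dist v x ≤ r

theorem Hull.of_mem {l : List K} {v : K} (h : v ∈ l) : Hull l v := fun _ _ hb => hb v h

theorem Hull.trans {l q : List K} {v : K} (h : Hull q v) (hq : ∀ u ∈ q, Hull l u) : Hull l v :=
  fun x r hb => h x r fun u hu => hq u hu x r hb

theorem dist_cc_le {k : ℕ} (t : Dl k) (p : Fin k → K) (x : K) (r : ℝ)
    (h : ∀ i, dist (p i) x ≤ r) : dist (cc t p) x ≤ r := by
  refine (MCC.dist_cc t p x).trans ?_
  calc ∑ i, t i * dist (p i) x ≤ ∑ i, t i * r :=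
        Finset.sum_le_sum fun i _ => mul_le_mul_of_nonneg_left (h i) (t.2.1 i)
    _ = r := by rw [← Finset.sum_mul, stdSimplex.sum_eq_one, one_mul]

theorem hull_cc {l : List K} (t : Dl l.length) : Hull l (cc t l.get) := by
  intro x r hb
  apply dist_cc_le
  intro i
  exact hb _ (List.get_mem l i)

theorem hull_bary (a : K) (l : List K) : Hull (a :: l) (bary a l) :=
  hull_cc (l := a :: l) _

theorem bd1_mem {T : Type*} (l : List T) : bd1 l ∈ supp fun q : List T => ∀ v ∈ q, v ∈ l := by
  induction l with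
  | nil => simp
  | cons a l ih =>
    rw [bd1_cons]
    apply Submodule.add_mem
    · exact single_mem_supp (P := fun q : List T => ∀ v ∈ q, v ∈ a :: l)
        (fun v hv => List.mem_cons_of_mem _ hv)
    · refine supp_induction _ (cone a) ?_ ih
      intro q hq
      rw [cone_single]
      apply single_mem_supp (P := fun q : List T => ∀ v ∈ q, v ∈ a :: l)
      intro v hv
      rcases List.mem_cons.1 hv with h | h
      · rw [h]; exact List.mem_cons_self
      · exact List.mem_cons_of_mem _ (hq v h)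

theorem sd_hull (l : List K) :
    sd (single l 1) ∈ supp fun q : List K => ∀ v ∈ q, Hull l v := by
  revert l
  apply list_len_induction
  · rw [sd_single_nil]
    exact single_mem_supp (P := fun q : List K => ∀ v ∈ q, Hull [] v) (by simp)
  · intro a l ih
    rw [sd_single_cons]
    have h1 : sd (bd1 (a :: l)) ∈ supp fun q : List K => ∀ v ∈ q, Hull (a :: l) v := by
      have hx : bd1 (a :: l) ∈ supp fun q : List K => q.length = l.length ∧ ∀ v ∈ q, v ∈ a :: l := by
        rw [mem_supp]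
        intro q hq
        exact ⟨mem_supp.1 (bd1_len a l) q hq, mem_supp.1 (bd1_mem (a :: l)) q hq⟩
      refine supp_induction _ sd ?_ hx
      rintro q ⟨hq1, hq2⟩
      refine supp_mono ?_ (ih q hq1)
      intro r hr v hv
      exact (hr v hv).trans fun u hu => Hull.of_mem (hq2 u hu)
    refine supp_induction _ (cone (bary a l)) ?_ h1
    intro q hq
    rw [cone_single]
    apply single_mem_supp (P := fun q : List K => ∀ v ∈ q, Hull (a :: l) v)
    intro v hv
    rcases List.mem_cons.1 hv with h | h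
    · rw [h]; exact hull_bary a l
    · exact hq v h

theorem sd_len (l : List K) : sd (single l 1) ∈ supp fun q : List K => q.length = l.length := by
  revert l
  apply list_len_induction
  · rw [sd_single_nil]
    exact single_mem_supp (P := fun q : List K => q.length = 0) rfl
  · intro a l ih
    rw [sd_single_cons]
    have h1 : sd (bd1 (a :: l)) ∈ supp fun q : List K => q.length = l.length := by
      refine supp_induction _ sd ?_ (bd1_len a l)
      intro q hq
      have := ih q hq
      rwa [hq] at this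
    refine supp_induction _ (cone (bary a l)) ?_ h1
    intro q hq
    rw [cone_single]
    exact single_mem_supp (P := fun q : List K => q.length = (a :: l).length) (by simp [hq])

theorem dist_bary_le (D : ℝ) (N : ℕ) (a : K) (l : List K) (hN : l.length + 1 ≤ N)
    (hD : 0 ≤ D) (h : Mesh D (a :: l)) (b : K) (hb : b ∈ a :: l) :
    dist (bary a l) b ≤ (1 - 1 / (N : ℝ)) * D := by
  obtain ⟨j, hj⟩ : ∃ j : Fin (l.length + 1), (a :: l).get j = b := List.get_of_mem hb
  have hlen : (0 : ℝ) < ((l.length + 1 : ℕ) : ℝ) := by positivity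
  have hNpos : (0 : ℝ) < (N : ℝ) := by
    have : 0 < N := by omega
    exact_mod_cast this
  refine (MCC.dist_cc _ _ _).trans ?_
  have hcoef : ∀ i : Fin (l.length + 1), (stdSimplex.barycenter : Dl (l.length + 1)) i =
      ((l.length + 1 : ℕ) : ℝ)⁻¹ := by
    intro i
    change ((Fintype.card (Fin (l.length + 1)) : ℝ))⁻¹ = _
    rw [Fintype.card_fin]
  simp only [hcoef]
  rw [← Finset.mul_sum]
  have hsum : ∑ i : Fin (l.length + 1), dist ((a :: l).get i) b ≤ (l.length : ℝ) * D := by
    rw [← Finset.sum_erase_add _ _ (Finset.mem_univ j)]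
    rw [hj, dist_self, add_zero]
    calc ∑ i ∈ Finset.univ.erase j, dist ((a :: l).get i) b
        ≤ ∑ i ∈ (Finset.univ : Finset (Fin (l.length + 1))).erase j, D :=
          Finset.sum_le_sum fun i _ => h _ (List.get_mem _ _) _ hb
      _ = (l.length : ℝ) * D := by
          rw [Finset.sum_const, Finset.card_erase_of_mem (Finset.mem_univ _)]
          simp
  calc ((l.length + 1 : ℕ) : ℝ)⁻¹ * ∑ i : Fin (l.length + 1), dist ((a :: l).get i) b
      ≤ ((l.length + 1 : ℕ) : ℝ)⁻¹ * ((l.length : ℝ) * D) :=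
        mul_le_mul_of_nonneg_left hsum (by positivity)
    _ = (1 - 1 / ((l.length + 1 : ℕ) : ℝ)) * D := by
        have : ((l.length + 1 : ℕ) : ℝ) = (l.length : ℝ) + 1 := by push_cast; ring
        rw [this] at hlen ⊢
        field_simp
        ring
    _ ≤ (1 - 1 / (N : ℝ)) * D := by
        apply mul_le_mul_of_nonneg_right _ hD
        have : (1 : ℝ) / N ≤ 1 / ((l.length + 1 : ℕ) : ℝ) := by
          apply one_div_le_one_div_of_le hlen
          exact_mod_cast hN
        linarith

theorem sd_mesh (D : ℝ) (hD : 0 ≤ D) (N : ℕ) (l : List K) (hl : l.length ≤ N) (h : Mesh D l) :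
    sd (single l 1) ∈ supp fun q : List K => Mesh ((1 - 1 / (N : ℝ)) * D) q := by
  revert l
  refine list_len_induction ?_ ?_
  · intro _ _
    rw [sd_single_nil]
    exact single_mem_supp (P := fun q : List K => Mesh ((1 - 1 / (N : ℝ)) * D) q)
      (by intro a ha; simp at ha)
  · intro a l ih hN hm
    rw [sd_single_cons]
    have h1 : sd (bd1 (a :: l)) ∈ supp fun q : List K =>
        (∀ v ∈ q, Hull (a :: l) v) ∧ Mesh ((1 - 1 / (N : ℝ)) * D) q := by
      have hx : bd1 (a :: l) ∈ supp fun q : List K => q.length = l.length ∧ ∀ v ∈ q, v ∈ a :: l := by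
        rw [mem_supp]
        intro q hq
        exact ⟨mem_supp.1 (bd1_len a l) q hq, mem_supp.1 (bd1_mem (a :: l)) q hq⟩
      refine supp_induction _ sd ?_ hx
      rintro q ⟨hq1, hq2⟩
      have hA := ih q hq1 (by simp at hN; omega) (fun u hu v hv => hm u (hq2 u hu) v (hq2 v hv))
      have hB := sd_hull q
      rw [mem_supp] at hA hB ⊢
      intro r hr
      exact ⟨fun v hv => (hB r hr v hv).trans fun u hu => Hull.of_mem (hq2 u hu), hA r hr⟩
    refine supp_induction _ (cone (bary a l)) ?_ h1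
    rintro q ⟨hq1, hq2⟩
    rw [cone_single]
    apply single_mem_supp (P := fun q : List K => Mesh ((1 - 1 / (N : ℝ)) * D) q)
    have hN' : l.length + 1 ≤ N := by simpa using hN
    have hb : ∀ v ∈ q, dist v (bary a l) ≤ (1 - 1 / (N : ℝ)) * D := by
      intro v hv
      apply hq1 v hv
      intro b hb
      rw [dist_comm]
      exact dist_bary_le D N a l hN' hD hm b hb
    have hnn : 0 ≤ (1 - 1 / (N : ℝ)) * D := by
      apply mul_nonneg _ hD
      have : (1 : ℝ) / N ≤ 1 := by
        have : 0 < N := by omega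
        rw [div_le_one (by exact_mod_cast this)]
        exact_mod_cast this
      linarith
    intro u hu v hv
    rcases List.mem_cons.1 hu with h | h <;> rcases List.mem_cons.1 hv with h' | h'
    · rw [h, h', dist_self]; exact hnn
    · rw [h, dist_comm]; exact hb v h'
    · rw [h']; exact hb u h
    · exact hq2 u h v h'

/-- Iterated subdivision. -/
theorem sd_iter_mesh (D : ℝ) (hD : 0 ≤ D) (N : ℕ) (hN : 0 < N) (l : List K) (hl : l.length ≤ N)
    (h : Mesh D l) (k : ℕ) :
    (sd^[k]) (single l 1) ∈ supp fun q : List K =>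
      q.length ≤ N ∧ Mesh ((1 - 1 / (N : ℝ)) ^ k * D) q := by
  induction k with
  | zero =>
    apply single_mem_supp (P := fun q : List K =>
      q.length ≤ N ∧ Mesh ((1 - 1 / (N : ℝ)) ^ 0 * D) q)
    refine ⟨hl, ?_⟩
    simpa using h
  | succ k ih =>
    rw [Function.iterate_succ_apply']
    refine supp_induction _ sd ?_ ih
    rintro q ⟨hq1, hq2⟩
    have hnn : 0 ≤ (1 - 1 / (N : ℝ)) ^ k * D := by
      apply mul_nonneg _ hD
      apply pow_nonneg
      have : (1 : ℝ) / N ≤ 1 := by
        rw [div_le_one (by exact_mod_cast hN)]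
        exact_mod_cast hN
      linarith
    have hA := sd_mesh _ hnn N q hq1 hq2
    have hB := sd_len q
    rw [mem_supp] at hA hB ⊢
    intro r hr
    refine ⟨by rw [hB r hr]; exact hq1, ?_⟩
    have := hA r hr
    rwa [← mul_assoc, ← pow_succ'] at this

end mesh

/-! ### Small chains -/

variable {X : Type*} [TopologicalSpace X]

/-- A simplex is small if it is in one of the sets of the family. -/
def Small (𝒰 : Set (Set X)) (σ : Sing X) : Prop := ∃ U ∈ 𝒰, σ.In U

/-- Small chains. -/
def CS (𝒰 : Set (Set X)) : Submodule F2 (SC X) := supp (Small 𝒰)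

theorem Small.sub {𝒰 : Set (Set X)} {σ : Sing X} (h : Small 𝒰 σ) (l : List (Fin σ.nv)) :
    Small 𝒰 (σ.sub l) := by
  obtain ⟨U, hU, hs⟩ := h
  exact ⟨U, hU, hs.sub l⟩

theorem CIn_le_CS {𝒰 : Set (Set X)} {U : Set X} (hU : U ∈ 𝒰) : CIn U ≤ CS 𝒰 :=
  supp_mono fun _ hs => ⟨U, hU, hs⟩

theorem AffOp.lift_mem_CS (O : AffOp) {𝒰 : Set (Set X)} {x : SC X} (h : x ∈ CS 𝒰) :
    O.lift x ∈ CS 𝒰 := by
  refine supp_induction (CS 𝒰) O.lift ?_ h
  rintro σ ⟨U, hU, hs⟩
  exact CIn_le_CS hU (O.lift_mem_CIn (single_mem_CIn hs))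

theorem NatOp.lift_mem_CS (O : NatOp) {𝒰 : Set (Set X)} {x : SC X} (h : x ∈ CS 𝒰) :
    O.lift x ∈ CS 𝒰 := by
  refine supp_induction (CS 𝒰) O.lift ?_ h
  rintro σ ⟨U, hU, hs⟩
  exact CIn_le_CS hU (O.lift_mem_CIn (single_mem_CIn hs))

theorem bdS_mem_CS {𝒰 : Set (Set X)} {x : SC X} (h : x ∈ CS 𝒰) : bdS x ∈ CS 𝒰 :=
  bdOp.lift_mem_CS h

theorem sdS_iter_push {K : Type} [TopologicalSpace K] [CC K] (f : C(K, X)) (x : LC K) (k : ℕ) :
    (sdS^[k]) (push f (affL x)) = push f (affL ((sd^[k]) x)) := by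
  induction k with
  | zero => rfl
  | succ k ih =>
    rw [Function.iterate_succ_apply', Function.iterate_succ_apply', ih]
    exact sdOp.lift_push_affL f _

theorem dist_Dl_le {m : ℕ} (a b : Dl m) : dist a b ≤ 1 := by
  rw [Subtype.dist_eq, dist_pi_le_iff zero_le_one]
  intro i
  rw [Real.dist_eq]
  have ha := mem_Icc_of_mem_stdSimplex a.2 i
  have hb := mem_Icc_of_mem_stdSimplex b.2 i
  rw [abs_le]
  constructor <;> linarith [ha.1, ha.2, hb.1, hb.2]

theorem single_iter_small (A : Set X) (𝒰 : Set (Set X)) (hne : 𝒰.Nonempty)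
    (hcov : ∀ x ∈ A, ∃ U ∈ 𝒰, U ∈ nhdsWithin x A) (σ : Sing X) (hσ : σ.In A) :
    ∃ k, (sdS^[k]) (single σ 1) ∈ CS 𝒰 := by
  -- Lebesgue number
  have hopen : ∀ U : 𝒰, IsOpen (interior (σ.map ⁻¹' (U : Set X))) := fun _ => isOpen_interior
  have hcover : (Set.univ : Set (Dl σ.nv)) ⊆ ⋃ U : 𝒰, interior (σ.map ⁻¹' (U : Set X)) := by
    intro t _
    obtain ⟨U, hU, hn⟩ := hcov (σ.map t) (hσ t)
    refine Set.mem_iUnion.2 ⟨⟨U, hU⟩, ?_⟩
    rw [mem_interior_iff_mem_nhds]
    have h1 : Filter.Tendsto σ.map (nhds t) (nhdsWithin (σ.map t) A) :=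
      tendsto_nhdsWithin_of_tendsto_nhds_of_eventually_within _ (σ.map.continuous.tendsto t)
        (Filter.Eventually.of_forall hσ)
    exact h1 hn
  obtain ⟨δ, hδ, hL⟩ := lebesgue_number_lemma_of_metric (isCompact_univ) hopen hcover
  set N := σ.nv + 1 with hN
  have hc0 : (0 : ℝ) ≤ 1 - 1 / (N : ℝ) := by
    have : (1 : ℝ) / N ≤ 1 := by
      rw [div_le_one (by positivity)]
      rw [hN]; push_cast; linarith [show (0 : ℝ) ≤ (σ.nv : ℝ) from by positivity]
    linarith
  have hc1 : (1 : ℝ) - 1 / (N : ℝ) < 1 := by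
    have : (0 : ℝ) < 1 / (N : ℝ) := by positivity
    linarith
  obtain ⟨k, hk⟩ := exists_pow_lt_of_lt_one hδ hc1
  refine ⟨k, ?_⟩
  rw [single_eq_push_affL, sdS_iter_push]
  have hmesh := sd_iter_mesh (K := Dl σ.nv) 1 zero_le_one N (by omega) (verts σ.nv)
    (by rw [verts_length]; omega) (fun a _ b _ => dist_Dl_le a b) k
  refine supp_induction (CS 𝒰) (push σ.map ∘ₗ affL) ?_ hmesh
  rintro q ⟨_, hq⟩
  rw [LinearMap.comp_apply, affL_single, push_single]
  apply single_mem_supp (P := Small 𝒰)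
  cases q with
  | nil =>
    obtain ⟨U, hU⟩ := hne
    refine ⟨U, hU, ?_⟩
    intro t
    exact absurd t.2.2 (by simp)
  | cons a q =>
    obtain ⟨U, hU⟩ := hL a (Set.mem_univ a)
    refine ⟨U, U.2, ?_⟩
    intro t
    have : (aff (a :: q)).map t ∈ Metric.ball a δ := by
      rw [Metric.mem_ball]
      refine lt_of_le_of_lt (hull_cc t a _ (fun b hb => hq b hb a List.mem_cons_self)) ?_
      rw [mul_one]
      exact hk
    have h2 := interior_subset (hU this)
    exact h2

theorem iter_add_small (𝒰 : Set (Set X)) {x : SC X} {k : ℕ} (h : (sdS^[k]) x ∈ CS 𝒰) (j : ℕ) :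
    (sdS^[j + k]) x ∈ CS 𝒰 := by
  rw [Function.iterate_add_apply]
  induction j with
  | zero => exact h
  | succ j ih =>
    rw [Function.iterate_succ_apply']
    exact sdOp.lift_mem_CS ih

theorem iterate_linear {M : Type*} [AddCommGroup M] [Module F2 M] (f : M →ₗ[F2] M) (k : ℕ) :
    ⇑(f ^ k) = f^[k] := by
  induction k with
  | zero => rfl
  | succ k ih => ext x; rw [pow_succ', Function.iterate_succ_apply', ← ih]; rfl

/-- Every chain becomes small after subdivision. -/
theorem exists_iter_small (A : Set X) (𝒰 : Set (Set X)) (hne : 𝒰.Nonempty)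
    (hcov : ∀ x ∈ A, ∃ U ∈ 𝒰, U ∈ nhdsWithin x A) (c : SC X) (hc : c ∈ CIn A) :
    ∃ k, (sdS^[k]) c ∈ CS 𝒰 := by
  rw [CIn, mem_supp] at hc
  choose! f hf using fun σ => single_iter_small A 𝒰 hne hcov σ
  refine ⟨c.support.sup f, ?_⟩
  have hsum : c = ∑ σ ∈ c.support, c σ • single σ (1 : F2) := by
    conv_lhs => rw [← Finsupp.sum_single c]
    simp [Finsupp.sum]
  rw [hsum]
  rw [← iterate_linear, map_sum]
  apply Submodule.sum_mem
  intro σ hσ
  rw [map_smul]
  apply Submodule.smul_mem
  rw [iterate_linear]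
  have hle : f σ ≤ (∑ σ ∈ c.support, c σ • single σ (1 : F2)).support.sup f := by
    rw [← hsum]
    exact Finset.le_sup hσ
  obtain ⟨j, hj⟩ := Nat.exists_eq_add_of_le' hle
  rw [hj]
  exact iter_add_small 𝒰 (hf σ (hc σ hσ)) j

/-- The iterated homotopy operator. -/
noncomputable def tdIter : ℕ → (SC X →ₗ[F2] SC X)
  | 0 => 0
  | (k + 1) => tdIter k + tdS ∘ₗ (sdS ^ k)

theorem sdS_pow_bdS (k : ℕ) (x : SC X) : bdS ((sdS ^ k) x) = (sdS ^ k) (bdS x) := by
  induction k generalizing x with
  | zero => rfl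
  | succ k ih =>
    rw [pow_succ]
    change bdS ((sdS ^ k) (sdS x)) = (sdS ^ k) (sdS (bdS x))
    rw [ih, bdS_sdS]

theorem bdS_tdIter (k : ℕ) (x : SC X) :
    bdS (tdIter k x) + tdIter k (bdS x) = x + (sdS^[k]) x := by
  rw [← iterate_linear]
  induction k with
  | zero =>
    change bdS 0 + 0 = x + x
    rw [map_zero, add_zero, add_self_eq_zero']
  | succ k ih =>
    change bdS (tdIter k x + tdS ((sdS ^ k) x)) + (tdIter k (bdS x) + tdS ((sdS ^ k) (bdS x))) = _
    rw [map_add, ← sdS_pow_bdS]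
    have h2 := bdS_tdS ((sdS ^ k) x)
    have h3 : (sdS ^ (k + 1)) x = sdS ((sdS ^ k) x) := by rw [pow_succ']; rfl
    rw [h3]
    calc bdS (tdIter k x) + bdS (tdS ((sdS ^ k) x)) +
          (tdIter k (bdS x) + tdS (bdS ((sdS ^ k) x)))
        = (bdS (tdIter k x) + tdIter k (bdS x)) +
          (bdS (tdS ((sdS ^ k) x)) + tdS (bdS ((sdS ^ k) x))) := by abel
      _ = (x + (sdS ^ k) x) + ((sdS ^ k) x + sdS ((sdS ^ k) x)) := by rw [ih, h2]
      _ = x + sdS ((sdS ^ k) x) + ((sdS ^ k) x + (sdS ^ k) x) := by abel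
      _ = _ := by rw [add_self_eq_zero', add_zero]

theorem tdIter_mem_CIn {A : Set X} {x : SC X} (h : x ∈ CIn A) (k : ℕ) : tdIter k x ∈ CIn A := by
  induction k with
  | zero => exact Submodule.zero_mem _
  | succ k ih =>
    refine Submodule.add_mem _ ih ?_
    apply tdOp.lift_mem_CIn
    rw [iterate_linear]
    clear ih
    induction k with
    | zero => exact h
    | succ k ih =>
      rw [Function.iterate_succ_apply']
      exact sdOp.lift_mem_CIn ih

theorem tdIter_mem_CS {𝒰 : Set (Set X)} {x : SC X} (h : x ∈ CS 𝒰) (k : ℕ) :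
    tdIter k x ∈ CS 𝒰 := by
  induction k with
  | zero => exact Submodule.zero_mem _
  | succ k ih =>
    refine Submodule.add_mem _ ih ?_
    apply tdOp.lift_mem_CS
    rw [iterate_linear]
    clear ih
    induction k with
    | zero => exact h
    | succ k ih =>
      rw [Function.iterate_succ_apply']
      exact sdOp.lift_mem_CS ih

/-- **Small chains theorem.**  A chain with small boundary is homologous to a small chain. -/
theorem small_chains (A : Set X) (𝒰 : Set (Set X)) (hne : 𝒰.Nonempty)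
    (hcov : ∀ x ∈ A, ∃ U ∈ 𝒰, U ∈ nhdsWithin x A) (c : SC X) (hc : c ∈ CIn A)
    (hb : bdS c ∈ CS 𝒰) : ∃ e ∈ CIn A, c + bdS e ∈ CS 𝒰 := by
  obtain ⟨k, hk⟩ := exists_iter_small A 𝒰 hne hcov c hc
  refine ⟨tdIter k c, tdIter_mem_CIn hc k, ?_⟩
  have h := bdS_tdIter k c
  have h2 : c + bdS (tdIter k c) = (sdS^[k]) c + tdIter k (bdS c) := by
    calc c + bdS (tdIter k c) =
          (bdS (tdIter k c) + tdIter k (bdS c)) + tdIter k (bdS c) + c := by
            rw [add_assoc (bdS (tdIter k c)), add_self_eq_zero', add_zero, add_comm]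
      _ = (c + (sdS^[k]) c) + tdIter k (bdS c) + c := by rw [h]
      _ = (sdS^[k]) c + tdIter k (bdS c) + (c + c) := by abel
      _ = _ := by rw [add_self_eq_zero', add_zero]
  rw [h2]
  exact Submodule.add_mem _ hk (tdIter_mem_CS hb k)

end STop
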