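import Pool.Agent.Lib.P26f563.Homotopy

/-!
# Barycentric subdivision and small chains
-/

open Finsupp

namespace STop

/-! ### Convex combinations -/

/-- Convex combination of points of a standard simplex. -/
noncomputable def mix {k m : ℕ} (t : Dl k) (s : Fin k → Dl m) : Dl m :=
  ⟨fun j => ∑ i, t i * s i j, by
    refine ⟨fun j => Finset.sum_nonneg fun i _ => mul_nonneg (t.2.1 i) ((s i).2.1 j), ?_⟩
    rw [Finset.sum_comm]
    have : ∀ i, ∑ j, t i * s i j = t i := by
      intro i
      rw [← Finset.mul_sum, stdSimplex.sum_eq_one, mul_one]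
    simp only [this]
    exact t.2.2⟩

theorem mix_apply {k m : ℕ} (t : Dl k) (s : Fin k → Dl m) (j : Fin m) :
    mix t s j = ∑ i, t i * s i j := rfl

theorem mix_vertex {k m : ℕ} (i : Fin k) (s : Fin k → Dl m) :
    mix (stdSimplex.vertex i) s = s i := by
  ext j
  rw [mix_apply]
  simp [Pi.single_apply]

theorem mix_mix {k m n : ℕ} (t : Dl k) (s : Fin k → Dl m) (p : Fin m → Dl n) :
    mix t (fun i => mix (s i) p) = mix (mix t s) p := by
  ext j
  simp only [mix_apply, Finset.mul_sum, Finset.sum_mul]
  rw [Finset.sum_comm]
  refine Finset.sum_congr rfl fun i _ => Finset.sum_congr rfl fun l _ => ?_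
  ring

theorem continuous_mix {k m : ℕ} (s : Fin k → Dl m) : Continuous fun t : Dl k => mix t s := by
  apply Continuous.subtype_mk
  apply continuous_pi
  intro j
  apply continuous_finsetSum
  intro i _
  apply Continuous.mul _ continuous_const
  exact (continuous_apply i).comp continuous_subtype_val

theorem Dmap_eq_mix {k m : ℕ} (f : Fin k → Fin m) (t : Dl k) :
    Dmap f t = mix t (fun i => stdSimplex.vertex (f i)) := by
  ext j
  rw [mix_apply]
  have h1 : (Dmap f t : Fin m → ℝ) = FunOnFinite.linearMap ℝ ℝ f t := rfl
  rw [h1, FunOnFinite.linearMap_apply_apply]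
  rw [Finset.sum_filter]
  refine Finset.sum_congr rfl fun i _ => ?_
  rw [stdSimplex.vertex_coe, Pi.single_apply]
  by_cases h : f i = j
  · simp [h]
  · rw [if_neg h, if_neg (Ne.symm h), mul_zero]

/-- Spaces with convex combinations. -/
class CC (K : Type*) [TopologicalSpace K] where
  /-- convex combination -/
  cc : ∀ {k : ℕ}, Dl k → (Fin k → K) → K
  cc_vertex : ∀ {k : ℕ} (i : Fin k) (p : Fin k → K), cc (stdSimplex.vertex i) p = p i
  cc_cc : ∀ {k m : ℕ} (t : Dl k) (s : Fin k → Dl m) (p : Fin m → K),
    cc t (fun i => cc (s i) p) = cc (mix t s) p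
  continuous_cc : ∀ {k : ℕ} (p : Fin k → K), Continuous fun t : Dl k => cc t p

export CC (cc)

noncomputable instance instCCDl (m : ℕ) : CC (Dl m) where
  cc t p := mix t p
  cc_vertex i p := mix_vertex i p
  cc_cc t s p := mix_mix t s p
  continuous_cc p := continuous_mix p

noncomputable instance instCCVec {E : Type*} [AddCommGroup E] [Module ℝ E] [TopologicalSpace E]
    [ContinuousAdd E] [ContinuousSMul ℝ E] : CC E where
  cc t p := ∑ i, t i • p i
  cc_vertex i p := by simp [Pi.single_apply]
  cc_cc t s p := by
    simp only [mix_apply, Finset.smul_sum, Finset.sum_smul, smul_smul]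
    rw [Finset.sum_comm]
  continuous_cc p := by
    apply continuous_finsetSum
    intro i _
    apply Continuous.smul _ continuous_const
    exact (continuous_apply i).comp continuous_subtype_val

theorem cc_Dmap {K : Type*} [TopologicalSpace K] [CC K] {k m : ℕ} (f : Fin k → Fin m)
    (t : Dl k) (p : Fin m → K) : cc (Dmap f t) p = cc t (p ∘ f) := by
  rw [Dmap_eq_mix, ← CC.cc_cc]
  congr 1
  ext i
  exact CC.cc_vertex _ _

/-- Affine maps. -/
def IsAff {K L : Type*} [TopologicalSpace K] [CC K] [TopologicalSpace L] [CC L] (φ : K → L) :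
    Prop := ∀ (k : ℕ) (t : Dl k) (p : Fin k → K), φ (cc t p) = cc t (φ ∘ p)

section aff

variable {K L : Type*} [TopologicalSpace K] [CC K] [TopologicalSpace L] [CC L]

/-- The affine singular simplex with given vertices. -/
@[reducible] noncomputable def aff (l : List K) : Sing K :=
  ⟨l.length, ⟨fun t => cc t l.get, CC.continuous_cc _⟩⟩

theorem aff_congr {X : Type*} [TopologicalSpace X] (f : C(K, X)) {k k' : ℕ} (p : Fin k → K)
    (q : Fin k' → K) (h : k = k') (hpq : ∀ i, p i = q (i.cast h)) :
    (⟨k, f.comp ⟨fun t => cc t p, CC.continuous_cc _⟩⟩ : Sing X) =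
      ⟨k', f.comp ⟨fun t => cc t q, CC.continuous_cc _⟩⟩ := by
  subst h
  have : p = q := funext hpq
  subst this
  rfl

/-- Linear extension of `aff`. -/
noncomputable def affL : LC K →ₗ[F2] SC K := lin fun l => single (aff l) 1

@[simp] theorem affL_single (l : List K) : affL (single l 1) = single (aff l) 1 := lin_single _ _

theorem aff_sub (l : List K) (l' : List (Fin l.length)) :
    (aff l).sub l' = aff (l'.map l.get) := by
  have h1 : (aff l).sub l' = ⟨l'.length, (ContinuousMap.id K).comp
      ⟨fun t => cc t (l.get ∘ l'.get), CC.continuous_cc _⟩⟩ := by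
    unfold Sing.sub aff
    congr 1
    ext t
    exact cc_Dmap _ _ _
  have h2 : aff (l'.map l.get) = ⟨(l'.map l.get).length, (ContinuousMap.id K).comp
      ⟨fun t => cc t (l'.map l.get).get, CC.continuous_cc _⟩⟩ := rfl
  rw [h1, h2]
  apply aff_congr _ _ _ (by simp)
  intro i
  simp

theorem realL_aff (l : List K) (x : LC (Fin l.length)) :
    realL (aff l) x = affL (mapL l.get x) := by
  have : (realL (aff l) : LC (Fin l.length) →ₗ[F2] SC K) = affL ∘ₗ mapL l.get := by
    apply lin_ext; intro l'
    rw [LinearMap.comp_apply, mapL_single, affL_single, realL_single, aff_sub]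
  exact congrArg (fun g => g x) this

theorem bdS_affL (x : LC K) : bdS (affL x) = affL (bd x) := by
  have : (bdS ∘ₗ affL : LC K →ₗ[F2] SC K) = affL ∘ₗ bd := by
    apply lin_ext; intro l
    rw [LinearMap.comp_apply, LinearMap.comp_apply, affL_single, bdS_single, realL_aff, mapL_bd,
      mapL_get_univ]
  exact congrArg (fun g => g x) this

theorem push_affL (φ : C(K, L)) (hφ : IsAff φ) (x : LC K) :
    push φ (affL x) = affL (mapL φ x) := by
  have : (push φ ∘ₗ affL) = (affL ∘ₗ mapL φ) := by
    apply lin_ext; intro l
    rw [LinearMap.comp_apply, LinearMap.comp_apply, affL_single, push_single, mapL_single,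
      affL_single]
    congr 1
    have h1 : (aff l).push φ = ⟨l.length, (ContinuousMap.id L).comp
        ⟨fun t => cc t (φ ∘ l.get), CC.continuous_cc _⟩⟩ := by
      unfold Sing.push aff
      congr 1
      ext t
      exact hφ _ _ _
    have h2 : aff (l.map φ) = ⟨(l.map φ).length, (ContinuousMap.id L).comp
        ⟨fun t => cc t (l.map φ).get, CC.continuous_cc _⟩⟩ := rfl
    rw [h1, h2]
    apply aff_congr _ _ _ (by simp)
    intro i
    simp
  exact congrArg (fun g => g x) this

theorem aff_isAff (l : List K) : IsAff (aff l).map := by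
  intro k t p
  change cc (mix t p) l.get = cc t (fun i => cc (p i) l.get)
  rw [CC.cc_cc]

end aff

/-- The list of vertices of the standard simplex. -/
noncomputable def verts (m : ℕ) : List (Dl m) := (List.finRange m).map stdSimplex.vertex

theorem verts_length (m : ℕ) : (verts m).length = m := by simp [verts]

theorem mapL_aff_verts {K : Type*} [TopologicalSpace K] [CC K] (l : List K) :
    mapL (aff l).map (single (verts l.length) 1) = single l 1 := by
  rw [mapL_single]
  congr 1
  unfold verts
  rw [List.map_map]
  have : ((aff l).map ∘ stdSimplex.vertex : Fin l.length → K) = l.get := by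
    ext i
    exact CC.cc_vertex _ _
  rw [this]
  exact List.map_get_finRange l

theorem Sing.sub_eq_push_aff {X : Type*} [TopologicalSpace X] (σ : Sing X)
    (l : List (Fin σ.nv)) :
    σ.sub l = (aff (l.map (stdSimplex.vertex : Fin σ.nv → Dl σ.nv))).push σ.map := by
  have h1 : σ.sub l = ⟨l.length, σ.map.comp
      ⟨fun t => cc t (fun i => (stdSimplex.vertex (l.get i) : Dl σ.nv)),
        CC.continuous_cc _⟩⟩ := by
    unfold Sing.sub
    congr 1
    ext t
    change σ.map _ = σ.map _
    rw [Dmap_eq_mix]
    rfl
  rw [h1]
  have h2 : (aff (l.map (stdSimplex.vertex : Fin σ.nv → Dl σ.nv))).push σ.map =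
    ⟨(l.map (stdSimplex.vertex : Fin σ.nv → Dl σ.nv)).length, σ.map.comp
      ⟨fun t => cc t (l.map (stdSimplex.vertex : Fin σ.nv → Dl σ.nv)).get,
        CC.continuous_cc _⟩⟩ := rfl
  rw [h2]
  apply aff_congr _ _ _ (by simp)
  intro i
  simp

theorem realL_eq_push_aff {X : Type*} [TopologicalSpace X] (σ : Sing X) (x : LC (Fin σ.nv)) :
    realL σ x = push σ.map (affL (mapL stdSimplex.vertex x)) := by
  have : (realL σ : LC (Fin σ.nv) →ₗ[F2] SC X) =
      push σ.map ∘ₗ affL ∘ₗ mapL stdSimplex.vertex := by
    apply lin_ext; intro l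
    rw [LinearMap.comp_apply, LinearMap.comp_apply, mapL_single, affL_single, push_single,
      realL_single, Sing.sub_eq_push_aff]
  exact congrArg (fun g => g x) this

/-- Operators on list chains natural for affine maps. -/
structure AffOp where
  /-- the operator -/
  op : ∀ (K : Type) [TopologicalSpace K] [CC K], LC K →ₗ[F2] LC K
  /-- naturality -/
  nat : ∀ {K L : Type} [TopologicalSpace K] [CC K] [TopologicalSpace L] [CC L] (φ : K → L)
    (_ : IsAff φ) (x : LC K), op L (mapL φ x) = mapL φ (op K x)

section lift

variable {X Y : Type*} [TopologicalSpace X] [TopologicalSpace Y]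

/-- Operator on singular chains induced by an affine operator. -/
noncomputable def AffOp.lift (O : AffOp) : SC X →ₗ[F2] SC X :=
  lin fun σ => push σ.map (affL (O.op (Dl σ.nv) (single (verts σ.nv) 1)))

theorem AffOp.lift_single (O : AffOp) (σ : Sing X) :
    O.lift (single σ 1) = push σ.map (affL (O.op (Dl σ.nv) (single (verts σ.nv) 1))) :=
  lin_single _ _

theorem AffOp.lift_push_affL (O : AffOp) {K : Type} [TopologicalSpace K] [CC K] (f : C(K, X))
    (x : LC K) : O.lift (push f (affL x)) = push f (affL (O.op K x)) := by
  have : (O.lift ∘ₗ push f ∘ₗ affL) = (push f ∘ₗ affL ∘ₗ O.op K) := by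
    apply lin_ext; intro l
    simp only [LinearMap.comp_apply, affL_single, push_single]
    rw [AffOp.lift_single]
    have h1 : ∀ z : SC (Dl l.length), push (f.comp (aff l).map) z =
        push f (push (aff l).map z) := fun z => (push_push _ _ z).symm
    change push (f.comp (aff l).map) _ = _
    rw [h1, push_affL _ (aff_isAff l), ← O.nat _ (aff_isAff l), mapL_aff_verts]
  exact congrArg (fun g => g x) this

theorem AffOp.lift_realL (O : AffOp) (σ : Sing X) (x : LC (Fin σ.nv)) :
    O.lift (realL σ x) = push σ.map (affL (O.op _ (mapL stdSimplex.vertex x))) := by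
  rw [realL_eq_push_aff, O.lift_push_affL]

theorem single_eq_push_affL (σ : Sing X) :
    (single σ 1 : SC X) = push σ.map (affL (single (verts σ.nv) 1)) := by
  rw [← realL_univ, realL_eq_push_aff, univ, mapL_single]
  rfl

theorem bdS_eq_push_affL (σ : Sing X) :
    bdS (single σ 1 : SC X) = push σ.map (affL (bd (single (verts σ.nv) 1))) := by
  rw [single_eq_push_affL, ← push_bdS, bdS_affL]

/-- Transfer of `∂ R + R ∂ = A + B`. -/
theorem AffOp.homotopy_lift (R A B : AffOp)
    (h : ∀ (K : Type) [TopologicalSpace K] [CC K] (x : LC K),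
      bd (R.op K x) + R.op K (bd x) = A.op K x + B.op K x) (x : SC X) :
    bdS (R.lift x) + R.lift (bdS x) = A.lift x + B.lift x := by
  have : (bdS ∘ₗ R.lift + R.lift ∘ₗ bdS : SC X →ₗ[F2] SC X) = A.lift + B.lift := by
    apply lin_ext; intro σ
    simp only [LinearMap.comp_apply, LinearMap.add_apply]
    rw [R.lift_single, A.lift_single, B.lift_single, bdS_eq_push_affL, R.lift_push_affL,
      ← push_bdS, bdS_affL, ← map_add, ← map_add, ← map_add, ← map_add, h]
  exact congrArg (fun g => g x) this

theorem AffOp.chain_lift (A : AffOp)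
    (h : ∀ (K : Type) [TopologicalSpace K] [CC K] (x : LC K),
      bd (A.op K x) = A.op K (bd x)) (x : SC X) :
    bdS (A.lift x) = A.lift (bdS x) := by
  have : (bdS ∘ₗ A.lift : SC X →ₗ[F2] SC X) = A.lift ∘ₗ bdS := by
    apply lin_ext; intro σ
    simp only [LinearMap.comp_apply]
    rw [A.lift_single, bdS_eq_push_affL, A.lift_push_affL,
      ← push_bdS, bdS_affL, h]
  exact congrArg (fun g => g x) this

theorem AffOp.push_lift (O : AffOp) (f : C(X, Y)) (x : SC X) :
    push f (O.lift x) = O.lift (push f x) := by
  have : (push f ∘ₗ O.lift) = (O.lift ∘ₗ push f) := by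
    apply lin_ext; intro σ
    simp only [LinearMap.comp_apply, push_single]
    rw [AffOp.lift_single, AffOp.lift_single, push_push]
  exact congrArg (fun g => g x) this

theorem push_map_mem_CIn {σ : Sing X} {A : Set X} (h : σ.In A) (x : SC (Dl σ.nv)) :
    push σ.map x ∈ CIn A :=
  push_mem_CIn σ.map (fun t _ => h t) (CIn_univ x)

theorem AffOp.lift_mem_CIn (O : AffOp) {A : Set X} {x : SC X} (h : x ∈ CIn A) :
    O.lift x ∈ CIn A := by
  refine supp_induction (CIn A) O.lift ?_ h
  intro σ hσ
  rw [AffOp.lift_single]
  exact push_map_mem_CIn hσ _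

end lift

/-- The identity. -/
noncomputable def idAff : AffOp where
  op _ _ _ := LinearMap.id
  nat _ _ _ := rfl

theorem idAff_lift {X : Type*} [TopologicalSpace X] (x : SC X) : idAff.lift x = x := by
  have : (idAff.lift : SC X →ₗ[F2] SC X) = LinearMap.id := by
    apply lin_ext; intro σ
    rw [AffOp.lift_single]
    exact (single_eq_push_affL σ).symm
  exact congrArg (fun g => g x) this

/-! ### Subdivision of lists -/

section sd

variable {K L : Type} [TopologicalSpace K] [CC K] [TopologicalSpace L] [CC L]

/-- Barycentre of a nonempty list. -/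
noncomputable def bary (a : K) (l : List K) : K :=
  cc (stdSimplex.barycenter : Dl (l.length + 1)) (a :: l).get

theorem IsAff.map_bary {φ : K → L} (hφ : IsAff φ) (a : K) (l : List K) :
    φ (bary a l) = bary (φ a) (l.map φ) := by
  unfold bary
  rw [hφ]
  have key : ∀ (n : ℕ) (h : l.length = n) (p : Fin (l.length + 1) → L)
      (q : Fin (n + 1) → L) (_ : ∀ i, p i = q (i.cast (by rw [h]))),
      cc (stdSimplex.barycenter : Dl (l.length + 1)) p =
        cc (stdSimplex.barycenter : Dl (n + 1)) q := by
    intro n h p q hpq
    subst h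
    congr 1
    ext i
    exact hpq i
  apply key (l.map φ).length (by simp)
  intro i
  refine Fin.cases ?_ ?_ i
  · rfl
  · intro j
    simp

/-- Subdivision of a list, by recursion on a bound of the length. -/
noncomputable def sd1 : ℕ → List K → LC K
  | 0, l => single l 1
  | (_ + 1), [] => single [] 1
  | (n + 1), (a :: l) => cone (bary a l) (lin (sd1 n) (bd1 (a :: l)))

/-- Homotopy operator of a list. -/
noncomputable def td1 : ℕ → List K → LC K
  | 0, _ => 0
  | (_ + 1), [] => 0
  | (n + 1), (a :: l) => cone (bary a l) (single (a :: l) 1 + lin (td1 n) (bd1 (a :: l)))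

/-- Subdivision. -/
noncomputable def sd : LC K →ₗ[F2] LC K := lin fun l => sd1 l.length l

/-- Homotopy operator. -/
noncomputable def td : LC K →ₗ[F2] LC K := lin fun l => td1 l.length l

theorem bd1_len {T : Type*} (a : T) (l : List T) :
    bd1 (a :: l) ∈ supp fun q : List T => q.length = l.length := by
  induction l generalizing a with
  | nil =>
    simp only [bd1_cons, bd1_nil, map_zero, add_zero]
    exact single_mem_supp (P := fun q : List T => q.length = 0) rfl
  | cons b l ih =>
    rw [bd1_cons]
    apply Submodule.add_mem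
    · exact single_mem_supp (P := fun q : List T => q.length = (b :: l).length) rfl
    · refine supp_induction _ (cone a) ?_ (ih b)
      intro q hq
      rw [cone_single]
      exact single_mem_supp (P := fun q : List T => q.length = (b :: l).length) (by simp [hq])

theorem sd_single_nil : sd (single ([] : List K) 1) = single [] 1 := by
  rw [sd, lin_single]; rfl

theorem td_single_nil : td (single ([] : List K) 1) = 0 := by
  rw [td, lin_single]; rfl

theorem sd_single_cons (a : K) (l : List K) :
    sd (single (a :: l) 1) = cone (bary a l) (sd (bd1 (a :: l))) := by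
  rw [sd, lin_single]
  change cone (bary a l) (lin (sd1 l.length) (bd1 (a :: l))) = _
  congr 1
  apply supp_ext _ _ _ (bd1_len a l)
  intro q hq
  rw [lin_single, lin_single, hq]

theorem td_single_cons (a : K) (l : List K) :
    td (single (a :: l) 1) = cone (bary a l) (single (a :: l) 1 + td (bd1 (a :: l))) := by
  rw [td, lin_single]
  change cone (bary a l) (single (a :: l) 1 + lin (td1 l.length) (bd1 (a :: l))) = _
  congr 2
  apply supp_ext _ _ _ (bd1_len a l)
  intro q hq
  rw [lin_single, lin_single, hq]

theorem list_len_induction {T : Type*} {P : List T → Prop} (h0 : P [])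
    (hs : ∀ a l, (∀ q : List T, q.length = l.length → P q) → P (a :: l)) : ∀ l, P l := by
  have : ∀ n, ∀ l : List T, l.length = n → P l := by
    intro n
    induction n with
    | zero => intro l hl; rw [List.length_eq_zero_iff] at hl; subst hl; exact h0
    | succ n ih =>
      intro l hl
      cases l with
      | nil => simp at hl
      | cons a l =>
        apply hs
        intro q hq
        apply ih
        rw [hq]
        simpa using hl
  exact fun l => this _ l rfl

theorem bd_sd (x : LC K) : bd (sd x) = sd (bd x) := by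
  have : (bd ∘ₗ sd : LC K →ₗ[F2] LC K) = sd ∘ₗ bd := by
    apply lin_ext
    apply list_len_induction
    · simp only [LinearMap.comp_apply, sd_single_nil, bd_single, bd1_nil, map_zero]
    · intro a l ih
      simp only [LinearMap.comp_apply, bd_single]
      rw [sd_single_cons, bd_cone]
      have h1 : bd (sd (bd1 (a :: l))) = sd (bd (bd1 (a :: l))) :=
        supp_ext (bd ∘ₗ sd) (sd ∘ₗ bd) ih (bd1_len a l)
      have h2 : bd (bd1 (a :: l)) = 0 := by rw [← bd_single, bd_bd]
      rw [h1, h2, map_zero, map_zero, add_zero]
  exact congrArg (fun g => g x) this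

theorem bd_td (x : LC K) : bd (td x) + td (bd x) = x + sd x := by
  have : (bd ∘ₗ td + td ∘ₗ bd : LC K →ₗ[F2] LC K) = LinearMap.id + sd := by
    apply lin_ext
    apply list_len_induction
    · simp only [LinearMap.comp_apply, LinearMap.add_apply, td_single_nil, bd_single, bd1_nil,
        map_zero, sd_single_nil, LinearMap.id_apply, add_zero]
      exact (add_self_eq_zero' _).symm
    · intro a l ih
      simp only [LinearMap.comp_apply, LinearMap.add_apply, bd_single, LinearMap.id_apply]
      rw [td_single_cons, bd_cone, sd_single_cons]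
      have h1 : bd (td (bd1 (a :: l))) + td (bd (bd1 (a :: l))) =
          bd1 (a :: l) + sd (bd1 (a :: l)) :=
        supp_ext (bd ∘ₗ td + td ∘ₗ bd) (LinearMap.id + sd) ih (bd1_len a l)
      have h2 : bd (bd1 (a :: l)) = 0 := by rw [← bd_single, bd_bd]
      rw [h2, map_zero, add_zero] at h1
      rw [map_add bd, bd_single, h1, ← add_assoc (bd1 (a :: l)), add_self_eq_zero', zero_add]
      generalize td (bd1 (a :: l)) = A
      generalize cone (bary a l) (sd (bd1 (a :: l))) = B
      calc single (a :: l) 1 + A + B + A = single (a :: l) 1 + B + (A + A) := by abel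
        _ = _ := by rw [add_self_eq_zero', add_zero]
  exact congrArg (fun g => g x) this

theorem sd_nat {φ : K → L} (hφ : IsAff φ) (x : LC K) : sd (mapL φ x) = mapL φ (sd x) := by
  have : (sd ∘ₗ mapL φ) = (mapL φ ∘ₗ sd) := by
    apply lin_ext
    apply list_len_induction
    · simp only [LinearMap.comp_apply, mapL_single, List.map_nil, sd_single_nil]
    · intro a l ih
      simp only [LinearMap.comp_apply, mapL_single, List.map_cons]
      rw [sd_single_cons, sd_single_cons, mapL_cone, hφ.map_bary]
      congr 1
      rw [← List.map_cons, ← mapL_bd1]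
      exact supp_ext (sd ∘ₗ mapL φ) (mapL φ ∘ₗ sd) ih (bd1_len a l)
  exact congrArg (fun g => g x) this

theorem td_nat {φ : K → L} (hφ : IsAff φ) (x : LC K) : td (mapL φ x) = mapL φ (td x) := by
  have : (td ∘ₗ mapL φ) = (mapL φ ∘ₗ td) := by
    apply lin_ext
    apply list_len_induction
    · simp only [LinearMap.comp_apply, mapL_single, List.map_nil, td_single_nil, map_zero]
    · intro a l ih
      simp only [LinearMap.comp_apply, mapL_single, List.map_cons]
      rw [td_single_cons, td_single_cons, mapL_cone, hφ.map_bary]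
      congr 1
      rw [map_add, mapL_single, List.map_cons]
      congr 1
      rw [← List.map_cons, ← mapL_bd1]
      exact supp_ext (td ∘ₗ mapL φ) (mapL φ ∘ₗ td) ih (bd1_len a l)
  exact congrArg (fun g => g x) this

end sd

/-- Subdivision as an affine operator. -/
noncomputable def sdOp : AffOp where
  op _ _ _ := sd
  nat _ hφ x := sd_nat hφ x

/-- The homotopy as an affine operator. -/
noncomputable def tdOp : AffOp where
  op _ _ _ := td
  nat _ hφ x := td_nat hφ x

variable {X Y : Type*} [TopologicalSpace X] [TopologicalSpace Y]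

/-- Subdivision of singular chains. -/
noncomputable def sdS : SC X →ₗ[F2] SC X := sdOp.lift

/-- Subdivision homotopy of singular chains. -/
noncomputable def tdS : SC X →ₗ[F2] SC X := tdOp.lift

theorem bdS_sdS (x : SC X) : bdS (sdS x) = sdS (bdS x) :=
  sdOp.chain_lift (fun _ _ _ x => bd_sd x) x

theorem bdS_tdS (x : SC X) : bdS (tdS x) + tdS (bdS x) = x + sdS x := by
  have := tdOp.homotopy_lift idAff sdOp (fun _ _ _ x => bd_td x) x
  rw [idAff_lift] at this
  exact this

end STop
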