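import Pool.Agent.Lib.P26f563.Equi
import Pool.Agent.Lib.P26f563.Defs

/-!
# The theory of invariant singular cochains mod 2: functoriality, connecting map, exactness,
excision, additivity
-/

open Finsupp STop

namespace EqTC

variable {G : Type} [Group G] [TopologicalSpace G] {X Y Z : GSpace G}

/-- The submodule on which relative cochains vanish. -/
noncomputable abbrev NA (X : GSpace G) (A : GSub X) : Submodule F2 (SC X) := NG G {A.set}

theorem adm_NA (A : GSub X) : Adm (NA X A) := adm_NG ⟨_, rfl⟩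

theorem CIn_le_NA (A : GSub X) : CIn A.set ≤ NA X A := by
  rw [← CS_singleton]
  exact CS_le_NG _

theorem NA_induction {A : GSub X} {S : Submodule F2 (SC X)} (h1 : CIn A.set ≤ S)
    (h2 : KG G X ≤ S) : NA X A ≤ S := by
  apply sup_le _ h2
  rwa [CS_singleton]

theorem maps_NA {A : GSub X} {B : GSub Y} (f : GMap X Y) (hf : ∀ x ∈ A.set, f.map x ∈ B.set) :
    ∀ x ∈ NA X A, push f.map x ∈ NA Y B := by
  intro x hx
  refine (equi_push (G := G) f.map f.equi).mem_NG ?_ hx
  intro x hx
  rw [CS_singleton] at hx ⊢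
  exact push_mem_CIn f.map hf hx

/-- Induced homomorphisms. -/
noncomputable def pullG {n : ℤ} {A : GSub X} {B : GSub Y} (f : GMap X Y)
    (hf : ∀ x ∈ A.set, f.map x ∈ B.set) : Hn n (NA Y B) →ₗ[F2] Hn n (NA X A) :=
  pullH n (push f.map) (grMap_push _) (maps_NA f hf)

theorem pullG_cls {n : ℤ} {A : GSub X} {B : GSub Y} (f : GMap X Y)
    (hf : ∀ x ∈ A.set, f.map x ∈ B.set) (c : Module.Dual F2 (SC Y)) (hc : c ∈ Zn n (NA Y B)) :
    pullG f hf (cls c hc) = cls ((push f.map).dualMap c)
      ((grMap_push f.map).dual_Zn (maps_NA f hf) hc) := rfl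

theorem cls_congr {X : Type*} [TopologicalSpace X] {n : ℤ} {N : Submodule F2 (SC X)}
    {c d : Module.Dual F2 (SC X)} (hc : c ∈ Zn n N) (h : c = d) :
    cls c hc = cls d (h ▸ hc) := by
  subst h; rfl

theorem pullG_id {n : ℤ} {A : GSub X} (h : ∀ x ∈ A.set, (GMap.id X).map x ∈ A.set)
    (x : Hn n (NA X A)) : pullG (GMap.id X) h x = x := by
  obtain ⟨c, hc, rfl⟩ := exists_cls x
  rw [pullG_cls]
  have : (push (GMap.id X).map).dualMap c = c := by
    apply LinearMap.ext; intro z
    rw [LinearMap.dualMap_apply]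
    exact congrArg c (push_id z)
  exact cls_congr _ this

theorem pullG_comp {n : ℤ} {A : GSub X} {B : GSub Y} {C : GSub Z} (f : GMap X Y) (g : GMap Y Z)
    (hf : ∀ x ∈ A.set, f.map x ∈ B.set) (hg : ∀ x ∈ B.set, g.map x ∈ C.set)
    (hgf : ∀ x ∈ A.set, (g.comp f).map x ∈ C.set) (z : Hn n (NA Z C)) :
    pullG (g.comp f) hgf z = pullG f hf (pullG g hg z) := by
  obtain ⟨c, hc, rfl⟩ := exists_cls z
  rw [pullG_cls, pullG_cls, pullG_cls]
  apply cls_congr
  apply LinearMap.ext; intro z
  rw [LinearMap.dualMap_apply, LinearMap.dualMap_apply, LinearMap.dualMap_apply, push_push]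
  rfl

theorem pullG_homotopy {n : ℤ} {A : GSub X} {B : GSub Y} (f₀ f₁ : GMap X Y)
    (h₀ : ∀ x ∈ A.set, f₀.map x ∈ B.set) (h₁ : ∀ x ∈ A.set, f₁.map x ∈ B.set)
    (F : C(X × unitInterval, Y)) (hF : ∀ (g : G) (x : X) (t : unitInterval),
      F (g • x, t) = g • F (x, t)) (hA : ∀ x ∈ A.set, ∀ t, F (x, t) ∈ B.set)
    (e₀ : ∀ x, F (x, 0) = f₀.map x) (e₁ : ∀ x, F (x, 1) = f₁.map x) (y : Hn n (NA Y B)) :
    pullG f₀ h₀ y = pullG f₁ h₁ y := by
  have := pullH_homotopy n (grMap_push f₀.map) (grMap_push f₁.map) (maps_NA f₀ h₀)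
    (maps_NA f₁ h₁) (homS F) (by
      intro x
      rw [bdS_homS]
      congr 2
      · congr 1; ext x; exact e₀ x
      · congr 1; ext x; exact e₁ x)
    (by
      intro x hx
      refine (equi_homS (G := G) F hF).mem_NG ?_ hx
      intro x hx
      rw [CS_singleton] at hx ⊢
      exact homS_mem_CIn F hA hx)
    (shift_prv (homS_deg F))
  exact congrArg (fun g => g y) this

section sub

/-- The retraction on chains of an invariant subset. -/
noncomputable def resG (A : GSub X) : SC X →ₗ[F2] SC A.toSpace := resS A.set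

theorem resG_push (A : GSub X) (x : SC A.toSpace) : resG A (push A.incl.map x) = x :=
  resS_push A.set x

theorem push_resG {A : GSub X} {x : SC X} (h : x ∈ CIn A.set) :
    push A.incl.map (resG A x) = x := push_resS h

theorem push_inclG_mem (A : GSub X) (x : SC A.toSpace) : push A.incl.map x ∈ CIn A.set :=
  push_incl_mem A.set x

theorem bdS_resG {A : GSub X} {x : SC X} (h : x ∈ CIn A.set) :
    bdS (resG A x) = resG A (bdS x) := bdS_resS h

theorem resG_prv (A : GSub X) (m : ℕ) (x : SC X) : resG A (prv m x) = prv m (resG A x) :=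
  resS_prv A.set m x

theorem act_In {A : GSub X} {σ : Sing X} (g : G) (h : σ.In A.set) :
    (σ.push (STop.act G g)).In A.set := fun t => A.inv g _ (h t)

theorem act_In_iff {A : GSub X} {σ : Sing X} (g : G) :
    (σ.push (STop.act G g)).In A.set ↔ σ.In A.set := by
  constructor
  · intro h t
    have := A.inv g⁻¹ _ (h t)
    change g⁻¹ • (g • σ.map t) ∈ A.set at this
    rwa [inv_smul_smul] at this
  · exact act_In g

/-- Corestriction of simplices. -/
def coG {A : GSub X} (σ : Sing X) (h : σ.In A.set) : Sing A.toSpace := σ.corestr h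

theorem resG_single_of {A : GSub X} {σ : Sing X} (h : σ.In A.set) :
    resG A (single σ 1) = single (coG σ h) 1 := resS_single_of h

theorem equi_resG (A : GSub X) : Equi G (resG A) := by
  intro g x
  have : resG A ∘ₗ push (STop.act G g) = push (STop.act G g) ∘ₗ resG A := by
    apply lin_ext; intro σ
    rw [LinearMap.comp_apply, LinearMap.comp_apply, push_single]
    by_cases h : σ.In A.set
    · rw [resG_single_of (act_In g h), resG_single_of h, push_single]
      rfl
    · have h' : ¬ (σ.push (STop.act G g)).In A.set := fun h2 => h ((act_In_iff g).1 h2)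
      have e1 : resG A (single (σ.push (STop.act G g)) 1) = 0 := resS_single_of_not h'
      have e2 : resG A (single σ 1) = 0 := resS_single_of_not h
      rw [e1, e2, map_zero]
  exact congrArg (fun g => g x) this

theorem equi_push_incl (A : GSub X) : Equi G (push A.incl.map) := equi_push _ A.incl.equi

theorem zero_of_KG {n : ℤ} {A : GSub X} {c : SC X →ₗ[F2] F2} (hc : c ∈ Cn n (NA X A)) {x : SC X}
    (hx : x ∈ KG G X) : c x = 0 := hc.1 x (KG_le_NG _ hx)

theorem zero_of_CIn {n : ℤ} {A : GSub X} {c : SC X →ₗ[F2] F2} (hc : c ∈ Cn n (NA X A)) {x : SC X}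
    (hx : x ∈ CIn A.set) : c x = 0 := hc.1 x (CIn_le_NA _ hx)

/-- To vanish on `NA X A`. -/
theorem vanish_NA {A : GSub X} {c : SC X →ₗ[F2] F2} (h1 : ∀ x ∈ CIn A.set, c x = 0)
    (h2 : ∀ x ∈ KG G X, c x = 0) : ∀ x ∈ NA X A, c x = 0 := by
  have := NA_induction (A := A) (S := LinearMap.ker c) (fun x hx => h1 x hx) (fun x hx => h2 x hx)
  exact fun x hx => this hx

theorem empty_le {X : GSpace G} {A : GSub X} : NA X (GSub.empty X) ≤ NA X A := by
  apply NG_mono
  intro U hU
  refine ⟨A.set, rfl, ?_⟩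
  rw [Set.mem_singleton_iff] at hU
  rw [hU]
  exact Set.empty_subset _

/-- Extension by zero of a cochain of the subspace. -/
theorem ext_mem {n : ℤ} {A : GSub X} {c : SC A.toSpace →ₗ[F2] F2}
    (hc : c ∈ Cn n (NA A.toSpace (GSub.empty _))) : c ∘ₗ resG A ∈ Cn n (NA X (GSub.empty X)) := by
  refine ⟨vanish_NA ?_ ?_, ?_⟩
  · intro x hx
    rw [LinearMap.comp_apply]
    apply zero_of_CIn hc
    have hx' : x ∈ Deg X 0 := by
      have : CIn (GSub.empty X).set = Deg X 0 := CIn_empty
      rwa [this] at hx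
    rw [← prv_of_mem hx', resG_prv]
    exact Deg_zero_le_CIn _ (prv_mem 0 _)
  · intro x hx
    exact zero_of_KG hc ((equi_resG A).mem_KG hx)
  · intro m hm x
    rw [LinearMap.comp_apply, resG_prv]
    exact hc.2 m hm _

theorem conn_aux {n : ℤ} {A : GSub X} {c : SC A.toSpace →ₗ[F2] F2}
    (hc : c ∈ Zn n (NA A.toSpace (GSub.empty _))) : del (c ∘ₗ resG A) ∈ Zn (n + 1) (NA X A) := by
  rw [mem_Zn] at hc ⊢
  refine ⟨?_, del_del _⟩
  have h := del_mem_Cn (adm_NA _) (ext_mem hc.1)
  refine ⟨vanish_NA ?_ ?_, h.2⟩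
  · intro x hx
    rw [del_apply, LinearMap.comp_apply, ← bdS_resG hx, ← del_apply, hc.2]
    rfl
  · intro x hx
    exact zero_of_KG h hx

/-- The connecting homomorphism. -/
noncomputable def connG {n : ℤ} (A : GSub X) :
    Hn n (NA A.toSpace (GSub.empty A.toSpace)) →ₗ[F2] Hn (n + 1) (NA X A) :=
  Hmap (del ∘ₗ (resG A).dualMap) (fun _ hc => conn_aux hc) (by
    intro c hc
    rw [mem_Bn] at hc ⊢
    obtain ⟨b, hb, rfl⟩ := hc
    have hn : n + 1 - 1 = n := by ring
    have hn' : n - 1 + 1 = n := by ring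
    have h1 := del_mem_Cn (adm_NA _) hb
    have h2 := ext_mem h1
    have h3 := del_mem_Cn (adm_NA _) (ext_mem hb)
    rw [hn'] at h2 h3
    rw [hn]
    refine ⟨(del b) ∘ₗ resG A + del (b ∘ₗ resG A), ⟨vanish_NA ?_ ?_, ?_⟩, ?_⟩
    · intro x hx
      rw [LinearMap.add_apply, LinearMap.comp_apply, del_apply, del_apply, LinearMap.comp_apply,
        bdS_resG hx, F2.add_self]
    · intro x hx
      rw [LinearMap.add_apply, zero_of_KG h2 hx, zero_of_KG h3 hx, add_zero]
    · intro m hm x
      rw [LinearMap.add_apply, h2.2 m hm, h3.2 m hm, add_zero]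
    · rw [map_add, del_del, add_zero]
      rfl)

theorem connG_cls {n : ℤ} {A : GSub X} (c : SC A.toSpace →ₗ[F2] F2)
    (hc : c ∈ Zn n (NA A.toSpace (GSub.empty _))) :
    connG A (cls c hc) = cls (del (c ∘ₗ resG A)) (conn_aux hc) := rfl

theorem resG_push_comm {A : GSub X} {B : GSub Y} (f : GMap X Y)
    (hf : ∀ x ∈ A.set, f.map x ∈ B.set) {x : SC X} (hx : x ∈ CIn A.set) :
    resG B (push f.map x) = push (f.restrict hf).map (resG A x) := by
  have h1 : push B.incl.map (push (f.restrict hf).map (resG A x)) = push f.map x := by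
    rw [push_push]
    have : B.incl.map.comp (f.restrict hf).map = f.map.comp A.incl.map := rfl
    rw [this, ← push_push, push_resG hx]
  rw [← h1, resG_push]

theorem pullG_connG {n : ℤ} {A : GSub X} {B : GSub Y} (f : GMap X Y)
    (hf : ∀ x ∈ A.set, f.map x ∈ B.set) (y : Hn n (NA B.toSpace (GSub.empty B.toSpace))) :
    pullG f hf (connG B y) = connG A (pullG (f.restrict hf) (GSub.maps_empty _ _) y) := by
  obtain ⟨c, hc, rfl⟩ := exists_cls y
  rw [connG_cls, pullG_cls, pullG_cls, connG_cls, cls_eq_iff, mem_Bn]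
  rw [mem_Zn] at hc
  have hn : n + 1 - 1 = n := by ring
  rw [hn]
  have h1 := (grMap_push f.map).dual_Cn (maps_NA f (GSub.maps_empty f _)) (ext_mem hc.1)
  have h2 := ext_mem ((grMap_push (f.restrict hf).map).dual_Cn
    (maps_NA (f.restrict hf) (GSub.maps_empty _ _)) hc.1)
  refine ⟨(push f.map).dualMap (c ∘ₗ resG B) +
    ((push (f.restrict hf).map).dualMap c) ∘ₗ resG A, ⟨vanish_NA ?_ ?_, ?_⟩, ?_⟩
  · intro x hx
    rw [LinearMap.add_apply, LinearMap.dualMap_apply, LinearMap.comp_apply, LinearMap.comp_apply,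
      LinearMap.dualMap_apply, resG_push_comm f hf hx, F2.add_self]
  · intro x hx
    rw [LinearMap.add_apply, zero_of_KG h1 hx, zero_of_KG h2 hx, add_zero]
  · intro m hm x
    rw [LinearMap.add_apply, h1.2 m hm, h2.2 m hm, add_zero]
  · rw [map_add, (grMap_push f.map).dual_del]

/-- Pulling back along the identity, on representatives. -/
theorem pullG_id_cls {n : ℤ} {A B : GSub X} (h : ∀ x ∈ A.set, (GMap.id X).map x ∈ B.set)
    (c : Module.Dual F2 (SC X)) (hc : c ∈ Zn n (NA X B)) (hc' : c ∈ Zn n (NA X A)) :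
    pullG (GMap.id X) h (cls c hc) = cls c hc' := by
  rw [pullG_cls]
  have : (push (GMap.id X).map).dualMap c = c := by
    apply LinearMap.ext; intro z
    rw [LinearMap.dualMap_apply]
    exact congrArg c (push_id z)
  exact cls_congr _ this

theorem Zn_anti {X : Type*} [TopologicalSpace X] {n : ℤ} {N N' : Submodule F2 (SC X)}
    (h : N ≤ N') : Zn n N' ≤ Zn n N := fun _ hc => ⟨Cn_anti h hc.1, hc.2⟩

theorem exact_spaceG {n : ℤ} (A : GSub X) (x : Hn n (NA X (GSub.empty X))) :
    pullG A.incl (A := GSub.empty A.toSpace) (GSub.maps_empty _ _) x = 0 ↔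
      ∃ y : Hn n (NA X A), pullG (GMap.id X) (GSub.maps_empty _ _) y = x := by
  constructor
  · intro h
    obtain ⟨c, hc, rfl⟩ := exists_cls x
    rw [pullG_cls, cls_eq_zero_iff, mem_Bn] at h
    obtain ⟨b, hb, hbc⟩ := h
    have hc' := mem_Zn.1 hc
    have hn : n - 1 + 1 = n := by ring
    have h3 := del_mem_Cn (adm_NA _) (ext_mem hb)
    rw [hn] at h3
    have hZ : c + del (b ∘ₗ resG A) ∈ Zn n (NA X A) := by
      rw [mem_Zn]
      refine ⟨⟨vanish_NA ?_ ?_, ?_⟩, by rw [map_add, hc'.2, del_del, add_zero]⟩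
      · intro x hx
        rw [LinearMap.add_apply, del_apply, LinearMap.comp_apply, ← bdS_resG hx, ← del_apply,
          hbc, LinearMap.dualMap_apply, push_resG hx, F2.add_self]
      · intro x hx
        rw [LinearMap.add_apply, zero_of_KG hc'.1 hx, zero_of_KG h3 hx, add_zero]
      · intro m hm x
        rw [LinearMap.add_apply, hc'.1.2 m hm, h3.2 m hm, add_zero]
    refine ⟨cls _ hZ, ?_⟩
    rw [pullG_id_cls _ _ hZ (Zn_anti empty_le hZ), cls_eq_iff, mem_Bn]
    refine ⟨_, ext_mem hb, ?_⟩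
    rw [add_comm c, add_assoc, add_self_eq_zero', add_zero]
  · rintro ⟨y, rfl⟩
    obtain ⟨c, hc, rfl⟩ := exists_cls y
    rw [pullG_id_cls _ _ hc (Zn_anti empty_le hc), pullG_cls]
    have : (push A.incl.map).dualMap c = 0 := by
      apply LinearMap.ext; intro z
      exact zero_of_CIn (mem_Zn.1 hc).1 (push_inclG_mem A z)
    rw [cls_congr _ this, cls_eq_zero_iff]
    exact Submodule.zero_mem _

theorem exact_subG {n : ℤ} (A : GSub X) (x : Hn n (NA A.toSpace (GSub.empty A.toSpace))) :
    connG A x = 0 ↔ ∃ y : Hn n (NA X (GSub.empty X)),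
      pullG A.incl (GSub.maps_empty _ _) y = x := by
  have hn : n + 1 - 1 = n := by ring
  constructor
  · intro h
    obtain ⟨c, hc, rfl⟩ := exists_cls x
    rw [connG_cls, cls_eq_zero_iff, mem_Bn, hn] at h
    obtain ⟨b, hb, hbc⟩ := h
    have hc' := mem_Zn.1 hc
    have hZ : c ∘ₗ resG A + b ∈ Zn n (NA X (GSub.empty X)) := by
      rw [mem_Zn]
      refine ⟨Submodule.add_mem _ (ext_mem hc'.1) (Cn_anti empty_le hb), ?_⟩
      rw [map_add, hbc, add_self_eq_zero']
    refine ⟨cls _ hZ, ?_⟩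
    rw [pullG_cls]
    apply cls_congr
    apply LinearMap.ext; intro z
    rw [LinearMap.dualMap_apply, LinearMap.add_apply, LinearMap.comp_apply, resG_push,
      zero_of_CIn hb (push_inclG_mem A z), add_zero]
  · rintro ⟨y, rfl⟩
    obtain ⟨c, hc, rfl⟩ := exists_cls y
    have hc' := mem_Zn.1 hc
    rw [pullG_cls, connG_cls, cls_eq_zero_iff, mem_Bn, hn]
    have h1 := ext_mem ((grMap_push A.incl.map).dual_Cn
      (maps_NA A.incl (GSub.maps_empty _ _)) hc'.1)
    refine ⟨((push A.incl.map).dualMap c) ∘ₗ resG A + c, ⟨vanish_NA ?_ ?_, ?_⟩, ?_⟩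
    · intro x hx
      rw [LinearMap.add_apply, LinearMap.comp_apply, LinearMap.dualMap_apply, push_resG hx,
        F2.add_self]
    · intro x hx
      rw [LinearMap.add_apply, zero_of_KG h1 hx, zero_of_KG hc'.1 hx, add_zero]
    · intro m hm x
      rw [LinearMap.add_apply, h1.2 m hm, hc'.1.2 m hm, add_zero]
    · rw [map_add, hc'.2, add_zero]

theorem exact_pairG {n : ℤ} (A : GSub X) (x : Hn (n + 1) (NA X A)) :
    pullG (GMap.id X) (A := GSub.empty X) (GSub.maps_empty _ _) x = 0 ↔
      ∃ y : Hn n (NA A.toSpace (GSub.empty A.toSpace)), connG A y = x := by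
  have hn : n + 1 - 1 = n := by ring
  constructor
  · intro h
    obtain ⟨c, hc, rfl⟩ := exists_cls x
    rw [pullG_id_cls _ _ hc (Zn_anti empty_le hc), cls_eq_zero_iff, mem_Bn, hn] at h
    obtain ⟨b, hb, hbc⟩ := h
    have hc' := mem_Zn.1 hc
    have h1 := (grMap_push A.incl.map).dual_Cn (maps_NA A.incl (GSub.maps_empty _ _)) hb
    have hZ : (push A.incl.map).dualMap b ∈ Zn n (NA A.toSpace (GSub.empty A.toSpace)) := by
      rw [mem_Zn]
      refine ⟨h1, ?_⟩
      rw [← (grMap_push A.incl.map).dual_del, hbc]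
      apply LinearMap.ext; intro z
      exact zero_of_CIn hc'.1 (push_inclG_mem A z)
    refine ⟨cls _ hZ, ?_⟩
    rw [connG_cls, cls_eq_iff, mem_Bn, hn]
    have h2 := ext_mem h1
    refine ⟨((push A.incl.map).dualMap b) ∘ₗ resG A + b, ⟨vanish_NA ?_ ?_, ?_⟩, ?_⟩
    · intro x hx
      rw [LinearMap.add_apply, LinearMap.comp_apply, LinearMap.dualMap_apply, push_resG hx,
        F2.add_self]
    · intro x hx
      rw [LinearMap.add_apply, zero_of_KG h2 hx, zero_of_KG hb hx, add_zero]
    · intro m hm x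
      rw [LinearMap.add_apply, h2.2 m hm, hb.2 m hm, add_zero]
    · rw [map_add, hbc]
  · rintro ⟨y, rfl⟩
    obtain ⟨c, hc, rfl⟩ := exists_cls y
    have h1 := conn_aux hc
    rw [connG_cls, pullG_id_cls _ _ h1 (Zn_anti empty_le h1), cls_eq_zero_iff, mem_Bn, hn]
    exact ⟨_, ext_mem (mem_Zn.1 hc).1, rfl⟩

end sub

theorem excisionG {n : ℤ} (A U : GSub X) (h : closure U.set ⊆ interior A.set) :
    Function.Bijective (fun x : Hn n (NA X A) =>
      pullG U.compl.incl (A := A.preimage U.compl.incl) (fun _ h => h) x) := by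
  refine pullH_bijective n (grMap_push U.compl.incl.map) (adm_NA _) (adm_NA _)
    (maps_NA (A := A.preimage U.compl.incl) U.compl.incl (fun _ h => h)) ?_ ?_
  · intro x hx
    have hx' : x = resG U.compl (push U.compl.incl.map x) := (resG_push _ _).symm
    rw [hx']
    refine (equi_resG U.compl).mem_NG ?_ hx
    intro y hy
    rw [CS_singleton] at hy ⊢
    exact resS_mem_CIn (A := U.compl.set) hy
  · rintro y ⟨x, hx⟩
    have hne : ({A.set, U.compl.set} : Set (Set X)).Nonempty := ⟨A.set, by simp⟩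
    have hcov : ∀ x : X, ∃ V ∈ ({A.set, U.compl.set} : Set (Set X)), V ∈ nhds x := by
      intro x
      by_cases hx : x ∈ interior A.set
      · exact ⟨A.set, by simp, mem_interior_iff_mem_nhds.1 hx⟩
      · refine ⟨U.compl.set, by simp, ?_⟩
        have h1 : x ∉ closure U.set := fun h2 => hx (h h2)
        have h2 : U.compl.set = U.setᶜ := rfl
        rw [h2, ← mem_interior_iff_mem_nhds, interior_compl]
        exact h1
    have hbd : bdS y ∈ CS ({A.set, U.compl.set} : Set (Set X)) ⊔ NG G {A.set} := by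
      have e1 : bdS y = push U.compl.incl.map x + (bdS y + push U.compl.incl.map x) := by
        rw [add_comm (bdS y), ← add_assoc, add_self_eq_zero', zero_add]
      rw [e1]
      apply Submodule.add_mem_sup _ hx
      exact CIn_le_CS (U := U.compl.set) (by simp) (push_inclG_mem _ x)
    obtain ⟨e, he⟩ := NG_excision (G := G) hne hcov y hbd (by
      intro V hV
      exact ⟨V, by rw [Set.mem_singleton_iff] at hV; simp [hV], le_rfl⟩)
    obtain ⟨s, hs, k, hk, hsk⟩ := Submodule.mem_sup.1 he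
    -- split s into the two parts
    have hs2 : s ∈ CIn A.set ⊔ CIn U.compl.set := by
      refine supp_induction (CIn A.set ⊔ CIn U.compl.set) LinearMap.id ?_ hs
      rintro σ ⟨V, hV, hσ⟩
      rcases hV with rfl | hV
      · exact Submodule.mem_sup_left (single_mem_CIn hσ)
      · rw [Set.mem_singleton_iff] at hV
        rw [hV] at hσ
        exact Submodule.mem_sup_right (single_mem_CIn hσ)
    obtain ⟨a, ha, b, hb, hab⟩ := Submodule.mem_sup.1 hs2
    refine ⟨e, resG U.compl b, ?_⟩
    rw [push_resG hb, ← hsk, ← hab]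
    have : a + b + k + b = a + k := by
      have := add_self_eq_zero' b
      calc a + b + k + b = a + k + (b + b) := by abel
        _ = _ := by rw [this, add_zero]
    rw [this]
    exact Submodule.add_mem _ (CIn_le_NA _ ha) (KG_le_NG _ hk)

end EqTC
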