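import Pool.Agent.Lib.P26f563.Theory1

/-!
# The theory of invariant singular cochains mod 2: additivity
-/

open Finsupp STop

namespace EqTC

variable {G : Type} [Group G] [TopologicalSpace G] {X Y Z : GSpace G}

/-! ### Additivity -/

section additivity

variable {ι : Type} (W : ι → GSpace G)

/-- The inclusion of a summand. -/
noncomputable abbrev inS (i : ι) : C(W i, GSpace.sigma W) := (GSpace.sigmaMk W i).map

theorem red_of_Cn {n : ℤ} {𝒰 : Set (Set X)} (h𝒰 : 𝒰.Nonempty) {c : SC X →ₗ[F2] F2}
    (hc : c ∈ Cn n (NG G 𝒰)) : Red c := by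
  intro σ hσ
  apply hc.1
  apply (adm_NG h𝒰).e0
  exact single_mem_supp (P := fun σ : Sing X => σ.nv = 0) hσ

theorem exists_push_inS (σ : Sing (GSpace.sigma W)) (hσ : σ.nv ≠ 0) :
    ∃ i, ∃ τ : Sing (W i), σ = τ.push (inS W i) := by
  have : Nonempty (Fin σ.nv) := ⟨⟨0, Nat.pos_of_ne_zero hσ⟩⟩
  obtain ⟨i, g, hg, hgi⟩ := Continuous.exists_lift_sigma (X := fun i => (W i).carrier)
    (α := Dl σ.nv) (f := σ.map) σ.map.continuous
  refine ⟨i, ⟨σ.nv, ⟨g, hg⟩⟩, ?_⟩
  unfold Sing.push
  have : σ.map = (inS W i).comp ⟨g, hg⟩ := by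
    ext t : 1
    exact congrFun hgi t
  cases σ
  simp only at this ⊢
  rw [this]

theorem inS_injective (i : ι) : Function.Injective (inS W i) := by
  intro x y h
  have h2 := (Sigma.mk.injEq _ _ _ _).mp h
  exact eq_of_heq h2.2

theorem push_inS_injective (i j : ι) (τ : Sing (W i)) (τ' : Sing (W j)) (h0 : τ.nv ≠ 0)
    (h : τ.push (inS W i) = τ'.push (inS W j)) : ∃ h : i = j, h ▸ τ = τ' := by
  obtain ⟨m, f⟩ := τ
  obtain ⟨m', f'⟩ := τ'
  unfold Sing.push at h
  simp only [Sing.mk.injEq] at h
  obtain ⟨h1, h2⟩ := h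
  subst h1
  have h2 := eq_of_heq h2
  have hij : i = j := by
    have := congrArg (fun g => g (stdSimplex.vertex ⟨0, Nat.pos_of_ne_zero h0⟩)) h2
    have := (Sigma.mk.injEq _ _ _ _).mp this
    exact this.1
  subst hij
  refine ⟨rfl, ?_⟩
  have : f = f' := by
    ext t
    exact inS_injective W i (congrArg (fun g => g t) h2)
  rw [this]

/-- Glueing a family of functionals on the summands. -/
noncomputable def glue (c : ∀ i, SC (W i) →ₗ[F2] F2) : SC (GSpace.sigma W) →ₗ[F2] F2 :=
  open Classical in lin fun σ =>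
    if h : ∃ i, ∃ τ : Sing (W i), σ = τ.push (inS W i) ∧ τ.nv ≠ 0 then
      c h.choose (single h.choose_spec.choose 1) else 0

theorem glue_push_single (c : ∀ i, SC (W i) →ₗ[F2] F2) (hc : ∀ i, Red (c i)) (i : ι)
    (τ : Sing (W i)) : glue W c (single (τ.push (inS W i)) 1) = c i (single τ 1) := by
  rw [glue, lin_single]
  by_cases h0 : τ.nv = 0
  · rw [dif_neg, hc i τ h0]
    rintro ⟨j, τ', h1, h2⟩
    apply h2
    have := congrArg Sing.nv h1
    change τ.nv = τ'.nv at this
    rw [← this, h0]
  · have h : ∃ j, ∃ τ' : Sing (W j), τ.push (inS W i) = τ'.push (inS W j) ∧ τ'.nv ≠ 0 :=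
      ⟨i, τ, rfl, h0⟩
    rw [dif_pos h]
    obtain ⟨h1, h2⟩ := h.choose_spec.choose_spec
    obtain ⟨hij, hτ⟩ := push_inS_injective W _ _ _ _ h2 h1.symm
    generalize h.choose_spec.choose = τ' at hτ
    generalize h.choose = j at τ' hij hτ
    subst hij
    simp only at hτ
    rw [hτ]

theorem glue_push (c : ∀ i, SC (W i) →ₗ[F2] F2) (hc : ∀ i, Red (c i)) (i : ι)
    (x : SC (W i)) : glue W c (push (inS W i) x) = c i x := by
  have : glue W c ∘ₗ push (inS W i) = c i := by
    apply lin_ext; intro τ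
    rw [LinearMap.comp_apply, push_single, glue_push_single W c hc]
  exact congrArg (fun g => g x) this

theorem glue_red (c : ∀ i, SC (W i) →ₗ[F2] F2) : Red (glue W c) := by
  intro σ hσ
  rw [glue, lin_single, dif_neg]
  rintro ⟨j, τ', h1, h2⟩
  apply h2
  have := congrArg Sing.nv h1
  change σ.nv = τ'.nv at this
  rw [← this, hσ]

theorem sigma_ext {M : Type*} [AddCommGroup M] [Module F2 M]
    {f g : SC (GSpace.sigma W) →ₗ[F2] M}
    (h : ∀ i (τ : Sing (W i)), f (single (τ.push (inS W i)) 1) = g (single (τ.push (inS W i)) 1))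
    (h0 : ∀ σ : Sing (GSpace.sigma W), σ.nv = 0 → f (single σ 1) = g (single σ 1)) : f = g := by
  apply lin_ext; intro σ
  by_cases hσ : σ.nv = 0
  · exact h0 σ hσ
  · obtain ⟨i, τ, rfl⟩ := exists_push_inS W σ hσ
    exact h i τ

theorem glue_mem_Cn {n : ℤ} {A : GSub (GSpace.sigma W)} {c : ∀ i, SC (W i) →ₗ[F2] F2}
    (hc : ∀ i, c i ∈ Cn n (NA (W i) (A.preimage (GSpace.sigmaMk W i)))) :
    glue W c ∈ Cn n (NA (GSpace.sigma W) A) := by
  have hred : ∀ i, Red (c i) := fun i => red_of_Cn (Set.singleton_nonempty _) (hc i)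
  rw [Cn_iff]
  refine ⟨vanish_NA ?_ ?_, ?_⟩
  · intro x hx
    have hx' : glue W c x ∈ (⊥ : Submodule F2 F2) := by
      refine supp_induction ⊥ (glue W c) ?_ hx
      intro σ hσ
      rw [Submodule.mem_bot]
      by_cases h0 : σ.nv = 0
      · exact glue_red W c σ h0
      · obtain ⟨i, τ, rfl⟩ := exists_push_inS W σ h0
        rw [glue_push_single W c hred]
        apply zero_of_CIn (hc i)
        apply single_mem_CIn
        exact fun t => hσ t
    exact hx'
  · intro x hx
    have : KG G (GSpace.sigma W) ≤ LinearMap.ker (glue W c) := by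
      apply Submodule.span_le.2
      rintro z ⟨g, x, rfl⟩
      change glue W c _ = 0
      rw [map_add, add_eq_zero_iff_eq']
      have : glue W c ∘ₗ push (STop.act G g) = glue W c := by
        apply sigma_ext
        · intro i τ
          have e1 : push (STop.act G g) (single (τ.push (inS W i)) (1 : F2)) =
              push (inS W i) (push (STop.act G g) (single τ 1)) := by
            rw [← push_single (inS W i)]
            exact (equi_push (G := G) (inS W i) (GSpace.sigmaMk W i).equi g _).symm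
          rw [LinearMap.comp_apply, e1, glue_push W c hred, glue_push_single W c hred]
          have := zero_of_KG (hc i) (mem_KG_gen G g (single τ 1))
          rw [map_add] at this
          exact eq_of_add_eq_zero this
        · intro σ hσ
          rw [LinearMap.comp_apply, push_single, glue_red W c σ hσ]
          exact glue_red W c _ hσ
      exact congrArg (fun g => g x) this
    exact this hx
  · intro σ hσ
    by_cases h0 : σ.nv = 0
    · exact glue_red W c σ h0
    · obtain ⟨i, τ, rfl⟩ := exists_push_inS W σ h0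
      rw [glue_push_single W c hred]
      exact (Cn_iff.1 (hc i)).2 τ hσ

theorem del_glue {b c : ∀ i, SC (W i) →ₗ[F2] F2} (hb : ∀ i, Red (b i)) {c' : SC (GSpace.sigma W) →ₗ[F2] F2}
    (hc' : Red c') (hc : ∀ i, c' ∘ₗ push (inS W i) = c i)
    (h : ∀ i, del (b i) = c i) : del (glue W b) = c' := by
  apply sigma_ext
  · intro i τ
    rw [del_apply, ← push_single, ← push_bdS, glue_push W b hb, ← del_apply, h i, ← hc i]
    rfl
  · intro σ hσ
    rw [del_apply, bdS_single_zero hσ, map_zero, hc' σ hσ]

theorem additivityG {n : ℤ} (A : GSub (GSpace.sigma W)) :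
    Function.Bijective (fun (x : Hn n (NA (GSpace.sigma W) A)) (i : ι) =>
      pullG (GSpace.sigmaMk W i) (A := A.preimage (GSpace.sigmaMk W i)) (fun _ h => h) x) := by
  constructor
  · intro x y hxy
    rw [← sub_eq_zero]
    have hxy' : ∀ i, pullG (GSpace.sigmaMk W i) (A := A.preimage (GSpace.sigmaMk W i))
        (fun _ h => h) (x - y) = 0 := by
      intro i
      rw [map_sub, sub_eq_zero]
      exact congrFun hxy i
    generalize x - y = z at hxy'
    obtain ⟨c, hc, rfl⟩ := exists_cls z
    have h1 : ∀ i, ∃ b ∈ Cn (n - 1) (NA (W i) (A.preimage (GSpace.sigmaMk W i))),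
        del b = (push (inS W i)).dualMap c := by
      intro i
      have := hxy' i
      rw [pullG_cls, cls_eq_zero_iff, mem_Bn] at this
      exact this
    choose b hb hbc using h1
    rw [cls_eq_zero_iff, mem_Bn]
    refine ⟨glue W b, glue_mem_Cn W hb, ?_⟩
    exact del_glue W (fun i => red_of_Cn (Set.singleton_nonempty _) (hb i))
      (red_of_Cn (Set.singleton_nonempty _) (mem_Zn.1 hc).1) (fun i => rfl) hbc
  · intro y
    have h1 : ∀ i, ∃ c, ∃ h : c ∈ Zn n (NA (W i) (A.preimage (GSpace.sigmaMk W i))),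
        cls c h = y i := fun i => exists_cls (y i)
    choose c hc hcy using h1
    have hred : ∀ i, Red (c i) := fun i => red_of_Cn (Set.singleton_nonempty _) (mem_Zn.1 (hc i)).1
    have hZ : glue W c ∈ Zn n (NA (GSpace.sigma W) A) := by
      rw [mem_Zn]
      refine ⟨glue_mem_Cn W (fun i => (mem_Zn.1 (hc i)).1), ?_⟩
      exact del_glue W hred (c := fun _ => 0) (fun _ _ => rfl) (fun i => rfl)
        (fun i => (mem_Zn.1 (hc i)).2)
    refine ⟨cls _ hZ, ?_⟩
    funext i
    rw [← hcy i]
    change pullG (GSpace.sigmaMk W i) (A := A.preimage (GSpace.sigmaMk W i)) (fun _ h => h)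
      (cls (glue W c) hZ) = _
    rw [pullG_cls]
    apply cls_congr
    apply LinearMap.ext; intro z
    exact glue_push W c hred i z

end additivity


end EqTC
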