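import Pool.Agent.Lib.P26f563.Theory2

/-!
# The theory of invariant singular cochains mod 2: cup products
-/

open Finsupp STop

namespace EqTC

variable {G : Type} [Group G] [TopologicalSpace G] {X Y Z : GSpace G}

/-- Sets `A`, `B` whose relative interiors cover `A ∪ B`. -/
def Excisive {X : Type} [TopologicalSpace X] (A B : Set X) : Prop :=
  ∀ x ∈ A ∪ B, A ∈ nhdsWithin x (A ∪ B) ∨ B ∈ nhdsWithin x (A ∪ B)

/-! ### Cup products -/

section cup

theorem inv_of_Cn {n : ℤ} {𝒰 : Set (Set X)} {c : SC X →ₗ[F2] F2}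
    (hc : c ∈ Cn n (NG G 𝒰)) (g : G) : c ∘ₗ push (STop.act G g) = c := by
  apply LinearMap.ext; intro x
  have := hc.1 _ (KG_le_NG 𝒰 (mem_KG_gen G g x))
  rw [map_add] at this
  exact eq_of_add_eq_zero this

theorem cup_mem_Cn {p q r : ℤ} (h : p + q = r) {𝒰 𝒱 : Set (Set X)} {c d : SC X →ₗ[F2] F2}
    (hc : c ∈ Cn p (NG G 𝒰)) (hd : d ∈ Cn q (NG G 𝒱)) : cupS c d ∈ Cn r (NG G (𝒰 ∪ 𝒱)) := by
  rw [Cn_iff]
  constructor
  · have : NG G (𝒰 ∪ 𝒱) ≤ LinearMap.ker (cupS c d) := by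
      apply sup_le
      · intro x hx
        have hx' : cupS c d x ∈ (⊥ : Submodule F2 F2) := by
          refine supp_induction ⊥ (cupS c d) ?_ hx
          rintro σ ⟨U, hU, hσ⟩
          rw [Submodule.mem_bot]
          rcases hU with hU | hU
          · apply cupS_zero_of_left
            intro l
            exact hc.1 _ (CS_le_NG _ (CIn_le_CS hU (single_mem_CIn (hσ.sub l))))
          · apply cupS_zero_of_right
            intro l
            exact hd.1 _ (CS_le_NG _ (CIn_le_CS hU (single_mem_CIn (hσ.sub l))))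
        exact hx'
      · apply Submodule.span_le.2
        rintro z ⟨g, x, rfl⟩
        change cupS c d _ = 0
        rw [map_add, add_eq_zero_iff_eq']
        have := cupS_push (STop.act G g) c d
        rw [inv_of_Cn hc, inv_of_Cn hd] at this
        exact congrArg (fun g => g x) this.symm
    exact fun x hx => this hx
  · intro σ hσ
    rw [← h] at hσ
    exact cupS_degree (Cn_iff.1 hc).2 (Cn_iff.1 hd).2 σ hσ

theorem del_cup {p q : ℤ} {𝒰 𝒱 : Set (Set X)} (h𝒰 : 𝒰.Nonempty) (h𝒱 : 𝒱.Nonempty)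
    {c d : SC X →ₗ[F2] F2} (hc : c ∈ Cn p (NG G 𝒰)) (hd : d ∈ Cn q (NG G 𝒱)) :
    del (cupS c d) = cupS (del c) d + cupS c (del d) :=
  cupS_bdS (red_of_Cn h𝒰 hc) (red_of_Cn h𝒱 hd)

theorem cupS_zero_left (d : SC X →ₗ[F2] F2) : cupS 0 d = 0 := by
  have := cupS_add_left 0 0 d
  rw [add_zero, add_self_eq_zero'] at this
  exact this

theorem cupS_zero_right (d : SC X →ₗ[F2] F2) : cupS d 0 = 0 := by
  have := cupS_add_right d 0 0
  rw [add_zero, add_self_eq_zero'] at this
  exact this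

theorem cup_mem_Zn {p q r : ℤ} (h : p + q = r) {𝒰 𝒱 : Set (Set X)} (h𝒰 : 𝒰.Nonempty)
    (h𝒱 : 𝒱.Nonempty) {c d : SC X →ₗ[F2] F2} (hc : c ∈ Zn p (NG G 𝒰)) (hd : d ∈ Zn q (NG G 𝒱)) :
    cupS c d ∈ Zn r (NG G (𝒰 ∪ 𝒱)) := by
  rw [mem_Zn] at hc hd ⊢
  refine ⟨cup_mem_Cn h hc.1 hd.1, ?_⟩
  rw [del_cup h𝒰 h𝒱 hc.1 hd.1, hc.2, hd.2, cupS_zero_left, cupS_zero_right, add_zero]

/-- Left multiplication as a linear map. -/
noncomputable def cupLeft (c : SC X →ₗ[F2] F2) : (SC X →ₗ[F2] F2) →ₗ[F2] (SC X →ₗ[F2] F2) where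
  toFun d := cupS c d
  map_add' := cupS_add_right c
  map_smul' := by
    intro s d
    rcases (show s = 0 ∨ s = 1 by revert s; decide) with rfl | rfl
    · rw [zero_smul, RingHom.id_apply, zero_smul, cupS_zero_right]
    · rw [one_smul, RingHom.id_apply, one_smul]

theorem F2_cases (s : F2) : s = 0 ∨ s = 1 := by revert s; decide

theorem cup_Bn_right {p q r : ℤ} (h : p + q = r) {𝒰 𝒱 : Set (Set X)} (h𝒰 : 𝒰.Nonempty)
    (h𝒱 : 𝒱.Nonempty) {c d : SC X →ₗ[F2] F2} (hc : c ∈ Zn p (NG G 𝒰)) (hd : d ∈ Bn q (NG G 𝒱)) :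
    cupS c d ∈ Bn r (NG G (𝒰 ∪ 𝒱)) := by
  rw [mem_Zn] at hc
  rw [mem_Bn] at hd ⊢
  obtain ⟨b, hb, rfl⟩ := hd
  refine ⟨cupS c b, cup_mem_Cn (by omega) hc.1 hb, ?_⟩
  rw [del_cup h𝒰 h𝒱 hc.1 hb, hc.2, cupS_zero_left, zero_add]

theorem cup_Bn_left {p q r : ℤ} (h : p + q = r) {𝒰 𝒱 : Set (Set X)} (h𝒰 : 𝒰.Nonempty)
    (h𝒱 : 𝒱.Nonempty) {c d : SC X →ₗ[F2] F2} (hc : c ∈ Bn p (NG G 𝒰)) (hd : d ∈ Zn q (NG G 𝒱)) :
    cupS c d ∈ Bn r (NG G (𝒰 ∪ 𝒱)) := by
  rw [mem_Zn] at hd
  rw [mem_Bn] at hc ⊢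
  obtain ⟨b, hb, rfl⟩ := hc
  refine ⟨cupS b d, cup_mem_Cn (by omega) hb hd.1, ?_⟩
  rw [del_cup h𝒰 h𝒱 hb hd.1, hd.2, cupS_zero_right, add_zero]

/-- The cup product of classes relative to two families of subsets. -/
noncomputable def cupN {p q r : ℤ} (h : p + q = r) {𝒰 𝒱 : Set (Set X)} (h𝒰 : 𝒰.Nonempty)
    (h𝒱 : 𝒱.Nonempty) :
    Hn p (NG G 𝒰) →ₗ[F2] Hn q (NG G 𝒱) →ₗ[F2] Hn r (NG G (𝒰 ∪ 𝒱)) :=
  (BZ p (NG G 𝒰)).liftQ
    { toFun := fun c => Hmap (cupLeft c.1) (fun _ hd => cup_mem_Zn h h𝒰 h𝒱 c.2 hd)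
        (fun _ hd => cup_Bn_right h h𝒰 h𝒱 c.2 hd)
      map_add' := by
        intro c c'
        apply LinearMap.ext; intro y
        obtain ⟨d, hd, rfl⟩ := exists_cls y
        rw [LinearMap.add_apply, Hmap_cls, Hmap_cls, Hmap_cls, cls_add]
        exact cls_congr _ (cupS_add_left _ _ _)
      map_smul' := by
        intro s c
        rcases F2_cases s with rfl | rfl
        · rw [zero_smul, RingHom.id_apply, zero_smul]
          apply LinearMap.ext; intro y
          obtain ⟨d, hd, rfl⟩ := exists_cls y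
          rw [Hmap_cls, LinearMap.zero_apply, cls_eq_zero_iff]
          have : cupLeft ((0 : ↥(Zn p (NG G 𝒰))) : SC X →ₗ[F2] F2) d = 0 := cupS_zero_left d
          rw [this]
          exact Submodule.zero_mem _
        · rw [one_smul, RingHom.id_apply, one_smul] }
    (by
      intro c hc
      rw [LinearMap.mem_ker]
      apply LinearMap.ext; intro y
      obtain ⟨d, hd, rfl⟩ := exists_cls y
      rw [LinearMap.zero_apply]
      change cls (cupS c.1 d) _ = 0
      rw [cls_eq_zero_iff]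
      exact cup_Bn_left h h𝒰 h𝒱 hc hd)

theorem cupN_cls {p q r : ℤ} (h : p + q = r) {𝒰 𝒱 : Set (Set X)} (h𝒰 : 𝒰.Nonempty)
    (h𝒱 : 𝒱.Nonempty) {c d : SC X →ₗ[F2] F2} (hc : c ∈ Zn p (NG G 𝒰)) (hd : d ∈ Zn q (NG G 𝒱)) :
    cupN h h𝒰 h𝒱 (cls c hc) (cls d hd) = cls (cupS c d) (cup_mem_Zn h h𝒰 h𝒱 hc hd) := rfl

/-- Restriction to a smaller submodule. -/
noncomputable def resN {n : ℤ} {N N' : Submodule F2 (SC X)} (h : N ≤ N') :
    Hn n N' →ₗ[F2] Hn n N := pullH n (LinearMap.id) grMap_id h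

theorem resN_cls {n : ℤ} {N N' : Submodule F2 (SC X)} (h : N ≤ N') {c : SC X →ₗ[F2] F2}
    (hc : c ∈ Zn n N') : resN h (cls c hc) = cls c (Zn_anti h hc) := rfl

theorem pair_le (A B : Set X) : NG G ({A} ∪ {B}) ≤ NG G {A ∪ B} := by
  apply NG_mono
  rintro U (hU | hU)
  · exact ⟨_, rfl, by rw [Set.mem_singleton_iff] at hU; rw [hU]; exact Set.subset_union_left⟩
  · exact ⟨_, rfl, by rw [Set.mem_singleton_iff] at hU; rw [hU]; exact Set.subset_union_right⟩

theorem family_bijective {n : ℤ} {V : Set X} {𝒰 : Set (Set X)} (hne : 𝒰.Nonempty)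
    (_ : ∀ U ∈ 𝒰, U ⊆ V) (hcov : ∀ x ∈ V, ∃ U ∈ 𝒰, U ∈ nhdsWithin x V)
    (h : NG G 𝒰 ≤ NG G {V}) : Function.Bijective (resN (n := n) h) :=
  restrict_bijective n (adm_NG hne) (adm_NG (Set.singleton_nonempty _)) h
    (fun y hy hb => NG_acyclic hne hcov y hy hb)

theorem pair_bijective {n : ℤ} {A B : Set X} (e : Excisive A B) :
    Function.Bijective (resN (n := n) (pair_le (G := G) A B)) := by
  apply family_bijective ⟨A, by simp⟩
  · rintro U (hU | hU)
    · rw [Set.mem_singleton_iff] at hU; rw [hU]; exact Set.subset_union_left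
    · rw [Set.mem_singleton_iff] at hU; rw [hU]; exact Set.subset_union_right
  · intro x hx
    rcases e x hx with h | h
    · exact ⟨A, by simp, h⟩
    · exact ⟨B, by simp, h⟩

/-- The inverse of the restriction isomorphism. -/
noncomputable def pairEquiv {n : ℤ} {A B : Set X} (e : Excisive A B) :
    Hn n (NG G {A ∪ B}) ≃ₗ[F2] Hn n (NG G ({A} ∪ {B})) :=
  LinearEquiv.ofBijective _ (pair_bijective e)

theorem sub_le {A B : Set X} (h : A ⊆ B) : NG G ({A} : Set (Set X)) ≤ NG G {B} := by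
  apply NG_mono
  intro U hU
  exact ⟨_, rfl, by rw [Set.mem_singleton_iff] at hU; rw [hU]; exact h⟩

/-- The cup product `h^p (X, A) ⊗ h^q (X, B) → h^r (X, C)`. -/
noncomputable def cupG {p q r : ℤ} (h : p + q = r) {A B C : GSub X} (e : Excisive A.set B.set)
    (s : C.set ⊆ A.set ∪ B.set) : Hn p (NA X A) →ₗ[F2] Hn q (NA X B) →ₗ[F2] Hn r (NA X C) :=
  (cupN h (Set.singleton_nonempty _) (Set.singleton_nonempty _)).compr₂ (resN (sub_le s) ∘ₗ (pairEquiv e).symm.toLinearMap)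

/-- The cup product in terms of representatives. -/
theorem cupG_cls {p q r : ℤ} (h : p + q = r) {A B C : GSub X} (e : Excisive A.set B.set)
    (s : C.set ⊆ A.set ∪ B.set) {c d : SC X →ₗ[F2] F2} (hc : c ∈ Zn p (NA X A))
    (hd : d ∈ Zn q (NA X B)) {w b : SC X →ₗ[F2] F2} (hw : w ∈ Zn r (NG G {A.set ∪ B.set}))
    (hb : b ∈ Cn (r - 1) (NG G ({A.set} ∪ {B.set}))) (hwb : del b = w + cupS c d) :
    cupG h e s (cls c hc) (cls d hd) = cls w (Zn_anti (sub_le s) hw) := by
  have h1 : pairEquiv e (cls w hw) = cupN h (Set.singleton_nonempty _) (Set.singleton_nonempty _) (cls c hc) (cls d hd) := by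
    change resN (pair_le A.set B.set) (cls w hw) = _
    rw [resN_cls, cupN_cls, cls_eq_iff, mem_Bn]
    exact ⟨b, hb, hwb⟩
  change resN (sub_le s) ((pairEquiv e).symm (cupN h (Set.singleton_nonempty _) (Set.singleton_nonempty _) (cls c hc) (cls d hd))) = _
  rw [← h1, LinearEquiv.symm_apply_apply, resN_cls]

/-- Existence of representatives. -/
theorem exists_cup_rep {p q r : ℤ} (h : p + q = r) {A B : GSub X} (e : Excisive A.set B.set)
    {c d : SC X →ₗ[F2] F2} (hc : c ∈ Zn p (NA X A)) (hd : d ∈ Zn q (NA X B)) :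
    ∃ w ∈ Zn r (NG G {A.set ∪ B.set}), ∃ b ∈ Cn (r - 1) (NG G ({A.set} ∪ {B.set})),
      del b = w + cupS c d := by
  obtain ⟨z, hz⟩ := (pair_bijective (G := G) (n := r) e).2
    (cupN h (Set.singleton_nonempty _) (Set.singleton_nonempty _) (cls c hc) (cls d hd))
  obtain ⟨w, hw, rfl⟩ := exists_cls z
  rw [resN_cls, cupN_cls, cls_eq_iff, mem_Bn] at hz
  obtain ⟨b, hb, hbw⟩ := hz
  exact ⟨w, hw, b, hb, hbw⟩

theorem pull_family {𝒰 : Set (Set X)} {𝒱 : Set (Set Y)} (f : GMap X Y)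
    (h : ∀ U ∈ 𝒰, ∃ V ∈ 𝒱, ∀ x ∈ U, f.map x ∈ V) : ∀ x ∈ NG G 𝒰, push f.map x ∈ NG G 𝒱 := by
  intro x hx
  refine (equi_push (G := G) f.map f.equi).mem_NG ?_ hx
  intro x hx
  refine supp_induction (CS 𝒱) (push f.map) ?_ hx
  rintro σ ⟨U, hU, hσ⟩
  obtain ⟨V, hV, hUV⟩ := h U hU
  rw [push_single]
  exact CIn_le_CS hV (single_mem_CIn fun t => hUV _ (hσ t))

theorem pullG_cupG {p q r : ℤ} (h : p + q = r) {A B C : GSub X} {A' B' C' : GSub Y}
    (f : GMap X Y) (hA : ∀ x ∈ A.set, f.map x ∈ A'.set) (hB : ∀ x ∈ B.set, f.map x ∈ B'.set)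
    (hC : ∀ x ∈ C.set, f.map x ∈ C'.set) (e : Excisive A.set B.set)
    (e' : Excisive A'.set B'.set) (s : C.set ⊆ A.set ∪ B.set) (s' : C'.set ⊆ A'.set ∪ B'.set)
    (x : Hn p (NA Y A')) (y : Hn q (NA Y B')) :
    pullG f hC (cupG h e' s' x y) = cupG h e s (pullG f hA x) (pullG f hB y) := by
  obtain ⟨c, hc, rfl⟩ := exists_cls x
  obtain ⟨d, hd, rfl⟩ := exists_cls y
  obtain ⟨w, hw, b, hb, hwb⟩ := exists_cup_rep h e' hc hd
  rw [cupG_cls h e' s' hc hd hw hb hwb, pullG_cls, pullG_cls, pullG_cls]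
  have h1 : ∀ x ∈ NG G {A.set ∪ B.set}, push f.map x ∈ NG G {A'.set ∪ B'.set} := by
    apply pull_family
    intro U hU
    rw [Set.mem_singleton_iff] at hU
    refine ⟨_, rfl, ?_⟩
    rw [hU]
    rintro x (hx | hx)
    · exact Or.inl (hA x hx)
    · exact Or.inr (hB x hx)
  have h2 : ∀ x ∈ NG G ({A.set} ∪ {B.set}), push f.map x ∈ NG G ({A'.set} ∪ {B'.set}) := by
    apply pull_family
    rintro U (hU | hU)
    · rw [Set.mem_singleton_iff] at hU
      exact ⟨A'.set, by simp, by rw [hU]; exact hA⟩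
    · rw [Set.mem_singleton_iff] at hU
      exact ⟨B'.set, by simp, by rw [hU]; exact hB⟩
  have h3 := (grMap_push f.map).dual_Zn h1 hw
  have h4 := (grMap_push f.map).dual_Cn h2 hb
  exact (cupG_cls h e s _ _ h3 h4 (by
    rw [← (grMap_push f.map).dual_del, hwb, map_add]
    congr 1
    exact (cupS_push f.map c d).symm)).symm

theorem oneS_mem (X : GSpace G) : oneS ∈ Zn 0 (NA X (GSub.empty X)) := by
  rw [mem_Zn, Cn_iff]
  refine ⟨⟨vanish_NA ?_ ?_, ?_⟩, ?_⟩
  · intro x hx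
    have hx' : (oneS x : F2) ∈ (⊥ : Submodule F2 F2) := by
      have hx2 : x ∈ Deg X 0 := by
        have : CIn (GSub.empty X).set = Deg X 0 := CIn_empty
        rwa [this] at hx
      refine supp_induction ⊥ oneS ?_ hx2
      intro σ hσ
      rw [oneS_single, if_neg (by rw [hσ]; exact zero_ne_one)]
      exact Submodule.zero_mem _
    exact hx'
  · intro x hx
    have : KG G X ≤ LinearMap.ker oneS := by
      apply Submodule.span_le.2
      rintro z ⟨g, x, rfl⟩
      change (oneS _ : F2) = 0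
      rw [map_add, add_eq_zero_iff_eq']
      have : oneS ∘ₗ push (STop.act G g) = (oneS : SC X →ₗ[F2] F2) := by
        apply lin_ext; intro σ
        rw [LinearMap.comp_apply, push_single, oneS_single, oneS_single]
      exact congrArg (fun g => g x) this
    exact this hx
  · intro σ hσ
    rw [oneS_single, if_neg]
    intro h
    apply hσ
    rw [h]
    norm_num
  · apply lin_ext; intro σ
    rw [del_apply, bdS_single, ← LinearMap.comp_apply, oneS_realL, STop.univ, bd_single]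
    have key : ∀ l : List (Fin σ.nv), (oneL (bd1 l) : F2) = 0 := by
      intro l
      match l with
      | [] => simp
      | [a] =>
        rw [bd1_cons, bd1_nil, map_zero, add_zero, oneL_single, if_neg (by simp)]
      | [a, b] =>
        rw [bd1_cons, bd1_cons, bd1_nil, map_zero, add_zero, cone_single, map_add, oneL_single,
          oneL_single, if_pos (by simp), if_pos (by simp), F2.add_self]
      | a :: b :: c :: l =>
        have h1 : oneL (bd1 (a :: b :: c :: l)) ∈ (⊥ : Submodule F2 F2) := by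
          refine supp_induction ⊥ oneL ?_ (bd1_len a (b :: c :: l))
          intro q hq
          rw [oneL_single, if_neg (by rw [hq]; simp)]
          exact Submodule.zero_mem _
        exact h1
    exact key _

theorem pullG_one (f : GMap X Y) :
    pullG f (GSub.maps_empty _ _) (cls oneS (oneS_mem Y)) = cls oneS (oneS_mem X) := by
  rw [pullG_cls]
  apply cls_congr
  apply lin_ext; intro σ
  rw [LinearMap.dualMap_apply, push_single, oneS_single, oneS_single]

theorem one_cupG {q : ℤ} (h : 0 + q = q) {A : GSub X}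
    (e : Excisive (GSub.empty X).set A.set) (s : A.set ⊆ (GSub.empty X).set ∪ A.set)
    (x : Hn q (NA X A)) : cupG h e s (cls oneS (oneS_mem X)) x = x := by
  obtain ⟨c, hc, rfl⟩ := exists_cls x
  have hc' : c ∈ Zn q (NG G {(GSub.empty X).set ∪ A.set}) := by
    have : (GSub.empty X).set ∪ A.set = A.set := Set.empty_union _
    rw [this]
    exact hc
  rw [cupG_cls h e s (oneS_mem X) hc hc' (b := 0) (Submodule.zero_mem _)]
  rw [map_zero, one_cupS (red_of_Cn (Set.singleton_nonempty _) (mem_Zn.1 hc).1), add_self_eq_zero']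

theorem natOp_family (O : NatOp) {𝒰 : Set (Set X)} : ∀ x ∈ NG G 𝒰, O.lift x ∈ NG G 𝒰 :=
  fun _ hx => (equi_natOp (G := G) O).mem_NG (fun _ hx => O.lift_mem_CS hx) hx

theorem rvS_deg (σ : Sing X) : rvS (single σ 1) ∈ Deg X (σ.nv + 1) := by
  rw [rvS, NatOp.lift_single]
  apply realL_mem_Deg
  change rv _ ∈ _
  rw [STop.univ, rv_single]
  have := rv1_len (List.finRange σ.nv)
  rwa [List.length_finRange] at this

theorem rvS_dual {n : ℤ} {𝒰 : Set (Set X)} {c : SC X →ₗ[F2] F2} (hc : c ∈ Cn n (NG G 𝒰)) :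
    c ∘ₗ rvS ∈ Cn (n - 1) (NG G 𝒰) := by
  refine ⟨fun x hx => hc.1 _ (natOp_family rvOp x hx), fun m hm x => ?_⟩
  rw [LinearMap.comp_apply, ← shift_prv rvS_deg]
  exact hc.2 (m + 1) (by push_cast; omega) _

theorem rhoS_dual {n : ℤ} {𝒰 : Set (Set X)} {c : SC X →ₗ[F2] F2} (hc : c ∈ Zn n (NG G 𝒰)) :
    c ∘ₗ rhoS = c + del (c ∘ₗ rvS) := by
  apply LinearMap.ext; intro x
  rw [LinearMap.comp_apply, LinearMap.add_apply, del_apply, LinearMap.comp_apply]
  have h1 := congrArg c (bdS_rvS x)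
  rw [map_add, map_add, ← del_apply, (mem_Zn.1 hc).2, LinearMap.zero_apply, zero_add] at h1
  rw [h1, ← add_assoc, F2.add_self, zero_add]

theorem cup_comm_aux {p q r : ℤ} (h : p + q = r) {𝒰 𝒱 : Set (Set X)} (h𝒰 : 𝒰.Nonempty)
    (h𝒱 : 𝒱.Nonempty) {c d : SC X →ₗ[F2] F2} (hc : c ∈ Zn p (NG G 𝒰)) (hd : d ∈ Zn q (NG G 𝒱)) :
    ∃ b ∈ Cn (r - 1) (NG G (𝒰 ∪ 𝒱)), del b = cupS c d + cupS d c := by
  have hcd := cup_mem_Zn h h𝒰 h𝒱 hc hd
  have h1 := rhoS_dual hcd
  rw [cupS_rhoS, rhoS_dual hc, rhoS_dual hd, cupS_add_left, cupS_add_right] at h1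
  have hc' := rvS_dual (mem_Zn.1 hc).1
  have hd' := rvS_dual (mem_Zn.1 hd).1
  set c' := c ∘ₗ rvS with hc'def
  set d' := d ∘ₗ rvS with hd'def
  have hdc' : del c' ∈ Cn p (NG G 𝒰) := by
    have := del_mem_Cn (adm_NG h𝒰) hc'
    rwa [sub_add_cancel] at this
  have hcdc : c + del c' ∈ Cn p (NG G 𝒰) := Submodule.add_mem _ (mem_Zn.1 hc).1 hdc'
  have hzero : del (c + del c') = 0 := by rw [map_add, (mem_Zn.1 hc).2, del_del, add_zero]
  have e1 : cupS d (del c') = del (cupS d c') := by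
    rw [del_cup h𝒱 h𝒰 (mem_Zn.1 hd).1 hc', (mem_Zn.1 hd).2, cupS_zero_left, zero_add]
  have e2 : cupS (del d') (c + del c') = del (cupS d' (c + del c')) := by
    rw [del_cup h𝒱 h𝒰 hd' hcdc, hzero, cupS_zero_right, add_zero]
  rw [e1, e2] at h1
  refine ⟨cupS d c' + cupS d' (c + del c') + cupS c d ∘ₗ rvS, ?_, ?_⟩
  · have m1 : cupS d c' ∈ Cn (r - 1) (NG G (𝒱 ∪ 𝒰)) :=
      cup_mem_Cn (by omega) (mem_Zn.1 hd).1 hc'
    have m2 : cupS d' (c + del c') ∈ Cn (r - 1) (NG G (𝒱 ∪ 𝒰)) :=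
      cup_mem_Cn (by omega) hd' hcdc
    rw [Set.union_comm] at m1 m2
    exact Submodule.add_mem _ (Submodule.add_mem _ m1 m2) (rvS_dual (mem_Zn.1 hcd).1)
  · rw [map_add, map_add]
    have h2 : del (cupS c d ∘ₗ rvS) = cupS c d +
        (cupS d c + del (cupS d c') + del (cupS d' (c + del c'))) := by
      rw [h1, ← add_assoc, add_self_eq_zero', zero_add]
    rw [h2]
    generalize del (cupS d c') = P
    generalize del (cupS d' (c + del c')) = Q
    have hP := add_self_eq_zero' P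
    have hQ := add_self_eq_zero' Q
    calc P + Q + (cupS c d + (cupS d c + P + Q))
        = cupS c d + cupS d c + (P + P) + (Q + Q) := by abel
      _ = _ := by rw [hP, hQ, add_zero, add_zero]

theorem cup_commG {p q r : ℤ} (h : p + q = r) (h' : q + p = r) {A B C : GSub X}
    (e : Excisive A.set B.set) (e' : Excisive B.set A.set) (s : C.set ⊆ A.set ∪ B.set)
    (s' : C.set ⊆ B.set ∪ A.set) (x : Hn p (NA X A)) (y : Hn q (NA X B)) :
    cupG h e s x y = cupG h' e' s' y x := by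
  obtain ⟨c, hc, rfl⟩ := exists_cls x
  obtain ⟨d, hd, rfl⟩ := exists_cls y
  obtain ⟨w, hw, b, hb, hwb⟩ := exists_cup_rep h e hc hd
  rw [cupG_cls h e s hc hd hw hb hwb]
  obtain ⟨b', hb', hbb'⟩ := cup_comm_aux h (Set.singleton_nonempty _) (Set.singleton_nonempty _) hc hd
  have hw' : w ∈ Zn r (NG G {B.set ∪ A.set}) := by rwa [Set.union_comm]
  have hb2 : b + b' ∈ Cn (r - 1) (NG G ({B.set} ∪ {A.set})) := by
    rw [Set.union_comm {B.set}]
    exact Submodule.add_mem _ hb hb'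
  rw [cupG_cls h' e' s' hd hc hw' hb2]
  rw [map_add, hwb, hbb']
  generalize cupS c d = P
  have hP := add_self_eq_zero' P
  calc w + P + (P + cupS d c) = w + cupS d c + (P + P) := by abel
    _ = _ := by rw [hP, add_zero]

theorem negOnePow_smul' {M : Type*} [AddCommGroup M] [Module F2 M] (n : ℤ) (x : M) :
    n.negOnePow • x = x := by
  rcases Int.even_or_odd n with h | h
  · rw [Int.negOnePow_even n h, one_smul]
  · rw [Int.negOnePow_odd n h, Units.neg_smul, one_smul, neg_eq_self']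

theorem cup_assocG {p q r s t u : ℤ} (h₁ : p + q = s) (h₂ : s + r = u) (h₃ : q + r = t)
    (h₄ : p + t = u) {A B C S T U : GSub X}
    (hS : S.set = A.set ∪ B.set) (hT : T.set = B.set ∪ C.set)
    (e₁ : Excisive A.set B.set) (e₂ : Excisive S.set C.set) (e₃ : Excisive B.set C.set)
    (e₄ : Excisive A.set T.set) (s₁ : S.set ⊆ A.set ∪ B.set) (s₃ : T.set ⊆ B.set ∪ C.set)
    (s₂ : U.set ⊆ S.set ∪ C.set) (s₄ : U.set ⊆ A.set ∪ T.set)
    (x : Hn p (NA X A)) (y : Hn q (NA X B)) (z : Hn r (NA X C)) :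
    cupG h₂ e₂ s₂ (cupG h₁ e₁ s₁ x y) z = cupG h₄ e₄ s₄ x (cupG h₃ e₃ s₃ y z) := by
  obtain ⟨c, hc, rfl⟩ := exists_cls x
  obtain ⟨d, hd, rfl⟩ := exists_cls y
  obtain ⟨e, he, rfl⟩ := exists_cls z
  obtain ⟨w1, hw1, b1, hb1, hwb1⟩ := exists_cup_rep h₁ e₁ hc hd
  rw [cupG_cls h₁ e₁ s₁ hc hd hw1 hb1 hwb1]
  obtain ⟨w2, hw2, b2, hb2, hwb2⟩ := exists_cup_rep h₂ e₂ (Zn_anti (sub_le s₁) hw1) he
  rw [cupG_cls h₂ e₂ s₂ (Zn_anti (sub_le s₁) hw1) he hw2 hb2 hwb2]
  obtain ⟨w3, hw3, b3, hb3, hwb3⟩ := exists_cup_rep h₃ e₃ hd he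
  rw [cupG_cls h₃ e₃ s₃ hd he hw3 hb3 hwb3]
  obtain ⟨w4, hw4, b4, hb4, hwb4⟩ := exists_cup_rep h₄ e₄ hc (Zn_anti (sub_le s₃) hw3)
  rw [cupG_cls h₄ e₄ s₄ hc (Zn_anti (sub_le s₃) hw3) hw4 hb4 hwb4]
  -- everything at the level of `V = A ∪ B ∪ C`
  have hV : S.set ∪ C.set = A.set ∪ T.set := by rw [hS, hT, Set.union_assoc]
  have hw4' : w4 ∈ Zn u (NG G {S.set ∪ C.set}) := by rwa [hV]
  have key : cls w2 hw2 = cls w4 hw4' := by
    have hle : NG G (({A.set} ∪ {B.set}) ∪ {C.set}) ≤ NG G {S.set ∪ C.set} := by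
      apply NG_mono
      rintro W ((hW | hW) | hW)
      · refine ⟨_, rfl, ?_⟩
        rw [Set.mem_singleton_iff] at hW
        rw [hW, hS]
        exact fun x hx => Or.inl (Or.inl hx)
      · refine ⟨_, rfl, ?_⟩
        rw [Set.mem_singleton_iff] at hW
        rw [hW, hS]
        exact fun x hx => Or.inl (Or.inr hx)
      · refine ⟨_, rfl, ?_⟩
        rw [Set.mem_singleton_iff] at hW
        rw [hW]
        exact Set.subset_union_right
    have hbij := family_bijective (G := G) (n := u) (V := S.set ∪ C.set)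
      (𝒰 := ({A.set} ∪ {B.set}) ∪ {C.set}) ⟨A.set, by simp⟩ (by
        rintro W ((hW | hW) | hW)
        · rw [Set.mem_singleton_iff] at hW
          rw [hW, hS]
          exact fun x hx => Or.inl (Or.inl hx)
        · rw [Set.mem_singleton_iff] at hW
          rw [hW, hS]
          exact fun x hx => Or.inl (Or.inr hx)
        · rw [Set.mem_singleton_iff] at hW
          rw [hW]
          exact Set.subset_union_right) (by
        intro x hx
        rcases e₂ x hx with h | h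
        · have hxS : x ∈ S.set := mem_of_mem_nhdsWithin hx h
          have hnhds : nhdsWithin x S.set = nhdsWithin x (S.set ∪ C.set) := by
            apply le_antisymm (nhdsWithin_mono x Set.subset_union_left)
            rw [nhdsWithin_le_iff]
            exact h
          have hxAB := hxS
          rw [hS] at hxAB
          have h2 := e₁ x hxAB
          rw [← hS, hnhds] at h2
          rcases h2 with h2 | h2
          · exact ⟨A.set, by simp, h2⟩
          · exact ⟨B.set, by simp, h2⟩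
        · exact ⟨C.set, by simp, h⟩) hle
    apply hbij.1
    rw [resN_cls, resN_cls, cls_eq_iff, mem_Bn]
    have m1 : cupS b1 e ∈ Cn (u - 1) (NG G (({A.set} ∪ {B.set}) ∪ {C.set})) :=
      cup_mem_Cn (by omega) hb1 (mem_Zn.1 he).1
    have m3 : cupS c b3 ∈ Cn (u - 1) (NG G (({A.set} ∪ {B.set}) ∪ {C.set})) := by
      have : cupS c b3 ∈ Cn (u - 1) (NG G ({A.set} ∪ ({B.set} ∪ {C.set}))) :=
        cup_mem_Cn (by omega) (mem_Zn.1 hc).1 hb3
      rwa [← Set.union_assoc] at this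
    have m2 : b2 ∈ Cn (u - 1) (NG G (({A.set} ∪ {B.set}) ∪ {C.set})) := by
      refine Cn_anti (NG_mono ?_) hb2
      rintro W ((hW | hW) | hW)
      · rw [Set.mem_singleton_iff] at hW
        exact ⟨S.set, by simp, by rw [hW, hS]; exact Set.subset_union_left⟩
      · rw [Set.mem_singleton_iff] at hW
        exact ⟨S.set, by simp, by rw [hW, hS]; exact Set.subset_union_right⟩
      · rw [Set.mem_singleton_iff] at hW
        exact ⟨C.set, by simp, by rw [hW]⟩
    have m4 : b4 ∈ Cn (u - 1) (NG G (({A.set} ∪ {B.set}) ∪ {C.set})) := by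
      refine Cn_anti (NG_mono ?_) hb4
      rintro W ((hW | hW) | hW)
      · rw [Set.mem_singleton_iff] at hW
        exact ⟨A.set, by simp, by rw [hW]⟩
      · rw [Set.mem_singleton_iff] at hW
        exact ⟨T.set, by simp, by rw [hW, hT]; exact Set.subset_union_left⟩
      · rw [Set.mem_singleton_iff] at hW
        exact ⟨T.set, by simp, by rw [hW, hT]; exact Set.subset_union_right⟩
    refine ⟨b2 + b4 + cupS b1 e + cupS c b3, Submodule.add_mem _ (Submodule.add_mem _
      (Submodule.add_mem _ m2 m4) m1) m3, ?_⟩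
    have d1 : del (cupS b1 e) = cupS w1 e + cupS c (cupS d e) := by
      rw [del_cup ⟨A.set, by simp⟩ (Set.singleton_nonempty _) hb1 (mem_Zn.1 he).1, (mem_Zn.1 he).2,
        cupS_zero_right, add_zero, hwb1, cupS_add_left, cupS_assoc]
    have d3 : del (cupS c b3) = cupS c w3 + cupS c (cupS d e) := by
      rw [del_cup (Set.singleton_nonempty _) ⟨B.set, by simp⟩ (mem_Zn.1 hc).1 hb3, (mem_Zn.1 hc).2,
        cupS_zero_left, zero_add, hwb3, cupS_add_right]
    rw [map_add, map_add, map_add, hwb2, hwb4, d1, d3]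
    generalize cupS w1 e = P
    generalize cupS c w3 = Q
    generalize cupS c (cupS d e) = R
    have hP := add_self_eq_zero' P
    have hQ := add_self_eq_zero' Q
    have hR := add_self_eq_zero' R
    calc w2 + P + (w4 + Q) + (P + R) + (Q + R)
        = w2 + w4 + (P + P) + (Q + Q) + (R + R) := by abel
      _ = _ := by rw [hP, hQ, hR, add_zero, add_zero, add_zero]
  have := congrArg (resN (sub_le (G := G) s₂)) key
  rw [resN_cls, resN_cls] at this
  exact this

theorem conn_cupG {p q r : ℤ} (h : p + q = r) (h' : (p + 1) + q = r + 1) (A : GSub X)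
    (e : Excisive (GSub.empty A.toSpace).set (GSub.empty A.toSpace).set)
    (s : (GSub.empty A.toSpace).set ⊆ (GSub.empty A.toSpace).set ∪ (GSub.empty A.toSpace).set)
    (e' : Excisive A.set (GSub.empty X).set) (s' : A.set ⊆ A.set ∪ (GSub.empty X).set)
    (x : Hn p (NA A.toSpace (GSub.empty A.toSpace))) (y : Hn q (NA X (GSub.empty X))) :
    connG A (cupG h e s x (pullG A.incl (GSub.maps_empty _ _) y)) =
      cupG h' e' s' (connG A x) y := by
  obtain ⟨c, hc, rfl⟩ := exists_cls x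
  obtain ⟨d, hd, rfl⟩ := exists_cls y
  rw [pullG_cls, connG_cls]
  have hdA := (grMap_push A.incl.map).dual_Zn (maps_NA A.incl (GSub.maps_empty _ (GSub.empty X))) hd
  have hw := cup_mem_Zn h (Set.singleton_nonempty _) (Set.singleton_nonempty _) hc hdA
  have hw' : cupS c ((push A.incl.map).dualMap d) ∈
      Zn r (NG G {(GSub.empty A.toSpace).set ∪ (GSub.empty A.toSpace).set}) := by
    rw [Set.union_self] at hw ⊢
    exact hw
  rw [cupG_cls h e s hc hdA hw' (b := 0) (Submodule.zero_mem _)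
    (by rw [map_zero, add_self_eq_zero'])]
  rw [connG_cls]
  have hdc := conn_aux hc
  have hv := cup_mem_Zn h' (Set.singleton_nonempty _) (Set.singleton_nonempty _) hdc hd
  have hv' : cupS (del (c ∘ₗ resG A)) d ∈ Zn (r + 1) (NG G {A.set ∪ (GSub.empty X).set}) := by
    refine Zn_anti (NG_mono ?_) hv
    intro U hU
    rw [Set.mem_singleton_iff] at hU
    refine ⟨A.set, by simp, ?_⟩
    rw [hU]
    rintro x (hx | hx)
    · exact hx
    · exact False.elim hx
  rw [cupG_cls h' e' s' hdc hd hv' (b := 0) (Submodule.zero_mem _)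
    (by rw [map_zero, add_self_eq_zero']), cls_eq_iff, mem_Bn]
  have hr : r + 1 - 1 = r := by ring
  rw [hr]
  have hcE := ext_mem (mem_Zn.1 hc).1
  have hwE := ext_mem (mem_Zn.1 (Zn_anti (sub_le s) hw')).1
  have hvE : cupS (c ∘ₗ resG A) d ∈ Cn r (NA X (GSub.empty X)) := by
    have := cup_mem_Cn h hcE (mem_Zn.1 hd).1
    rw [Set.union_self] at this
    exact this
  refine ⟨cupS c ((push A.incl.map).dualMap d) ∘ₗ resG A + cupS (c ∘ₗ resG A) d,
    ⟨vanish_NA ?_ ?_, ?_⟩, ?_⟩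
  · intro x hx
    rw [LinearMap.add_apply, LinearMap.comp_apply, add_eq_zero_iff_eq']
    have h1 := cupS_push A.incl.map (c ∘ₗ resG A) d
    have h2 : (c ∘ₗ resG A) ∘ₗ push A.incl.map = c := by
      apply LinearMap.ext; intro z
      rw [LinearMap.comp_apply, LinearMap.comp_apply, resG_push]
    rw [h2] at h1
    have h3 := congrArg (fun g => g (resG A x)) h1
    have h4 : push A.incl.map (resG A x) = x := push_resG hx
    change _ = cupS (c ∘ₗ resG A) d (push A.incl.map (resG A x)) at h3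
    rw [h4] at h3
    exact h3
  · intro x hx
    rw [LinearMap.add_apply, zero_of_KG hwE hx, zero_of_KG hvE hx, add_zero]
  · intro m hm x
    rw [LinearMap.add_apply, hwE.2 m hm, hvE.2 m hm, add_zero]
  · rw [map_add, del_cup (Set.singleton_nonempty _) (Set.singleton_nonempty _) hcE (mem_Zn.1 hd).1, (mem_Zn.1 hd).2,
      cupS_zero_right, add_zero]

end cup

/-! ### The theory -/

/-- **The multiplicative equivariant cohomology theory of invariant singular cochains mod 2**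
(Bredon cohomology with constant coefficients `ZMod 2`). -/
noncomputable def invCoh (G : Type) [Group G] [TopologicalSpace G] : MultCohomology G where
  H n X A := Hn n (NA X A)
  grp _ _ _ := inferInstance
  pull f hf x := pullG f hf x
  conn A x := connG A x
  cup h _ _ _ _ e s x y := cupG h e s x y
  one X := cls oneS (oneS_mem X)
  pull_add f hf x y := map_add (pullG f hf) x y
  pull_id h x := pullG_id h x
  pull_comp f g hf hg hgf z := pullG_comp f g hf hg hgf z
  pull_homotopy f₀ f₁ h₀ h₁ F hF hA e₀ e₁ y := pullG_homotopy f₀ f₁ h₀ h₁ F hF hA e₀ e₁ y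
  conn_add A x y := map_add (connG A) x y
  pull_conn f hf y := pullG_connG f hf y
  exact_space A x := exact_spaceG A x
  exact_sub A x := exact_subG A x
  exact_pair A x := exact_pairG A x
  excision A U h := excisionG A U h
  additivity W A := additivityG W A
  cup_add_left h _ _ _ _ e s x x' y :=
    (congrArg (fun g => g y) (map_add (cupG h e s) x x'))
  pull_cup h _ _ _ _ _ _ _ _ f hA hB hC e e' s s' x y :=
    pullG_cupG h f hA hB hC e e' s s' x y
  cup_assoc h₁ h₂ h₃ h₄ _ _ _ _ _ _ _ hS hT e₁ e₂ e₃ e₄ s₂ s₄ x y z :=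
    cup_assocG h₁ h₂ h₃ h₄ hS hT e₁ e₂ e₃ e₄ hS.within hT.within s₂ s₄ x y z
  cup_comm h h' _ _ _ _ e e' s s' x y := by
    rw [negOnePow_smul']
    exact cup_commG h h' e e' s s' x y
  pull_one f := pullG_one f
  one_cup h _ _ e s x := one_cupG h e s x
  conn_cup h h' _ A e s x y := conn_cupG h h' A (GSub.excisive_empty _) (GSub.within_empty _)
    e s x y

end EqTC
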